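import Mathlib

set_option autoImplicit false

namespace Pool.Agent.Lib.MP_121189_an

abbrev V : Type := Fin 3 → ℝ

/-- Inner normals (of length `√3`) of the tetrahedron `{x | ∀ k, -1 ≤ N k ⬝ᵥ x}`. -/
def N : Fin 4 → V := ![![1, 1, 1], ![1, -1, -1], ![-1, 1, -1], ![-1, -1, 1]]

/-- dot product in coordinates -/
theorem dot_eq (a b : V) : a ⬝ᵥ b = a 0 * b 0 + a 1 * b 1 + a 2 * b 2 := by
  simp [dotProduct, Fin.sum_univ_three]

theorem N_dot (j k : Fin 4) : N j ⬝ᵥ N k = if j = k then 3 else -1 := by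
  fin_cases j <;> fin_cases k <;> simp [N, dotProduct, Fin.sum_univ_three] <;> norm_num

theorem N_dot_self (k : Fin 4) : N k ⬝ᵥ N k = 3 := by simp [N_dot]

theorem N_dot_ne {j k : Fin 4} (h : j ≠ k) : N j ⬝ᵥ N k = -1 := by simp [N_dot, h]

theorem N_sum (x : V) : N 0 ⬝ᵥ x + N 1 ⬝ᵥ x + N 2 ⬝ᵥ x + N 3 ⬝ᵥ x = 0 := by
  simp only [dot_eq, N]
  simp
  ring

theorem N_sq (x : V) : (N 0 ⬝ᵥ x) ^ 2 + (N 1 ⬝ᵥ x) ^ 2 + (N 2 ⬝ᵥ x) ^ 2 + (N 3 ⬝ᵥ x) ^ 2
    = 4 * (x ⬝ᵥ x) := by
  simp only [dot_eq, N]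
  simp
  ring

/-- Linear reflection in the plane orthogonal to `N k`. -/
noncomputable def R (k : Fin 4) : V →ₗ[ℝ] V where
  toFun v := v - ((2 / 3 : ℝ) * (N k ⬝ᵥ v)) • N k
  map_add' v w := by
    rw [dotProduct_add]; module
  map_smul' c v := by
    rw [dotProduct_smul]; simp only [smul_eq_mul, RingHom.id_apply]; module

theorem R_apply (k : Fin 4) (v : V) : R k v = v - ((2 / 3 : ℝ) * (N k ⬝ᵥ v)) • N k := rfl

theorem N_dot_R_self (k : Fin 4) (v : V) : N k ⬝ᵥ R k v = - (N k ⬝ᵥ v) := by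
  rw [R_apply, dotProduct_sub, dotProduct_smul, N_dot_self, smul_eq_mul]; ring

theorem N_dot_R_ne {j k : Fin 4} (h : j ≠ k) (v : V) :
    N j ⬝ᵥ R k v = N j ⬝ᵥ v + (2 / 3) * (N k ⬝ᵥ v) := by
  rw [R_apply, dotProduct_sub, dotProduct_smul, N_dot_ne h, smul_eq_mul]; ring

theorem R_R (k : Fin 4) (v : V) : R k (R k v) = v := by
  rw [R_apply k (R k v), N_dot_R_self, R_apply]; module

theorem R_dot (k : Fin 4) (v w : V) : R k v ⬝ᵥ w = v ⬝ᵥ R k w := by
  rw [R_apply, R_apply, dotProduct_sub, sub_dotProduct, dotProduct_smul, smul_dotProduct,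
    smul_eq_mul, smul_eq_mul, dotProduct_comm v (N k)]
  ring

theorem R_dot_R (k : Fin 4) (v w : V) : R k v ⬝ᵥ R k w = v ⬝ᵥ w := by
  rw [R_dot, R_R]

/-- Reflection in the plane of face `k`. -/
noncomputable def ρ (k : Fin 4) (x : V) : V := R k x - (2 / 3 : ℝ) • N k

theorem ρ_apply (k : Fin 4) (x : V) : ρ k x = x - ((2 / 3 : ℝ) * (N k ⬝ᵥ x + 1)) • N k := by
  rw [ρ, R_apply]; module

theorem ρ_add (k : Fin 4) (x y : V) : ρ k (x + y) = ρ k x + R k y := by
  rw [ρ, ρ, map_add]; abel

theorem ρ_fix {k : Fin 4} {x : V} (h : N k ⬝ᵥ x = -1) : ρ k x = x := by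
  rw [ρ_apply, h]; simp

theorem N_dot_ρ_self (k : Fin 4) (x : V) : N k ⬝ᵥ ρ k x = - (N k ⬝ᵥ x) - 2 := by
  rw [ρ, dotProduct_sub, dotProduct_smul, N_dot_self, N_dot_R_self, smul_eq_mul]; ring

theorem ρ_ρ (k : Fin 4) (x : V) : ρ k (ρ k x) = x := by
  rw [ρ_apply k (ρ k x), N_dot_ρ_self, ρ_apply]; module

/-- Linear part of the unfolding along a list of faces (latest bounce first). -/
noncomputable def L : List (Fin 4) → V →ₗ[ℝ] V
  | [] => LinearMap.id
  | k :: w => R k ∘ₗ L w

/-- The folding map along a list of faces (latest bounce first). -/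
noncomputable def U : List (Fin 4) → V → V
  | [], x => x
  | k :: w, x => ρ k (U w x)

@[simp] theorem L_nil (v : V) : L [] v = v := rfl
@[simp] theorem L_cons (k : Fin 4) (w : List (Fin 4)) (v : V) : L (k :: w) v = R k (L w v) := rfl
@[simp] theorem U_nil (v : V) : U [] v = v := rfl
@[simp] theorem U_cons (k : Fin 4) (w : List (Fin 4)) (v : V) : U (k :: w) v = ρ k (U w v) := rfl

theorem U_add (w : List (Fin 4)) (x y : V) : U w (x + y) = U w x + L w y := by
  induction w with
  | nil => rfl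
  | cons k w ih => rw [U_cons, ih, ρ_add, U_cons, L_cons]

theorem L_dot (w : List (Fin 4)) (v v' : V) : L w v ⬝ᵥ L w v' = v ⬝ᵥ v' := by
  induction w with
  | nil => rfl
  | cons k w ih => rw [L_cons, L_cons, R_dot_R, ih]

theorem L_injective (w : List (Fin 4)) : Function.Injective (L w) := by
  induction w with
  | nil => exact fun _ _ h => h
  | cons k w ih =>
    intro a b h
    rw [L_cons, L_cons] at h
    have := congrArg (R k) h
    rw [R_R, R_R] at this
    exact ih this

/-- Open tetrahedron. -/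
def InT (x : V) : Prop := ∀ j, -1 < N j ⬝ᵥ x

/-- Relative interior of face `k`. -/
def OnF (k : Fin 4) (x : V) : Prop := N k ⬝ᵥ x = -1 ∧ ∀ j, j ≠ k → -1 < N j ⬝ᵥ x

/-- The straight line from `x` with velocity `v` follows, up to time `t`, the bounces `w`
(latest bounce first), starts and ends in the open tetrahedron. -/
def Fol : List (Fin 4) → ℝ → V → V → Prop
  | [], t, x, v => 0 ≤ t ∧ InT x ∧ InT (x + t • v)
  | k :: w, t, x, v => ∃ s τ, Fol w s x v ∧ s < τ ∧ τ < t ∧ OnF k (U w (x + τ • v)) ∧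
      InT (U (k :: w) (x + t • v))

theorem Fol.nonneg {w : List (Fin 4)} : ∀ {t : ℝ} {x v : V}, Fol w t x v → 0 ≤ t := by
  induction w with
  | nil => intro t x v h; exact h.1
  | cons k w ih =>
    rintro t x v ⟨s, τ, h, h1, h2, -⟩
    exact (ih h).trans (h1.le.trans h2.le)

theorem Fol.start {w : List (Fin 4)} : ∀ {t : ℝ} {x v : V}, Fol w t x v → InT x := by
  induction w with
  | nil => intro t x v h; exact h.2.1
  | cons k w ih =>
    rintro t x v ⟨s, τ, h, h1, h2, -⟩
    exact ih h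

theorem Fol.inT {w : List (Fin 4)} {t : ℝ} {x v : V} (h : Fol w t x v) :
    InT (U w (x + t • v)) := by
  cases w with
  | nil => exact h.2.2
  | cons k w =>
    obtain ⟨s, τ, -, -, -, -, h⟩ := h
    exact h

theorem Fol.extend {w : List (Fin 4)} {s t : ℝ} {x v : V} (h : Fol w s x v) (hst : s ≤ t)
    (ht : InT (U w (x + t • v))) : Fol w t x v := by
  cases w with
  | nil => exact ⟨h.1.trans hst, h.2.1, ht⟩
  | cons k w =>
    obtain ⟨s', τ, h1, h2, h3, h4, h5⟩ := h
    exact ⟨s', τ, h1, h2, h3.trans_le hst, h4, ht⟩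

/-- Affine dependence of the functionals on time. -/
theorem N_U_time (j : Fin 4) (w : List (Fin 4)) (x v : V) (s : ℝ) :
    N j ⬝ᵥ U w (x + s • v) = N j ⬝ᵥ U w x + s * (N j ⬝ᵥ L w v) := by
  rw [U_add, map_smul, dotProduct_add, dotProduct_smul, smul_eq_mul]

theorem U_time (w : List (Fin 4)) (x v : V) (s : ℝ) :
    U w (x + s • v) = U w x + s • L w v := by
  rw [U_add, map_smul]

theorem Fol.slope_neg {k : Fin 4} {w : List (Fin 4)} {t : ℝ} {x v : V} (h : Fol (k :: w) t x v) :
    N k ⬝ᵥ L w v < 0 := by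
  obtain ⟨s, τ, h1, h2, h3, h4, h5⟩ := h
  have a := h1.inT k
  have b := h4.1
  rw [N_U_time] at a b
  by_contra hc
  push Not at hc
  nlinarith

/-- All bounces of `w` are genuine: the velocity points out of the face at each bounce. -/
def Good : List (Fin 4) → V → Prop
  | [], _ => True
  | k :: w, v => Good w v ∧ N k ⬝ᵥ L w v < 0

theorem Fol.good {w : List (Fin 4)} : ∀ {t : ℝ} {x v : V}, Fol w t x v → Good w v := by
  induction w with
  | nil => intro t x v h; trivial
  | cons k w ih =>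
    intro t x v h
    refine ⟨?_, h.slope_neg⟩
    obtain ⟨s, τ, h1, -⟩ := h
    exact ih h1

/-- Points of a segment whose end points are in the tetrahedron. -/
theorem seg_lt {a b c s τ σ : ℝ} (hs : c < a + s * b) (hτ : c ≤ a + τ * b) (h1 : s ≤ σ)
    (h2 : σ < τ) : c < a + σ * b := by
  rcases h1.eq_or_lt with h | h
  · rw [← h]; exact hs
  · have h3 : 0 < τ - s := by linarith
    have : (τ - s) * (a + σ * b) = (τ - σ) * (a + s * b) + (σ - s) * (a + τ * b) := by ring
    have h4 : (τ - s) * c < (τ - s) * (a + σ * b) := by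
      rw [this]
      have e1 : (τ - σ) * c < (τ - σ) * (a + s * b) := mul_lt_mul_of_pos_left hs (by linarith)
      have e2 : (σ - s) * c ≤ (σ - s) * (a + τ * b) := mul_le_mul_of_nonneg_left hτ (by linarith)
      nlinarith
    exact lt_of_mul_lt_mul_left h4 h3.le

theorem OnF.le {k : Fin 4} {x : V} (h : OnF k x) (j : Fin 4) : -1 ≤ N j ⬝ᵥ x := by
  by_cases hj : j = k
  · rw [hj, h.1]
  · exact (h.2 j hj).le

/-- Between an interior point and a boundary point of a face the trajectory is interior. -/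
theorem Fol.upto {w : List (Fin 4)} {s τ σ : ℝ} {x v : V} {k : Fin 4} (h : Fol w s x v)
    (hF : OnF k (U w (x + τ • v))) (h1 : s ≤ σ) (h2 : σ < τ) : Fol w σ x v := by
  refine h.extend h1 fun j => ?_
  have a := h.inT j
  have b := hF.le j
  rw [N_U_time] at a b ⊢
  exact seg_lt a b h1 h2

/-- Backward determinism. -/
theorem Fol.unique {w : List (Fin 4)} : ∀ {w' : List (Fin 4)} {t : ℝ} {x v x' v' : V},
    Fol w t x v → Fol w' t x' v' → U w (x + t • v) = U w' (x' + t • v') → L w v = L w' v' →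
    w = w' := by
  induction w with
  | nil =>
    intro w' t x v x' v' h h' hU hL
    cases w' with
    | nil => rfl
    | cons k w' =>
      exfalso
      obtain ⟨s, τ, h1, h2, h3, h4, h5⟩ := h'
      simp only [U_nil, L_nil] at hU hL
      -- the point on the face
      have e : U w' (x' + τ • v') = x + τ • v := by
        have e1 : U (k :: w') (x' + τ • v') = U w' (x' + τ • v') := ρ_fix h4.1
        rw [← e1, U_time, hL.symm]
        rw [U_time, hL.symm] at hU
        have : U (k :: w') x' = x + t • v - t • v := by rw [hU]; abel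
        rw [this]; abel
      have a := h.2.1 k
      have b := h.2.2 k
      have c := h4.1
      rw [e] at c
      rw [dotProduct_add, dotProduct_smul, smul_eq_mul] at b c
      have hτ : 0 ≤ τ := (h1.nonneg).trans h2.le
      have := seg_lt (c := -1) (a := N k ⬝ᵥ x) (b := N k ⬝ᵥ v) (s := 0) (τ := t) (σ := τ)
        (by simpa using a) b.le hτ h3
      linarith
  | cons k w ih =>
    intro w' t x v x' v' h h' hU hL
    obtain ⟨s, τ, h1, h2, h3, h4, h5⟩ := h
    have e : ∀ σ, U (k :: w) (x + σ • v) = U (k :: w) (x + t • v) - (t - σ) • L (k :: w) v := by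
      intro σ
      rw [U_time, U_time (k :: w) x v t]
      module
    have e1 : U (k :: w) (x + τ • v) = U w (x + τ • v) := ρ_fix h4.1
    cases w' with
    | nil =>
      exfalso
      simp only [U_nil, L_nil] at hU hL
      have e2 : U w (x + τ • v) = x' + τ • v' := by
        rw [← e1, e, hU, hL]; module
      have a := h'.2.1 k
      have b := h'.2.2 k
      have c := h4.1
      rw [e2] at c
      rw [dotProduct_add, dotProduct_smul, smul_eq_mul] at b c
      have hτ : 0 ≤ τ := (h1.nonneg).trans h2.le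
      have := seg_lt (c := -1) (a := N k ⬝ᵥ x') (b := N k ⬝ᵥ v') (s := 0) (τ := t) (σ := τ)
        (by simpa using a) b.le hτ h3
      linarith
    | cons k' w' =>
      obtain ⟨s', τ', h1', h2', h3', h4', h5'⟩ := h'
      have e' : ∀ σ, U (k' :: w') (x' + σ • v')
          = U (k :: w) (x + t • v) - (t - σ) • L (k :: w) v := by
        intro σ
        rw [hU, hL, U_time, U_time (k' :: w') x' v' t]
        module
      have e1' : U (k' :: w') (x' + τ' • v') = U w' (x' + τ' • v') := ρ_fix h4'.1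
      set y := U (k :: w) (x + t • v) with hy
      set u := L (k :: w) v with hu
      have p1 : OnF k (y - (t - τ) • u) := by rw [← e, e1]; exact h4
      have p2 : OnF k' (y - (t - τ') • u) := by rw [← e', e1']; exact h4'
      have aff : ∀ j : Fin 4, ∀ σ : ℝ, N j ⬝ᵥ (y - (t - σ) • u)
          = (N j ⬝ᵥ y - t * (N j ⬝ᵥ u)) + σ * (N j ⬝ᵥ u) := by
        intro j σ
        rw [dotProduct_sub, dotProduct_smul, smul_eq_mul]; ring
      have key : ∀ {k k' : Fin 4} {τ τ' : ℝ}, OnF k (y - (t - τ) • u) →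
          OnF k' (y - (t - τ') • u) → τ' < t → ¬ τ < τ' := by
        intro k k' τ τ' q1 q2 q3 hlt
        have a := q1.le k'
        have b := h5 k'
        have c := q2.1
        rw [aff] at a c
        have b' : -1 < (N k' ⬝ᵥ y - t * (N k' ⬝ᵥ u)) + t * (N k' ⬝ᵥ u) := by
          have : (N k' ⬝ᵥ y - t * (N k' ⬝ᵥ u)) + t * (N k' ⬝ᵥ u) = N k' ⬝ᵥ y := by ring
          rw [this]; exact b
        have h6 : 0 < t - τ := by linarith
        have h7 : (t - τ) * ((N k' ⬝ᵥ y - t * (N k' ⬝ᵥ u)) + τ' * (N k' ⬝ᵥ u))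
            = (t - τ') * ((N k' ⬝ᵥ y - t * (N k' ⬝ᵥ u)) + τ * (N k' ⬝ᵥ u))
              + (τ' - τ) * ((N k' ⬝ᵥ y - t * (N k' ⬝ᵥ u)) + t * (N k' ⬝ᵥ u)) := by ring
        rw [c] at h7
        have h8 := mul_le_mul_of_nonneg_left a (show 0 ≤ t - τ' by linarith)
        have h9 := mul_lt_mul_of_pos_left b' (show 0 < τ' - τ by linarith)
        nlinarith
      have hττ : τ = τ' := le_antisymm (not_lt.mp (key p2 p1 h3)) (not_lt.mp (key p1 p2 h3'))
      subst hττ
      have hkk : k = k' := by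
        by_contra hne
        have := p2.2 k hne
        linarith [p1.1]
      subst hkk
      congr 1
      obtain ⟨σ, hσ1, hσ2⟩ : ∃ σ, max s s' < σ ∧ σ < τ := exists_between (max_lt h2 h2')
      have f1 : Fol w σ x v := h1.upto h4 ((le_max_left _ _).trans hσ1.le) hσ2
      have f2 : Fol w' σ x' v' := h1'.upto h4' ((le_max_right _ _).trans hσ1.le) hσ2
      have hLL : L w v = L w' v' := by
        have := congrArg (R k) hL
        rw [hu, L_cons, L_cons, R_R, R_R] at this
        exact this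
      refine ih f1 f2 ?_ hLL
      have h8 := e σ
      rw [← e' σ, U_cons, U_cons] at h8
      have := congrArg (ρ k) h8
      rw [ρ_ρ, ρ_ρ] at this
      exact this

end Pool.Agent.Lib.MP_121189_an
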