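import Pool.Agent.Lib.MP_121189_an.H51Basic

set_option autoImplicit false

namespace Pool.Agent.Lib.MP_121189_an

/-- Euclidean length. -/
noncomputable def len (v : V) : ℝ := Real.sqrt (v ⬝ᵥ v)

theorem dot_self_nonneg (v : V) : 0 ≤ v ⬝ᵥ v := by
  rw [dot_eq]; nlinarith [sq_nonneg (v 0), sq_nonneg (v 1), sq_nonneg (v 2)]

theorem len_nonneg (v : V) : 0 ≤ len v := Real.sqrt_nonneg _

theorem len_sq (v : V) : len v ^ 2 = v ⬝ᵥ v := Real.sq_sqrt (dot_self_nonneg v)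

theorem dot_sq_le (a b : V) : (a ⬝ᵥ b) ^ 2 ≤ (a ⬝ᵥ a) * (b ⬝ᵥ b) := by
  simp only [dot_eq]
  nlinarith [sq_nonneg (a 0 * b 1 - a 1 * b 0), sq_nonneg (a 0 * b 2 - a 2 * b 0),
    sq_nonneg (a 1 * b 2 - a 2 * b 1)]

theorem abs_dot_le (a b : V) : |a ⬝ᵥ b| ≤ len a * len b := by
  apply abs_le_of_sq_le_sq
  · rw [mul_pow, len_sq, len_sq]; exact dot_sq_le a b
  · exact mul_nonneg (len_nonneg _) (len_nonneg _)

theorem dot_self_eq_zero {v : V} (h : v ⬝ᵥ v = 0) : v = 0 := by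
  rw [dot_eq] at h
  have h0 := sq_nonneg (v 0)
  have h1 := sq_nonneg (v 1)
  have h2 := sq_nonneg (v 2)
  ext i
  fin_cases i
  · have : v 0 ^ 2 = 0 := by nlinarith
    simpa using this
  · have : v 1 ^ 2 = 0 := by nlinarith
    simpa using this
  · have : v 2 ^ 2 = 0 := by nlinarith
    simpa using this

theorem len_pos {v : V} (h : v ≠ 0) : 0 < len v := by
  apply Real.sqrt_pos.mpr
  exact lt_of_le_of_ne (dot_self_nonneg v) fun h' => h (dot_self_eq_zero h'.symm)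

theorem len_L (w : List (Fin 4)) (v : V) : len (L w v) = len v := by
  rw [len, len, L_dot]

/-- The tetrahedron is contained in the ball of radius `√3`. -/
theorem InT.len_le {x : V} (h : InT x) : x ⬝ᵥ x ≤ 3 := by
  have h0 := h 0
  have h1 := h 1
  have h2 := h 2
  have h3 := h 3
  have hs := N_sum x
  have hq := N_sq x
  set a := N 0 ⬝ᵥ x
  set b := N 1 ⬝ᵥ x
  set c := N 2 ⬝ᵥ x
  set d := N 3 ⬝ᵥ x
  -- a + b + c + d = 0, all > -1 : the sum of squares is at most 12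
  have e1 : a * a ≤ 9 + 3 * (a - 3) + (a-3) * a := by nlinarith
  nlinarith [mul_pos (show 0 < a + 1 by linarith) (show 0 < b + 1 by linarith),
    mul_pos (show 0 < a + 1 by linarith) (show 0 < c + 1 by linarith),
    mul_pos (show 0 < a + 1 by linarith) (show 0 < d + 1 by linarith),
    mul_pos (show 0 < b + 1 by linarith) (show 0 < c + 1 by linarith),
    mul_pos (show 0 < b + 1 by linarith) (show 0 < d + 1 by linarith),
    mul_pos (show 0 < c + 1 by linarith) (show 0 < d + 1 by linarith)]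

/-- Total impulse along the list of bounces. -/
noncomputable def J : List (Fin 4) → V → ℝ
  | [], _ => 0
  | k :: w, v => J w v - N k ⬝ᵥ L w v

@[simp] theorem J_nil (v : V) : J [] v = 0 := rfl
@[simp] theorem J_cons (k : Fin 4) (w : List (Fin 4)) (v : V) :
    J (k :: w) v = J w v - N k ⬝ᵥ L w v := rfl

theorem virial (w : List (Fin 4)) (y v : V) :
    U w y ⬝ᵥ L w v = y ⬝ᵥ v - (2 / 3) * J w v := by
  induction w with
  | nil => simp
  | cons k w ih =>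
    rw [U_cons, L_cons, J_cons, ρ, sub_dotProduct, R_dot_R, ih, smul_dotProduct, smul_eq_mul,
      N_dot_R_self]
    ring

theorem key_real {A B C D q S : ℝ} (hA : |A| ≤ S) (hB : |B| ≤ S) (hC : |C| ≤ S)
    (hs : D = -(A + B + C)) (hq : A ^ 2 + B ^ 2 + C ^ 2 + D ^ 2 = 4 * q) : q ≤ 3 * S ^ 2 := by
  have h1 : A ^ 2 ≤ S ^ 2 := sq_le_sq' (by linarith [(abs_le.mp hA).1]) (abs_le.mp hA).2
  have h2 : B ^ 2 ≤ S ^ 2 := sq_le_sq' (by linarith [(abs_le.mp hB).1]) (abs_le.mp hB).2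
  have h3 : C ^ 2 ≤ S ^ 2 := sq_le_sq' (by linarith [(abs_le.mp hC).1]) (abs_le.mp hC).2
  subst hs
  nlinarith [sq_nonneg (A - B), sq_nonneg (A - C), sq_nonneg (B - C)]

theorem three {i j k : Fin 4} (hij : i ≠ j) (hik : i ≠ k) (hjk : j ≠ k) (u : V) :
    (N i ⬝ᵥ u) ^ 2 + (N j ⬝ᵥ u) ^ 2 + (N k ⬝ᵥ u) ^ 2 + (-(N i ⬝ᵥ u + N j ⬝ᵥ u + N k ⬝ᵥ u)) ^ 2
      = 4 * (u ⬝ᵥ u) := by
  have h0 : N 0 ⬝ᵥ u = u 0 + u 1 + u 2 := by rw [dot_eq]; simp [N]
  have h1 : N 1 ⬝ᵥ u = u 0 - u 1 - u 2 := by rw [dot_eq]; simp [N]; ring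
  have h2 : N 2 ⬝ᵥ u = - u 0 + u 1 - u 2 := by rw [dot_eq]; simp [N]; ring
  have h3 : N 3 ⬝ᵥ u = - u 0 - u 1 + u 2 := by rw [dot_eq]; simp [N]; ring
  have hu : u ⬝ᵥ u = u 0 * u 0 + u 1 * u 1 + u 2 * u 2 := dot_eq u u
  revert hij hik hjk
  fin_cases i <;> fin_cases j <;> fin_cases k <;> intro hij hik hjk <;>
    first
    | exact absurd rfl hij
    | exact absurd rfl hik
    | exact absurd rfl hjk
    | (simp only [Fin.zero_eta, Fin.mk_one, Fin.reduceFinMk, h0, h1, h2, h3, hu]; ring)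

/-- Four consecutive genuine bounces carry a definite amount of impulse. -/
theorem block {a b c d : Fin 4} {u : V}
    (hd : N d ⬝ᵥ u < 0) (hc : N c ⬝ᵥ R d u < 0) (hb : N b ⬝ᵥ R c (R d u) < 0)
    (ha : N a ⬝ᵥ R b (R c (R d u)) < 0) :
    u ⬝ᵥ u ≤ 3 * (-(N d ⬝ᵥ u) - (N c ⬝ᵥ R d u) - (N b ⬝ᵥ R c (R d u))
      - (N a ⬝ᵥ R b (R c (R d u)))) ^ 2 := by
  have hcd : c ≠ d := by
    rintro rfl
    rw [N_dot_R_self] at hc; linarith
  have hbc : b ≠ c := by
    rintro rfl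
    rw [N_dot_R_self] at hb; linarith
  have hab : a ≠ b := by
    rintro rfl
    rw [N_dot_R_self] at ha; linarith
  have key : ∀ {i j k : Fin 4}, i ≠ j → i ≠ k → j ≠ k → ∀ S : ℝ, |N i ⬝ᵥ u| ≤ S →
      |N j ⬝ᵥ u| ≤ S → |N k ⬝ᵥ u| ≤ S → u ⬝ᵥ u ≤ 3 * S ^ 2 := by
    intro i j k hij hik hjk S h1 h2 h3
    exact key_real h1 h2 h3 rfl (three hij hik hjk u)
  set S := -(N d ⬝ᵥ u) - (N c ⬝ᵥ R d u) - (N b ⬝ᵥ R c (R d u))
      - (N a ⬝ᵥ R b (R c (R d u))) with hS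
  have e1 : |N d ⬝ᵥ u| ≤ S := by rw [abs_le]; constructor <;> linarith
  have f1 : N c ⬝ᵥ u = N c ⬝ᵥ R d u - (2 / 3) * (N d ⬝ᵥ u) := by
    rw [N_dot_R_ne hcd]; ring
  have e2 : |N c ⬝ᵥ u| ≤ S := by rw [abs_le]; constructor <;> linarith
  have f2 : N b ⬝ᵥ R d u = N b ⬝ᵥ R c (R d u) - (2 / 3) * (N c ⬝ᵥ R d u) := by
    rw [N_dot_R_ne hbc]; ring
  have f3 : N a ⬝ᵥ R c (R d u) = N a ⬝ᵥ R b (R c (R d u)) - (2 / 3) * (N b ⬝ᵥ R c (R d u)) := by
    rw [N_dot_R_ne hab]; ring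
  by_cases hbd : b = d
  · subst hbd
    by_cases hac : a = c
    · exfalso
      subst hac
      rw [N_dot_R_self] at f2 f3
      linarith
    · have f4 : N a ⬝ᵥ R b u = N a ⬝ᵥ R c (R b u) - (2 / 3) * (N c ⬝ᵥ R b u) := by
        rw [N_dot_R_ne hac]; ring
      have f5 : N a ⬝ᵥ u = N a ⬝ᵥ R b u - (2 / 3) * (N b ⬝ᵥ u) := by
        rw [N_dot_R_ne hab]; ring
      have e3 : |N a ⬝ᵥ u| ≤ S := by rw [abs_le]; constructor <;> linarith
      exact key hcd (Ne.symm hac) (Ne.symm hab) S e2 e1 e3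
  · have f5 : N b ⬝ᵥ u = N b ⬝ᵥ R d u - (2 / 3) * (N d ⬝ᵥ u) := by
      rw [N_dot_R_ne hbd]; ring
    have e3 : |N b ⬝ᵥ u| ≤ S := by rw [abs_le]; constructor <;> linarith
    exact key hcd (Ne.symm hbc) (Ne.symm hbd) S e2 e1 e3

theorem Good.J_nonneg {w : List (Fin 4)} {v : V} (h : Good w v) : 0 ≤ J w v := by
  induction w with
  | nil => simp
  | cons k w ih =>
    rw [J_cons]
    have := ih h.1
    have := h.2
    linarith

/-- The impulse controls the number of bounces. -/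
theorem Good.length_le : ∀ (n : ℕ) {w : List (Fin 4)} {v : V}, Good w v → 4 * n ≤ w.length →
    n * len v ≤ Real.sqrt 3 * J w v := by
  intro n
  induction n with
  | zero =>
    intro w v h _
    simp only [Nat.cast_zero, zero_mul]
    exact mul_nonneg (Real.sqrt_nonneg _) h.J_nonneg
  | succ n ih =>
    intro w v h hn
    match w, h, hn with
    | a :: b :: c :: d :: w, h, hn =>
      obtain ⟨⟨⟨⟨h0, hd⟩, hc⟩, hb⟩, ha⟩ := h
      have h1 := ih h0 (by simp only [List.length_cons] at hn; omega)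
      simp only [L_cons] at hc hb ha
      have h2 := block hd hc hb ha
      simp only [J_cons, L_cons]
      set u := L w v with hu
      set S := -(N d ⬝ᵥ u) - (N c ⬝ᵥ R d u) - (N b ⬝ᵥ R c (R d u))
        - (N a ⬝ᵥ R b (R c (R d u))) with hS
      have hSpos : 0 ≤ S := by rw [hS]; linarith
      have h3 : len v ≤ Real.sqrt 3 * S := by
        rw [← len_L w v, ← hu]
        apply Real.sqrt_le_iff.mpr
        refine ⟨mul_nonneg (Real.sqrt_nonneg _) hSpos, ?_⟩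
        rw [mul_pow, Real.sq_sqrt (by norm_num)]
        exact h2
      have h4 : J w v - N d ⬝ᵥ u - N c ⬝ᵥ R d u - N b ⬝ᵥ R c (R d u) - N a ⬝ᵥ R b (R c (R d u))
          = J w v + S := by rw [hS]; ring
      rw [h4, mul_add]
      push_cast
      linarith
    | [], _, hn => simp at hn
    | [_], _, hn => simp only [List.length_cons, List.length_nil] at hn; omega
    | [_, _], _, hn => simp only [List.length_cons, List.length_nil] at hn; omega
    | [_, _, _], _, hn => simp only [List.length_cons, List.length_nil] at hn; omega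

/-- An upper bound for the number of bounces up to time `t` at speed at most one. -/
noncomputable def nmax (t : ℝ) : ℕ := 4 * (⌊9 + 3 * t⌋₊ + 1)

theorem Fol.length_lt {w : List (Fin 4)} {s t : ℝ} {x v : V} (h : Fol w s x v) (hv : v ≠ 0)
    (hv1 : len v ≤ 1) (hst : s ≤ t) : w.length < nmax t := by
  by_contra hc
  push Not at hc
  rw [nmax] at hc
  have h1 := h.good.length_le (⌊9 + 3 * t⌋₊ + 1) hc
  have h2 := virial w (x + s • v) v
  have hx : len x ≤ Real.sqrt 3 := Real.sqrt_le_sqrt h.start.len_le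
  have hy : len (U w (x + s • v)) ≤ Real.sqrt 3 := Real.sqrt_le_sqrt h.inT.len_le
  have hp := len_pos hv
  have h3 : |U w (x + s • v) ⬝ᵥ L w v| ≤ Real.sqrt 3 * len v := by
    refine (abs_dot_le _ _).trans ?_
    rw [len_L]
    exact mul_le_mul_of_nonneg_right hy hp.le
  have h4 : |x ⬝ᵥ v| ≤ Real.sqrt 3 * len v :=
    (abs_dot_le _ _).trans (mul_le_mul_of_nonneg_right hx hp.le)
  have h5 : (x + s • v) ⬝ᵥ v = x ⬝ᵥ v + s * len v ^ 2 := by
    rw [add_dotProduct, smul_dotProduct, smul_eq_mul, len_sq]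
  rw [abs_le] at h3 h4
  have hs := h.nonneg
  have h3s : Real.sqrt 3 ^ 2 = 3 := Real.sq_sqrt (by norm_num)
  have h3p : 0 < Real.sqrt 3 := Real.sqrt_pos.mpr (by norm_num)
  have h3l : Real.sqrt 3 ≤ 2 := by
    rw [Real.sqrt_le_iff]; norm_num
  -- J ≤ (3/2) (2 √3 |v| + s |v|^2)
  have h6 : J w v ≤ (3 / 2) * (2 * Real.sqrt 3 * len v + s * len v ^ 2) := by
    nlinarith
  have h7 : Real.sqrt 3 * J w v ≤ (9 + 3 * t) * len v := by
    have e1 : Real.sqrt 3 * J w v ≤ Real.sqrt 3 * ((3 / 2) * (2 * Real.sqrt 3 * len v + s * len v ^ 2)) :=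
      mul_le_mul_of_nonneg_left h6 h3p.le
    have e2 : Real.sqrt 3 * ((3 / 2) * (2 * Real.sqrt 3 * len v + s * len v ^ 2))
        = 3 * Real.sqrt 3 ^ 2 * len v + (3 / 2) * Real.sqrt 3 * (s * len v) * len v := by ring
    rw [e2, h3s] at e1
    have e3 : s * len v ≤ t := by nlinarith
    have e4 : 0 ≤ s * len v := mul_nonneg hs hp.le
    have e5 : (3 / 2) * Real.sqrt 3 * (s * len v) ≤ 3 * t := by nlinarith
    have e6 : (3 / 2) * Real.sqrt 3 * (s * len v) * len v ≤ 3 * t * len v :=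
      mul_le_mul_of_nonneg_right e5 hp.le
    linarith
  have h8 : ((⌊9 + 3 * t⌋₊ + 1 : ℕ) : ℝ) * len v ≤ (9 + 3 * t) * len v := h1.trans h7
  have h9 : ((⌊9 + 3 * t⌋₊ + 1 : ℕ) : ℝ) ≤ 9 + 3 * t := le_of_mul_le_mul_right h8 hp
  have h10 := Nat.lt_floor_add_one (9 + 3 * t)
  push_cast at h9
  linarith

end Pool.Agent.Lib.MP_121189_an
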