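import Pool.Agent.Lib.MP_121189_an.H51Meas

set_option autoImplicit false

open MeasureTheory Set

namespace Pool.Agent.Lib.MP_121189_an

/-- Euclidean unit ball. -/
def B1 : Set V := {ξ | len ξ < 1}

theorem isOpen_B1 : IsOpen B1 := isOpen_lt continuous_len continuous_const

theorem measurableSet_B1 : MeasurableSet B1 := isOpen_B1.measurableSet

theorem B1_subset : B1 ⊆ Metric.closedBall 0 1 := by
  intro ξ hξ
  rw [mem_closedBall_zero_iff, pi_norm_le_iff_of_nonneg zero_le_one]
  intro i
  have h1 : ξ ⬝ᵥ ξ < 1 := by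
    have h2 : len ξ < 1 := hξ
    have h3 := len_sq ξ
    have h4 := len_nonneg ξ
    nlinarith
  rw [dot_eq] at h1
  rw [Real.norm_eq_abs, abs_le]
  have h0 := sq_nonneg (ξ 0)
  have h1' := sq_nonneg (ξ 1)
  have h2' := sq_nonneg (ξ 2)
  fin_cases i <;> simp only [Fin.zero_eta, Fin.mk_one, Fin.reduceFinMk] <;> constructor <;>
    nlinarith

theorem volume_B1_ne_top : volume B1 ≠ ⊤ :=
  ((measure_mono B1_subset).trans_lt (isCompact_closedBall (0 : V) 1).measure_lt_top).ne

theorem volume_B1_pos : 0 < volume B1 :=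
  isOpen_B1.measure_pos volume ⟨0, by simp [B1, len_zero]⟩

/-- Mean velocity variation at scale `c`. -/
noncomputable def M (A : Set (V × V)) (c : ℝ) : ENNReal := ∫⁻ ξ in B1, volume (Sv A (c • ξ))

/-- Mean position variation at scale `r`. -/
noncomputable def X (A : Set (V × V)) (η r : ℝ) : ENNReal := ∫⁻ ξ in B1, volume (Sx A η (r • ξ))

theorem mp_neg : MeasurePreserving (fun ξ : V => -ξ) volume volume :=
  Measure.measurePreserving_neg _

/-- Rotating the displacement does not change the mean. -/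
theorem mean_rot {A : Set (V × V)} (hA : MeasurableSet A) (c : ℝ) (w : List (Fin 4))
    {E : Set (V × V)} (hE : MeasurableSet E) :
    ∫⁻ ξ in B1, volume (E ∩ Sv A (c • -(L w ξ))) = ∫⁻ ξ in B1, volume (E ∩ Sv A (c • ξ)) := by
  have hg : MeasurePreserving (fun ξ : V => -(L w ξ)) volume volume := mp_neg.comp (mp_L w)
  have hpre : (fun ξ : V => -(L w ξ)) ⁻¹' B1 = B1 := by
    ext ξ; simp only [mem_preimage, B1, mem_ofPred_eq, len_neg, len_L]
  have hm : Measurable fun ξ : V => volume (E ∩ Sv A (c • ξ)) :=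
    measurable_vol_Sv hA (f := fun ξ : V => c • ξ) (by fun_prop) E hE
  have := hg.setLIntegral_comp_preimage measurableSet_B1 hm
  rw [hpre] at this
  exact this

theorem isOpen_Near (n : ℕ) (t r : ℝ) : IsOpen {p : V × V | Near n t r p.1 p.2} := by
  have : {p : V × V | Near n t r p.1 p.2}
      = ⋃ (w : List (Fin 4)) (_ : w.length ≤ n) (j : Fin 4) (k : Fin 4) (_ : j ≠ k) (s : ℝ)
        (_ : 0 ≤ s) (_ : s ≤ t) (e : V) (_ : N j ⬝ᵥ U w e = -1) (_ : N k ⬝ᵥ U w e = -1),
        {p : V × V | len (p.1 + s • p.2 - e) < r} := by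
    ext p
    simp only [Near, mem_ofPred_eq, mem_iUnion, exists_prop]
  rw [this]
  refine isOpen_iUnion fun w => isOpen_iUnion fun _ => isOpen_iUnion fun j => isOpen_iUnion fun k =>
    isOpen_iUnion fun _ => isOpen_iUnion fun s => isOpen_iUnion fun _ => isOpen_iUnion fun _ =>
    isOpen_iUnion fun e => isOpen_iUnion fun _ => isOpen_iUnion fun _ => ?_
  exact isOpen_lt (continuous_len.comp (by fun_prop)) continuous_const

theorem sum_E_le (t : ℝ) {S : Set (V × V)} (hS : MeasurableSet S) :
    ∑ w ∈ Wd t, volume (E w t ∩ S) ≤ volume S := by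
  rw [← measure_biUnion_finset]
  · exact measure_mono (iUnion₂_subset fun w _ => inter_subset_right)
  · intro w _ w' _ hww
    exact ((E_disjoint t hww).mono inter_subset_left inter_subset_left)
  · intro w _
    exact (measurableSet_E w t).inter hS

/-- Forward estimate. -/
theorem forward {A : Set (V × V)} (hA : Inv A) (hm : MeasurableSet A) {η r t : ℝ}
    (hη : Real.sqrt 3 * r ≤ η) (hr : 0 < r) (ht : 0 < t) :
    ∫⁻ ξ in B1, volume (Sx A η (r • ξ) ∩ {p | ¬ Near (nmax t) t r p.1 p.2})
      ≤ 2 * M A (t⁻¹ * r) := by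
  set c := t⁻¹ * r with hc
  have hpt : ∀ ξ ∈ B1, volume (Sx A η (r • ξ) ∩ {p | ¬ Near (nmax t) t r p.1 p.2})
      ≤ volume (Sv A (c • -ξ)) + ∑ w ∈ Wd t, volume (E w t ∩ Sv A (c • -(L w ξ))) := by
    intro ξ hξ
    have hlen : len (r • ξ) < r := by
      rw [len_smul, abs_of_pos hr]
      have : len ξ < 1 := hξ
      nlinarith
    have hcov := Sx_cover hA hη hr ht hlen
    have e1 : -(t⁻¹ • r • ξ) = c • -ξ := by rw [smul_smul, smul_neg]
    have e2 : ∀ w, -(t⁻¹ • L w (r • ξ)) = c • -(L w ξ) := by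
      intro w; rw [map_smul, smul_smul, smul_neg]
    rw [e1] at hcov
    simp only [e2] at hcov
    refine (measure_mono hcov).trans ((measure_union_le _ _).trans ?_)
    have h0 : volume (Fc t ∪ {p : V × V | p.2 = 0}) = 0 :=
      measure_union_null (Fc_null t) zero_speed_null
    rw [h0, zero_add]
    refine (measure_union_le _ _).trans (add_le_add ?_ ?_)
    · have hmp : MeasurePreserving (fun p : V × V => (p.1 + r • ξ, p.2)) volume volume :=
        (measurePreserving_add_right volume (r • ξ)).prod (MeasurePreserving.id _)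
      rw [hmp.measure_preimage (measurableSet_Sv hm _).nullMeasurableSet]
    · refine (measure_biUnion_finset_le _ _).trans (Finset.sum_le_sum fun w _ => ?_)
      rw [volume_image]
      rfl
  have hfin : ∫⁻ ξ in B1, volume (Sx A η (r • ξ) ∩ {p | ¬ Near (nmax t) t r p.1 p.2})
      ≤ ∫⁻ ξ in B1, (volume (Sv A (c • -ξ)) + ∑ w ∈ Wd t, volume (E w t ∩ Sv A (c • -(L w ξ)))) :=
    setLIntegral_mono' measurableSet_B1 hpt
  refine hfin.trans ?_
  have hm1 : Measurable fun ξ : V => volume (Sv A (c • -ξ)) := by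
    have := measurable_vol_Sv hm (f := fun ξ : V => c • -ξ) (by fun_prop) univ MeasurableSet.univ
    simpa using this
  have hm2 : ∀ w ∈ Wd t, Measurable fun ξ : V => volume (E w t ∩ Sv A (c • -(L w ξ))) := by
    intro w _
    refine measurable_vol_Sv hm (f := fun ξ : V => c • -(L w ξ)) ?_ _ (measurableSet_E w t)
    have : Continuous fun ξ : V => c • -(L w ξ) := (continuous_lin (L w)).neg.const_smul c
    exact this.measurable
  have hm3 : ∀ w ∈ Wd t, Measurable fun ξ : V => volume (E w t ∩ Sv A (c • ξ)) := by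
    intro w _
    exact measurable_vol_Sv hm (f := fun ξ : V => c • ξ) (by fun_prop) _ (measurableSet_E w t)
  rw [lintegral_add_left hm1, lintegral_finsetSum _ hm2]
  have h1 : ∫⁻ ξ in B1, volume (Sv A (c • -ξ)) = M A c := by
    have := mean_rot hm c [] (E := univ) MeasurableSet.univ
    simpa [M] using this
  have h2 : ∑ w ∈ Wd t, ∫⁻ ξ in B1, volume (E w t ∩ Sv A (c • -(L w ξ))) ≤ M A c := by
    rw [Finset.sum_congr rfl fun w _ => mean_rot hm c w (measurableSet_E w t),
      ← lintegral_finsetSum _ hm3]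
    exact lintegral_mono fun ξ => sum_E_le t (measurableSet_Sv hm _)
  rw [h1, two_mul]
  exact add_le_add le_rfl h2

/-! ### Time reversal -/

/-- Reversal of velocities. -/
def rev (p : V × V) : V × V := (p.1, -p.2)

theorem mp_rev : MeasurePreserving rev (volume : Measure (V × V)) volume :=
  (MeasurePreserving.id _).prod mp_neg

theorem emb_rev : MeasurableEmbedding rev := by
  refine Continuous.measurableEmbedding (by unfold rev; fun_prop) ?_
  rintro ⟨x, v⟩ ⟨x', v'⟩ h
  simpa [rev] using h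

theorem Inv.rev {A : Set (V × V)} (hA : Inv A) : Inv (rev ⁻¹' A) where
  flight := by
    intro x v t ht h
    simp only [mem_preimage, MP_121189_an.rev]
    have := hA.flight (x + t • v) (-v) t ht (by
      intro s h0 h1
      have := h (t - s) (by linarith) (by linarith)
      have e : x + t • v + s • -v = x + (t - s) • v := by module
      rw [e]; exact this)
    have e : x + t • v + t • -v = x := by module
    rw [e] at this
    exact this.symm
  reflect := by
    intro x v k t u ht hu hx hF hy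
    simp only [mem_preimage, MP_121189_an.rev]
    have e1 : x + t • v + u • R k v + u • -(R k v) = x + t • v := by module
    have e2 : x + t • v + t • R k (-(R k v)) = x := by
      rw [map_neg, R_R]; module
    have := hA.reflect (x + t • v + u • R k v) (-(R k v)) k u t hu ht hy (by rw [e1]; exact hF)
      (by rw [e1, e2]; exact hx)
    rw [e1, e2, map_neg, R_R] at this
    exact this.symm

theorem Dom_rev (p : V × V) : rev p ∈ Dom ↔ p ∈ Dom := by
  simp [Dom, rev, len_neg]

theorem Sv_rev (A : Set (V × V)) (u : V) : Sv (rev ⁻¹' A) u = rev ⁻¹' Sv A (-u) := by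
  ext p
  simp only [Sv, mem_ofPred_eq, mem_preimage, Dom_rev]
  have : rev (p.1, p.2 + u) = ((rev p).1, (rev p).2 + -u) := by
    simp [rev, add_comm]
  rw [this]

theorem Sx_rev (A : Set (V × V)) (η : ℝ) (h : V) : Sx (rev ⁻¹' A) η h = rev ⁻¹' Sx A η h := by
  ext p
  simp only [Sx, mem_ofPred_eq, mem_preimage]
  have : rev (p.1 + h, p.2) = ((rev p).1 + h, (rev p).2) := by simp [rev]
  rw [this]
  simp [rev, len_neg]

theorem M_rev {A : Set (V × V)} (hm : MeasurableSet A) (c : ℝ) : M (rev ⁻¹' A) c = M A c := by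
  have h1 : ∀ ξ : V, volume (Sv (rev ⁻¹' A) (c • ξ)) = volume (Sv A (c • -ξ)) := by
    intro ξ
    rw [Sv_rev, mp_rev.measure_preimage_emb emb_rev, smul_neg]
  unfold M
  simp only [h1]
  have := mean_rot hm c [] (E := univ) MeasurableSet.univ
  simpa [M] using this

/-- Backward estimate. -/
theorem backward {A : Set (V × V)} (hA : Inv A) (hm : MeasurableSet A) {η r t : ℝ}
    (hη : Real.sqrt 3 * r ≤ η) (hr : 0 < r) (ht : 0 < t) :
    ∫⁻ ξ in B1, volume (Sx A η (r • ξ) ∩ {p | ¬ Near (nmax t) t r p.1 (-p.2)})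
      ≤ 2 * M A (t⁻¹ * r) := by
  have h := forward hA.rev (hm.preimage mp_rev.measurable) hη hr ht
  rw [M_rev hm] at h
  refine le_trans (le_of_eq ?_) h
  refine lintegral_congr fun ξ => ?_
  rw [Sx_rev]
  have : rev ⁻¹' Sx A η (r • ξ) ∩ {p | ¬ Near (nmax t) t r p.1 p.2}
      = rev ⁻¹' (Sx A η (r • ξ) ∩ {p | ¬ Near (nmax t) t r p.1 (-p.2)}) := by
    ext p; simp [rev]
  rw [this, mp_rev.measure_preimage_emb emb_rev]

/-- The doubly bad set. -/
def DB (t r : ℝ) : Set (V × V) :=
  {p | p ∈ Dom ∧ Near (nmax t) t r p.1 p.2 ∧ Near (nmax t) t r p.1 (-p.2)}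

theorem measurable_vol_Sx {A : Set (V × V)} (hA : MeasurableSet A) (η : ℝ) {X : Type*}
    [MeasurableSpace X] {f : X → V} (hf : Measurable f) (E : Set (V × V)) (hE : MeasurableSet E) :
    Measurable fun ξ => volume (Sx A η (f ξ) ∩ E) := by
  have h1 : MeasurableSet {q : X × (V × V) | (∀ j, -1 + η < N j ⬝ᵥ q.2.1)} := by
    have : {q : X × (V × V) | (∀ j, -1 + η < N j ⬝ᵥ q.2.1)}
        = ⋂ j, {q : X × (V × V) | -1 + η < N j ⬝ᵥ q.2.1} := by ext; simp
    rw [this]
    refine MeasurableSet.iInter fun j => measurableSet_lt measurable_const ?_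
    exact (continuous_dot (N j)).measurable.comp (measurable_fst.comp measurable_snd)
  have h1' : MeasurableSet {q : X × (V × V) | len q.2.2 < 1} :=
    measurableSet_lt (continuous_len.measurable.comp (measurable_snd.comp measurable_snd))
      measurable_const
  have h2 : MeasurableSet {q : X × (V × V) | q.2 ∈ A} := hA.preimage measurable_snd
  have h3 : MeasurableSet {q : X × (V × V) | (q.2.1 + f q.1, q.2.2) ∈ A} := by
    refine hA.preimage ?_
    exact ((measurable_fst.comp measurable_snd).add (hf.comp measurable_fst)).prodMk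
      (measurable_snd.comp measurable_snd)
  have h4 : MeasurableSet {q : X × (V × V) | q.2 ∈ Sx A η (f q.1)} := by
    have : {q : X × (V × V) | q.2 ∈ Sx A η (f q.1)}
        = {q : X × (V × V) | (∀ j, -1 + η < N j ⬝ᵥ q.2.1)} ∩ ({q : X × (V × V) | len q.2.2 < 1} ∩
        (({q : X × (V × V) | q.2 ∈ A} ∩ {q : X × (V × V) | (q.2.1 + f q.1, q.2.2) ∈ A})
         ∪ ({q : X × (V × V) | q.2 ∈ A}ᶜ ∩ {q : X × (V × V) | (q.2.1 + f q.1, q.2.2) ∈ A}ᶜ))ᶜ) := by
      ext q
      simp only [Sx, mem_ofPred_eq, mem_inter_iff, mem_compl_iff, mem_union]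
      tauto
    rw [this]
    exact h1.inter (h1'.inter ((h2.inter h3).union (h2.compl.inter h3.compl)).compl)
  exact measurable_measure_prodMk_left (ν := (volume : Measure (V × V)))
    (h4.inter (hE.preimage (measurable_snd (α := X))))

/-- The main inequality. -/
theorem main_ineq {A : Set (V × V)} (hA : Inv A) (hm : MeasurableSet A) {η r t : ℝ}
    (hη : Real.sqrt 3 * r ≤ η) (hr : 0 < r) (ht : 0 < t) :
    X A η r ≤ 4 * M A (t⁻¹ * r) + volume (DB t r) * volume B1 := by
  have hη0 : 0 ≤ η := (mul_nonneg (Real.sqrt_nonneg _) hr.le).trans hη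
  set Gp : Set (V × V) := {p | ¬ Near (nmax t) t r p.1 p.2} with hGp
  set Gm : Set (V × V) := {p | ¬ Near (nmax t) t r p.1 (-p.2)} with hGm
  have hGpm : MeasurableSet Gp := (isOpen_Near _ _ _).measurableSet.compl
  have hGmm : MeasurableSet Gm := by
    have : Gm = rev ⁻¹' Gp := by ext p; simp [hGm, hGp, rev]
    rw [this]; exact hGpm.preimage mp_rev.measurable
  have hpt : ∀ ξ : V, volume (Sx A η (r • ξ)) ≤ volume (Sx A η (r • ξ) ∩ Gp) +
      (volume (Sx A η (r • ξ) ∩ Gm) + volume (DB t r)) := by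
    intro ξ
    have : Sx A η (r • ξ) ⊆ (Sx A η (r • ξ) ∩ Gp) ∪ ((Sx A η (r • ξ) ∩ Gm) ∪ DB t r) := by
      intro p hp
      by_cases h1 : p ∈ Gp
      · exact Or.inl ⟨hp, h1⟩
      by_cases h2 : p ∈ Gm
      · exact Or.inr (Or.inl ⟨hp, h2⟩)
      refine Or.inr (Or.inr ⟨⟨fun j => ?_, hp.2.1⟩, not_not.mp h1, not_not.mp h2⟩)
      have := hp.1 j
      linarith
    exact (measure_mono this).trans ((measure_union_le _ _).trans
      (add_le_add le_rfl (measure_union_le _ _)))
  have hf : Measurable fun ξ : V => r • ξ := by fun_prop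
  unfold X
  refine (lintegral_mono hpt).trans ?_
  rw [lintegral_add_left (measurable_vol_Sx hm η hf Gp hGpm),
    lintegral_add_left (measurable_vol_Sx hm η hf Gm hGmm), setLIntegral_const]
  have h1 := forward hA hm hη hr ht
  have h2 := backward hA hm hη hr ht
  have h3 : (4 : ENNReal) * M A (t⁻¹ * r) = 2 * M A (t⁻¹ * r) + 2 * M A (t⁻¹ * r) := by
    rw [← add_mul]; norm_num
  rw [h3, add_assoc]
  exact add_le_add h1 (add_le_add h2 le_rfl)

end Pool.Agent.Lib.MP_121189_an
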