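import Pool.Agent.Lib.MP_121189_an.H51Slab
import Pool.Agent.Lib.MP_121189_an.H51Main

set_option autoImplicit false

open MeasureTheory Set Filter Topology

namespace Pool.Agent.Lib.MP_121189_an

/-- The open tetrahedron. -/
def T0 : Set V := {x | InT x}

theorem measurableSet_T0 : MeasurableSet T0 := isOpen_InT.measurableSet

theorem volume_T0_ne_top : volume T0 ≠ ⊤ := by
  have : T0 ⊆ Metric.closedBall 0 2 := by
    intro x hx
    rw [mem_closedBall_zero_iff, pi_norm_le_iff_of_nonneg (by norm_num)]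
    intro i
    have h1 : x ⬝ᵥ x ≤ 3 := InT.len_le hx
    rw [dot_eq] at h1
    rw [Real.norm_eq_abs, abs_le]
    have h0 := sq_nonneg (x 0)
    have h1' := sq_nonneg (x 1)
    have h2' := sq_nonneg (x 2)
    fin_cases i <;> simp only [Fin.zero_eta, Fin.mk_one, Fin.reduceFinMk] <;> constructor <;>
      nlinarith
  exact ((measure_mono this).trans_lt (isCompact_closedBall (0 : V) 2).measure_lt_top).ne

/-- Integrability of the inverse distance to a line. -/
theorem Line.integrable_inv (ℓ : Line) :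
    ∫⁻ x in T0, ENNReal.ofReal (48 / len (ℓ.b x)) ≠ ⊤ := by
  set μ := (volume : Measure V).restrict T0 with hμ
  have hmeas : Measurable fun x : V => 48 / len (ℓ.b x) :=
    measurable_const.div (continuous_len.comp ℓ.continuous_b).measurable
  rw [lintegral_eq_lintegral_meas_lt μ
    (Eventually.of_forall fun x => div_nonneg (by norm_num) (len_nonneg _)) hmeas.aemeasurable]
  -- bound of the level sets
  have hlev : ∀ t : ℝ, 0 < t → μ {x | t < 48 / len (ℓ.b x)} ≤ ENNReal.ofReal (5 * (48 / t) ^ 2) := by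
    intro t ht
    rw [hμ, Measure.restrict_apply (measurableSet_lt measurable_const hmeas)]
    refine le_trans (measure_mono ?_) (ℓ.tube (K := 48 / t) (by positivity))
    rintro x ⟨h1, h2⟩
    have h3 : t < 48 / len (ℓ.b x) := h1
    have hpos : 0 < len (ℓ.b x) := by
      rcases (len_nonneg (ℓ.b x)).eq_or_lt with h | h
      · rw [← h, div_zero] at h3; linarith
      · exact h
    have h4 : len (ℓ.b x) ≤ 48 / t := by
      rw [lt_div_iff₀ hpos] at h3
      rw [le_div_iff₀ ht]; linarith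
    exact ⟨h2, (ℓ.al_le x).1.trans h4, (ℓ.al_le x).2.trans h4⟩
  have hsplit : Ioi (0 : ℝ) = Ioc 0 1 ∪ Ioi 1 := (Ioc_union_Ioi_eq_Ioi zero_le_one).symm
  rw [hsplit]
  refine ne_top_of_le_ne_top ?_ (lintegral_union_le _ _ _)
  refine ENNReal.add_ne_top.mpr ⟨?_, ?_⟩
  · refine ne_top_of_le_ne_top ?_ (setLIntegral_mono (g := fun _ => volume T0)
      measurable_const fun t _ => ?_)
    · rw [setLIntegral_const]
      exact ENNReal.mul_ne_top volume_T0_ne_top (by simp)
    · rw [hμ]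
      exact (measure_mono (subset_univ _)).trans (by simp)
  · have hint : IntegrableOn (fun t : ℝ => 5 * 48 ^ 2 * t ^ (-2 : ℝ)) (Ioi 1) volume :=
      (integrableOn_Ioi_rpow_of_lt (by norm_num) zero_lt_one).const_mul _
    have hfin := hint.lintegral_lt_top
    refine ne_top_of_le_ne_top hfin.ne (setLIntegral_mono ?_ fun t ht => ?_)
    · fun_prop
    · have ht' : (1 : ℝ) < t := ht
      have ht0 : (0 : ℝ) < t := by linarith
      refine (hlev t ht0).trans (ENNReal.ofReal_le_ofReal (le_of_eq ?_))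
      rw [Real.rpow_neg ht0.le, Real.rpow_two]
      field_simp

theorem dot_plane_null (a : V) (ha : a ≠ 0) (c : ℝ) : volume {x : V | a ⬝ᵥ x = c} = 0 := by
  let s : AffineSubspace ℝ V :=
    { carrier := {x : V | a ⬝ᵥ x = c}
      smul_vsub_vadd_mem' := by
        intro m p q r hp hq hr
        simp only [mem_ofPred_eq, vsub_eq_sub, vadd_eq_add] at *
        rw [dotProduct_add, dotProduct_smul, dotProduct_sub, hp, hq, hr]
        simp }
  have hs : s ≠ ⊤ := by
    intro h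
    have h1 : (0 : V) ∈ s := by rw [h]; trivial
    have h2 : (a : V) ∈ s := by rw [h]; trivial
    have h1' : a ⬝ᵥ (0 : V) = c := h1
    have h2' : a ⬝ᵥ a = c := h2
    rw [dotProduct_zero] at h1'
    rw [← h1'] at h2'
    exact ha (dot_self_eq_zero h2')
  exact Measure.addHaar_affineSubspace volume s hs

/-- A line is contained in a plane. -/
theorem Line.null_set (ℓ : Line) : volume ℓ.set = 0 := by
  have hn : ℓ.n ≠ 0 := by
    intro h
    have := ℓ.hn
    rw [h] at this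
    simp at this
  refine measure_mono_null (fun x hx => ?_) (dot_plane_null ℓ.n hn ℓ.c)
  have := hx.1
  simp only [Line.al] at this
  exact sub_eq_zero.mp this

/-- Two different lines: almost every point sees them in different planes. -/
theorem Line.ae_cr (ℓ ℓ' : Line) {e : V} (he : e ∈ ℓ.set) (h : ∃ e', e' ∈ ℓ'.set ∧ e' ∉ ℓ.set) :
    ∀ᵐ x : V, cr (ℓ.b x) (ℓ'.b x) ≠ 0 := by
  obtain ⟨e3, h3, h3n⟩ := h
  set p : V := cr ℓ.n ℓ.n' with hp
  have hpp : p ⬝ᵥ p = 8 := by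
    rw [hp, cr_dot_cr, ℓ.hn, ℓ.hn', dotProduct_comm ℓ.n' ℓ.n, ℓ.hnn]; norm_num
  have hp0 : p ≠ 0 := by
    intro h; rw [h] at hpp; simp at hpp
  have he2 : e + p ∈ ℓ.set := by
    constructor
    · rw [ℓ.al_add, he.1, dotProduct_comm, hp, cr_dot_left]; ring
    · rw [ℓ.al'_add, he.2, dotProduct_comm, hp, cr_dot_right]; ring
  set q : V := e3 - e with hq
  set ν : V := cr p q with hν
  have hν0 : ν ≠ 0 := by
    intro h0
    apply h3n
    have key : ∀ a : V, a ⬝ᵥ p = 0 → a ⬝ᵥ q = 0 := by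
      intro a ha
      have := cr_dot_cr p a p q
      rw [← hν, h0, dotProduct_zero, ha, hpp] at this
      linarith
    have k1 := key ℓ.n (by rw [dotProduct_comm, hp, cr_dot_left])
    have k2 := key ℓ.n' (by rw [dotProduct_comm, hp, cr_dot_right])
    have e1 : e3 = e + q := by rw [hq]; abel
    rw [e1]
    exact ⟨by rw [ℓ.al_add, he.1, k1]; ring, by rw [ℓ.al'_add, he.2, k2]; ring⟩
  have hnull : volume ({x : V | ν ⬝ᵥ x = ν ⬝ᵥ e} ∪ (ℓ.set ∪ ℓ'.set)) = 0 :=
    measure_union_null (dot_plane_null ν hν0 _) (measure_union_null ℓ.null_set ℓ'.null_set)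
  have hae : ∀ᵐ x : V, x ∉ ({x : V | ν ⬝ᵥ x = ν ⬝ᵥ e} ∪ (ℓ.set ∪ ℓ'.set)) :=
    measure_eq_zero_iff_ae_notMem.mp hnull
  filter_upwards [hae] with x hx hcr
  apply hx
  by_cases hb : x ∈ ℓ.set
  · exact Or.inr (Or.inl hb)
  by_cases hb' : x ∈ ℓ'.set
  · exact Or.inr (Or.inr hb')
  left
  set β := ℓ.b x with hβ
  set β' := ℓ'.b x with hβ'
  have hβ0 : β ≠ 0 := fun h => hb (ℓ.b_eq_zero.mp h)
  have hβ'0 : β' ≠ 0 := fun h => hb' (ℓ'.b_eq_zero.mp h)
  have o1 := ℓ.b_orth x he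
  have o2 := ℓ.b_orth x he2
  have o3' := ℓ'.b_orth x h3
  rw [← hβ] at o1 o2
  rw [← hβ'] at o3'
  have o3 : β ⬝ᵥ (e3 - x) = 0 := by
    have h1 := cr_dot_cr β β' β' (e3 - x)
    rw [hcr, zero_dotProduct, o3'] at h1
    have h2 : β' ⬝ᵥ β' ≠ 0 := fun h => hβ'0 (dot_self_eq_zero h)
    have h3 : (β ⬝ᵥ (e3 - x)) * (β' ⬝ᵥ β') = 0 := by linarith
    exact (mul_eq_zero.mp h3).resolve_right h2
  have op : β ⬝ᵥ p = 0 := by
    have : p = (e + p - x) - (e - x) := by abel
    rw [this, dotProduct_sub, o1, o2, sub_zero]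
  have oq : β ⬝ᵥ q = 0 := by
    have : q = (e3 - x) - (e - x) := by rw [hq]; abel
    rw [this, dotProduct_sub, o1, o3, sub_zero]
  have hcr2 : cr β ν = 0 := by
    rw [hν, cr_cr, op, oq, zero_smul, zero_smul, sub_zero]
  have h5 := cr_dot_cr β ν β (e - x)
  rw [hcr2, zero_dotProduct, o1] at h5
  have h6 : β ⬝ᵥ β ≠ 0 := fun h => hβ0 (dot_self_eq_zero h)
  have h7 : (β ⬝ᵥ β) * (ν ⬝ᵥ (e - x)) = 0 := by linarith
  have h8 := (mul_eq_zero.mp h7).resolve_left h6
  rw [dotProduct_sub] at h8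
  simp only [mem_ofPred_eq]
  linarith

/-- Passing near `ℓ` forward and near `ℓ'` backward. -/
def DBL (ℓ ℓ' : Line) (t r : ℝ) : Set (V × V) :=
  {p | p ∈ Dom ∧ (∃ s, 0 ≤ s ∧ s ≤ t ∧ ∃ e ∈ ℓ.set, len (p.1 + s • p.2 - e) < r) ∧
    (∃ s, 0 ≤ s ∧ s ≤ t ∧ ∃ e ∈ ℓ'.set, len (p.1 + s • -p.2 - e) < r)}

theorem DBL_same (ℓ ℓ' : Line) (t : ℝ) (h : ℓ'.set ⊆ ℓ.set) :
    Tendsto (fun r => volume (DBL ℓ ℓ' t r) / ENNReal.ofReal r) (𝓝[>] 0) (𝓝 0) := by
  have hbound : ∀ r : ℝ, 0 < r → volume (DBL ℓ ℓ' t r) / ENNReal.ofReal r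
      ≤ ENNReal.ofReal (20 * r) * volume B1 := by
    intro r hr
    have hsub : DBL ℓ ℓ' t r ⊆ {x : V | InT x ∧ |ℓ.al x| ≤ 2 * r ∧ |ℓ.al' x| ≤ 2 * r} ×ˢ B1 := by
      rintro ⟨x, v⟩ ⟨⟨h1, h2⟩, ⟨s, hs0, hst, e, he, hle⟩, ⟨s', hs0', hst', e', he', hle'⟩⟩
      simp only at h1 h2 hle hle'
      have a1 := ℓ.near_al he hle
      have a2 := ℓ.near_al (h he') hle'
      have hs3 : Real.sqrt 3 * r ≤ 2 * r := by
        have : Real.sqrt 3 ≤ 2 := by rw [Real.sqrt_le_iff]; norm_num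
        nlinarith
      have conv : ∀ {a m : ℝ}, |a + s * m| ≤ 2 * r → |a + s' * (-m)| ≤ 2 * r → |a| ≤ 2 * r := by
        intro a m h3 h4
        rw [abs_le] at h3 h4 ⊢
        rcases le_total 0 m with hm | hm
        · have := mul_nonneg hs0 hm
          have := mul_nonneg hs0' hm
          constructor <;> linarith
        · have := mul_nonneg hs0 (neg_nonneg.mpr hm)
          have := mul_nonneg hs0' (neg_nonneg.mpr hm)
          constructor <;> linarith
      refine ⟨⟨h1, ?_, ?_⟩, h2⟩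
      · have b1 := a1.1.trans hs3
        have b2 := a2.1.trans hs3
        rw [ℓ.al_add, dotProduct_smul, smul_eq_mul] at b1 b2
        rw [dotProduct_neg] at b2
        exact conv b1 b2
      · have b1 := a1.2.trans hs3
        have b2 := a2.2.trans hs3
        rw [ℓ.al'_add, dotProduct_smul, smul_eq_mul] at b1 b2
        rw [dotProduct_neg] at b2
        exact conv b1 b2
    have h1 : volume (DBL ℓ ℓ' t r) ≤ ENNReal.ofReal (5 * (2 * r) ^ 2) * volume B1 := by
      refine (measure_mono hsub).trans ?_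
      rw [Measure.volume_eq_prod, Measure.prod_prod]
      exact mul_le_mul_left (ℓ.tube (by positivity)) _
    rw [ENNReal.div_le_iff (by simpa using hr) ENNReal.ofReal_ne_top]
    refine h1.trans (le_of_eq ?_)
    rw [mul_right_comm, ← ENNReal.ofReal_mul (by positivity)]
    congr 2
    ring
  have hlim : Tendsto (fun r : ℝ => ENNReal.ofReal (20 * r) * volume B1) (𝓝[>] 0) (𝓝 0) := by
    have h1 : Tendsto (fun r : ℝ => ENNReal.ofReal (20 * r)) (𝓝[>] 0) (𝓝 0) := by
      have : Tendsto (fun r : ℝ => ENNReal.ofReal (20 * r)) (𝓝 0) (𝓝 (ENNReal.ofReal (20 * 0))) :=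
        (ENNReal.continuous_ofReal.comp (by fun_prop : Continuous fun r : ℝ => 20 * r)).tendsto 0
      rw [mul_zero, ENNReal.ofReal_zero] at this
      exact this.mono_left nhdsWithin_le_nhds
    have := ENNReal.Tendsto.mul_const h1 (b := volume B1) (Or.inr volume_B1_ne_top)
    rwa [zero_mul] at this
  refine tendsto_of_tendsto_of_tendsto_of_le_of_le' tendsto_const_nhds hlim
    (Eventually.of_forall fun _ => zero_le) ?_
  filter_upwards [self_mem_nhdsWithin] with r hr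
  exact hbound r hr

theorem DBL_diff (ℓ ℓ' : Line) (t : ℝ) (h : ∃ e', e' ∈ ℓ'.set ∧ e' ∉ ℓ.set) :
    Tendsto (fun r => volume (DBL ℓ ℓ' t r) / ENNReal.ofReal r) (𝓝[>] 0) (𝓝 0) := by
  by_cases hne : ∃ e, e ∈ ℓ.set
  swap
  · have : ∀ r, DBL ℓ ℓ' t r = ∅ := by
      intro r
      rw [eq_empty_iff_forall_notMem]
      rintro p ⟨-, ⟨s, -, -, e, he, -⟩, -⟩
      exact hne ⟨e, he⟩
    simp only [this, measure_empty, ENNReal.zero_div]
    exact tendsto_const_nhds
  obtain ⟨e, he⟩ := hne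
  set μ := (volume : Measure V).restrict T0 with hμ
  -- the slab sets
  let S : ℝ → Set (V × V) := fun r =>
    {p | len p.2 < 1 ∧ |ℓ.b p.1 ⬝ᵥ p.2| ≤ 6 * r ∧ |ℓ'.b p.1 ⬝ᵥ p.2| ≤ 6 * r}
  have hdotc : Continuous fun p : V × V => ℓ.b p.1 ⬝ᵥ p.2 := by
    simp only [dotProduct]
    have := ℓ.continuous_b
    fun_prop
  have hdotc' : Continuous fun p : V × V => ℓ'.b p.1 ⬝ᵥ p.2 := by
    simp only [dotProduct]
    have := ℓ'.continuous_b
    fun_prop
  have hSm : ∀ r, MeasurableSet (S r) := by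
    intro r
    refine (measurableSet_lt (continuous_len.comp continuous_snd).measurable
      measurable_const).inter (MeasurableSet.inter ?_ ?_)
    · exact measurableSet_le hdotc.abs.measurable measurable_const
    · exact measurableSet_le hdotc'.abs.measurable measurable_const
  let F : ℝ → V → ENNReal := fun r x => volume (Prod.mk x ⁻¹' S r) / ENNReal.ofReal r
  have hFm : ∀ r, Measurable (F r) := fun r => (measurable_measure_prodMk_left (hSm r)).div_const _
  have hF1 : ∀ r : ℝ, 0 < r → ∀ x, x ∉ ℓ.set → F r x ≤ ENNReal.ofReal (48 / len (ℓ.b x)) := by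
    intro r hr x hx
    have hb0 : ℓ.b x ≠ 0 := fun h => hx (ℓ.b_eq_zero.mp h)
    simp only [F]
    rw [ENNReal.div_le_iff (by simpa using hr) ENNReal.ofReal_ne_top,
      ← ENNReal.ofReal_mul (div_nonneg (by norm_num) (len_nonneg _))]
    refine (measure_mono ?_).trans ((slab1 (ℓ.b x) hb0 (K := 6 * r) (by positivity)).trans
      (le_of_eq ?_))
    · rintro v ⟨h1, h2, h3⟩
      exact ⟨h1, h2⟩
    · congr 1
      ring
  have hF2 : ∀ r : ℝ, 0 < r → ∀ x, cr (ℓ.b x) (ℓ'.b x) ≠ 0 →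
      F r x ≤ ENNReal.ofReal (288 * r / len (cr (ℓ.b x) (ℓ'.b x))) := by
    intro r hr x hx
    simp only [F]
    rw [ENNReal.div_le_iff (by simpa using hr) ENNReal.ofReal_ne_top,
      ← ENNReal.ofReal_mul (div_nonneg (by positivity) (len_nonneg _))]
    refine (measure_mono ?_).trans ((slab2 (ℓ.b x) (ℓ'.b x) hx (K := 6 * r) (by positivity)).trans
      (le_of_eq ?_))
    · rintro v ⟨h1, h2, h3⟩
      exact ⟨h1, h2, h3⟩
    · congr 1
      ring
  have hae : ∀ᵐ x ∂μ, cr (ℓ.b x) (ℓ'.b x) ≠ 0 := ae_restrict_of_ae (ℓ.ae_cr ℓ' he h)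
  have hae2 : ∀ᵐ x ∂μ, x ∉ ℓ.set :=
    ae_restrict_of_ae (measure_eq_zero_iff_ae_notMem.mp ℓ.null_set)
  have hpos : ∀ᶠ r : ℝ in 𝓝[>] 0, 0 < r := self_mem_nhdsWithin
  have hlim := tendsto_lintegral_filter_of_dominated_convergence (μ := μ) (l := 𝓝[>] (0 : ℝ))
    (F := F) (f := fun _ => 0) (fun x => ENNReal.ofReal (48 / len (ℓ.b x)))
    (Eventually.of_forall hFm)
    (by
      filter_upwards [hpos] with r hr
      filter_upwards [hae2] with x hx using hF1 r hr x hx)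
    ℓ.integrable_inv
    (by
      filter_upwards [hae] with x hx
      have hlim2 : Tendsto (fun r : ℝ => ENNReal.ofReal (288 * r / len (cr (ℓ.b x) (ℓ'.b x))))
          (𝓝[>] 0) (𝓝 0) := by
        have h1 : Tendsto (fun r : ℝ => ENNReal.ofReal (288 * r / len (cr (ℓ.b x) (ℓ'.b x))))
            (𝓝 0) (𝓝 (ENNReal.ofReal (288 * 0 / len (cr (ℓ.b x) (ℓ'.b x))))) :=
          (ENNReal.continuous_ofReal.comp
            (by fun_prop : Continuous fun r : ℝ => 288 * r / len (cr (ℓ.b x) (ℓ'.b x)))).tendsto 0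
        rw [mul_zero, zero_div, ENNReal.ofReal_zero] at h1
        exact h1.mono_left nhdsWithin_le_nhds
      refine tendsto_of_tendsto_of_tendsto_of_le_of_le' tendsto_const_nhds hlim2
        (Eventually.of_forall fun _ => zero_le) ?_
      filter_upwards [hpos] with r hr using hF2 r hr x hx)
  rw [lintegral_zero] at hlim
  refine tendsto_of_tendsto_of_tendsto_of_le_of_le' tendsto_const_nhds hlim
    (Eventually.of_forall fun _ => zero_le) ?_
  filter_upwards [hpos] with r hr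
  have hsub : DBL ℓ ℓ' t r ⊆ S r ∩ (T0 ×ˢ univ) := by
    rintro ⟨x, v⟩ ⟨⟨h1, h2⟩, ⟨s, hs0, hst, e, he, hle⟩, ⟨s', hs0', hst', e', he', hle'⟩⟩
    simp only at h1 h2 hle hle'
    refine ⟨⟨h2, ℓ.near_slab h2 he hle, ?_⟩, h1, trivial⟩
    have h3 := ℓ'.near_slab (v := -v) (by rw [len_neg]; exact h2) he' hle'
    rw [dotProduct_neg, abs_neg] at h3
    exact h3
  have hmeas : MeasurableSet (S r ∩ (T0 ×ˢ univ)) :=
    (hSm r).inter (measurableSet_T0.prod MeasurableSet.univ)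
  have h1 : volume (DBL ℓ ℓ' t r) ≤ ∫⁻ x, volume (Prod.mk x ⁻¹' S r) ∂μ := by
    refine (measure_mono hsub).trans ?_
    rw [Measure.volume_eq_prod, Measure.prod_apply hmeas, hμ,
      ← lintegral_indicator measurableSet_T0]
    refine lintegral_mono fun x => ?_
    by_cases hx : x ∈ T0
    · rw [indicator_of_mem hx]
      exact measure_mono (preimage_mono inter_subset_left)
    · rw [indicator_of_notMem hx]
      have : Prod.mk x ⁻¹' (S r ∩ T0 ×ˢ univ) = ∅ := by
        ext v; simp [hx]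
      rw [this, measure_empty]
  simp only [F]
  have hr0 : ENNReal.ofReal r ≠ 0 := by simpa using hr
  rw [show (fun x => volume (Prod.mk x ⁻¹' S r) / ENNReal.ofReal r)
    = fun x => volume (Prod.mk x ⁻¹' S r) * (ENNReal.ofReal r)⁻¹ from rfl,
    lintegral_mul_const _ (measurable_measure_prodMk_left (hSm r)), ← div_eq_mul_inv]
  exact ENNReal.div_le_div_right h1 _

theorem DBL_tendsto (ℓ ℓ' : Line) (t : ℝ) :
    Tendsto (fun r => volume (DBL ℓ ℓ' t r) / ENNReal.ofReal r) (𝓝[>] 0) (𝓝 0) := by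
  by_cases h : ℓ'.set ⊆ ℓ.set
  · exact DBL_same ℓ ℓ' t h
  · exact DBL_diff ℓ ℓ' t (not_subset.mp h)

/-! ### The unfolded edge lines -/

/-- Transpose of `L w`. -/
noncomputable def Lt : List (Fin 4) → V →ₗ[ℝ] V
  | [] => LinearMap.id
  | k :: w => Lt w ∘ₗ R k

theorem Lt_dot (w : List (Fin 4)) : ∀ a v : V, Lt w a ⬝ᵥ v = a ⬝ᵥ L w v := by
  induction w with
  | nil => intro a v; rfl
  | cons k w ih =>
    intro a v
    rw [L_cons, ← R_dot, ← ih]; rfl

theorem Lt_dot_Lt (w : List (Fin 4)) : ∀ a b : V, Lt w a ⬝ᵥ Lt w b = a ⬝ᵥ b := by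
  induction w with
  | nil => intro a v; rfl
  | cons k w ih =>
    intro a b
    have h : ∀ c, Lt (k :: w) c = Lt w (R k c) := fun c => rfl
    rw [h, h, ih, R_dot_R]

/-- The unfolded edge line between the faces `j ≠ k` of the tetrahedron `w`. -/
noncomputable def edge (w : List (Fin 4)) (j k : Fin 4) (h : j ≠ k) : Line where
  n := Lt w (N j)
  n' := Lt w (N k)
  c := -1 - N j ⬝ᵥ U w 0
  c' := -1 - N k ⬝ᵥ U w 0
  hn := by rw [Lt_dot_Lt, N_dot_self]
  hn' := by rw [Lt_dot_Lt, N_dot_self]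
  hnn := by rw [Lt_dot_Lt, N_dot_ne h]

theorem mem_edge {w : List (Fin 4)} {j k : Fin 4} {h : j ≠ k} {e : V}
    (h1 : N j ⬝ᵥ U w e = -1) (h2 : N k ⬝ᵥ U w e = -1) : e ∈ (edge w j k h).set := by
  have hU : U w e = U w 0 + L w e := by rw [← U_add, zero_add]
  rw [hU, dotProduct_add] at h1 h2
  constructor
  · simp only [Line.al, edge]; rw [Lt_dot]; linarith
  · simp only [Line.al', edge]; rw [Lt_dot]; linarith

theorem DB_tendsto (t : ℝ) :
    Tendsto (fun r => volume (DB t r) / ENNReal.ofReal r) (𝓝[>] 0) (𝓝 0) := by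
  classical
  let Wl : Finset (List (Fin 4)) := (List.finite_length_le (Fin 4) (nmax t)).toFinset
  let I : Finset ((List (Fin 4) × {q : Fin 4 × Fin 4 // q.1 ≠ q.2}) ×
      (List (Fin 4) × {q : Fin 4 × Fin 4 // q.1 ≠ q.2})) :=
    (Wl ×ˢ Finset.univ) ×ˢ (Wl ×ˢ Finset.univ)
  let ed : (List (Fin 4) × {q : Fin 4 × Fin 4 // q.1 ≠ q.2}) → Line :=
    fun i => edge i.1 i.2.1.1 i.2.1.2 i.2.2
  have hsub : ∀ r, DB t r ⊆ ⋃ i ∈ I, DBL (ed i.1) (ed i.2) t r := by
    rintro r ⟨x, v⟩ ⟨hD, ⟨w, hw, j, k, hjk, s, hs0, hst, e, he1, he2, hle⟩,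
      ⟨w', hw', j', k', hjk', s', hs0', hst', e', he1', he2', hle'⟩⟩
    simp only [mem_iUnion, exists_prop]
    refine ⟨((w, ⟨(j, k), hjk⟩), (w', ⟨(j', k'), hjk'⟩)), ?_, hD,
      ⟨s, hs0, hst, e, mem_edge he1 he2, hle⟩, ⟨s', hs0', hst', e', mem_edge he1' he2', hle'⟩⟩
    simp only [I, Finset.mem_product, Finset.mem_univ, and_true, Wl, Finite.mem_toFinset,
      mem_ofPred_eq]
    exact ⟨hw, hw'⟩
  have hle : ∀ r, volume (DB t r) / ENNReal.ofReal r
      ≤ ∑ i ∈ I, volume (DBL (ed i.1) (ed i.2) t r) / ENNReal.ofReal r := by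
    intro r
    simp only [div_eq_mul_inv]
    rw [← Finset.sum_mul]
    exact mul_le_mul_left ((measure_mono (hsub r)).trans (measure_biUnion_finset_le _ _)) _
  have hlim : Tendsto (fun r => ∑ i ∈ I, volume (DBL (ed i.1) (ed i.2) t r) / ENNReal.ofReal r)
      (𝓝[>] 0) (𝓝 (∑ i ∈ I, 0)) := tendsto_finsetSum _ fun i _ => DBL_tendsto _ _ t
  rw [Finset.sum_const_zero] at hlim
  exact tendsto_of_tendsto_of_tendsto_of_le_of_le tendsto_const_nhds hlim
    (fun _ => zero_le) hle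

end Pool.Agent.Lib.MP_121189_an
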