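import Pool.Agent.Lib.MP_121189_an.H51Orbit

set_option autoImplicit false

open MeasureTheory Set Filter Topology

namespace Pool.Agent.Lib.MP_121189_an

theorem vol_ball (p : V) {r : ℝ} (hr : 0 ≤ r) :
    volume (Metric.closedBall p r) = ENNReal.ofReal ((2 * r) ^ 3) := by
  have := Real.volume_pi_closedBall p hr
  simpa using this

theorem norm_le_len (v : V) : ‖v‖ ≤ len v := by
  rw [pi_norm_le_iff_of_nonneg (len_nonneg _)]
  intro i
  have h1 := len_sq v
  rw [dot_eq] at h1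
  have h2 := len_nonneg v
  have h0 := sq_nonneg (v 0)
  have h1' := sq_nonneg (v 1)
  have h2' := sq_nonneg (v 2)
  rw [Real.norm_eq_abs]
  apply abs_le_of_sq_le_sq _ h2
  fin_cases i <;> simp only [Fin.zero_eta, Fin.mk_one, Fin.reduceFinMk] <;> nlinarith

theorem len_le_norm (v : V) : len v ≤ Real.sqrt 3 * ‖v‖ := by
  apply Real.sqrt_le_iff.mpr
  refine ⟨by positivity, ?_⟩
  rw [mul_pow, Real.sq_sqrt (by norm_num), dot_eq]
  have h : ∀ i, v i * v i ≤ ‖v‖ ^ 2 := by
    intro i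
    have h1 := norm_le_pi_norm v i
    rw [Real.norm_eq_abs] at h1
    have h2 := abs_nonneg (v i)
    have h3 := abs_mul_abs_self (v i)
    nlinarith
  have h0 := h 0
  have h1 := h 1
  have h2 := h 2
  linarith

/-- Existence of points of density. -/
theorem exists_density {S : Set V} (hS : MeasurableSet S) (h0 : volume S ≠ 0) {ε : ℝ}
    (hε : 0 < ε) (hε1 : ε < 1) :
    ∃ p : V, p ≠ 0 ∧ ∃ ρ₀ > 0, ∀ ρ, 0 < ρ → ρ < ρ₀ →
      ENNReal.ofReal ((1 - ε) * (2 * ρ) ^ 3) ≤ volume (S ∩ Metric.closedBall p ρ) := by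
  have h1 := Besicovitch.ae_tendsto_measure_inter_div (volume : Measure V) S
  have h2 : ∀ᵐ p ∂(volume : Measure V).restrict S, p ≠ 0 := by
    refine ae_restrict_of_ae ?_
    rw [ae_iff]
    simp
  have h3 : (ae ((volume : Measure V).restrict S)).NeBot := by
    rw [ae_neBot, Ne, Measure.restrict_eq_zero]
    exact h0
  obtain ⟨p, hp1, hp2⟩ := (h1.and h2).exists
  refine ⟨p, hp2, ?_⟩
  have h4 : ∀ᶠ r in 𝓝[>] (0 : ℝ), ENNReal.ofReal (1 - ε)
      < volume (S ∩ Metric.closedBall p r) / volume (Metric.closedBall p r) := by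
    refine hp1.eventually (lt_mem_nhds ?_)
    rw [← ENNReal.ofReal_one]
    exact (ENNReal.ofReal_lt_ofReal_iff one_pos).mpr (by linarith)
  rw [eventually_nhdsWithin_iff, Metric.eventually_nhds_iff] at h4
  obtain ⟨ρ₀, hρ₀, h5⟩ := h4
  refine ⟨ρ₀, hρ₀, fun ρ hρ hρ' => ?_⟩
  have h6 := (h5 (y := ρ) (by rw [Real.dist_eq, sub_zero, abs_of_pos hρ]; exact hρ') hρ).le
  rw [vol_ball p hρ.le] at h6
  have h7 : ENNReal.ofReal ((2 * ρ) ^ 3) ≠ 0 := by
    rw [Ne, ENNReal.ofReal_eq_zero, not_le]; positivity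
  rw [ENNReal.le_div_iff_mul_le (Or.inl h7) (Or.inl ENNReal.ofReal_ne_top),
    ← ENNReal.ofReal_mul (by linarith)] at h6
  exact h6

theorem ae_word {S : Set V} (hR : ∀ k : Fin 4, ∀ᵐ v : V, (v ∈ S ↔ R k v ∈ S))
    (w : List (Fin 4)) : ∀ᵐ v : V, (v ∈ S ↔ L w v ∈ S) := by
  induction w with
  | nil => exact Eventually.of_forall fun v => Iff.rfl
  | cons k w ih =>
    have h1 := (mp_L w).quasiMeasurePreserving.ae (hR k)
    filter_upwards [ih, h1] with v a b
    rw [L_cons, a, b]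

/-- A measurable cone invariant under the four reflections is null or conull. -/
theorem erg {S : Set V} (hS : MeasurableSet S)
    (hs : ∀ c : ℝ, 0 < c → ∀ v : V, (v ∈ S ↔ c • v ∈ S))
    (hR : ∀ k : Fin 4, ∀ᵐ v : V, (v ∈ S ↔ R k v ∈ S)) :
    volume S = 0 ∨ volume Sᶜ = 0 := by
  by_contra hcon
  push Not at hcon
  obtain ⟨h1, h2⟩ := hcon
  set ε : ℝ := 1 / 100 with hε
  obtain ⟨p, hp0, ρ₁, hρ₁, hp⟩ := exists_density hS h1 (ε := ε) (by norm_num [hε]) (by norm_num [hε])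
  obtain ⟨q, hq0, ρ₂, hρ₂, hq⟩ := exists_density hS.compl h2 (ε := ε) (by norm_num [hε])
    (by norm_num [hε])
  have hlp := len_pos hp0
  have hlq := len_pos hq0
  set s : ℝ := len q / len p with hsdef
  have hspos : 0 < s := div_pos hlq hlp
  -- a common scale
  obtain ⟨ρ, hρ, hρ1, hρ2⟩ : ∃ ρ : ℝ, 0 < ρ ∧ ρ / 2 < ρ₁ ∧ 2 * s * ρ < ρ₂ := by
    refine ⟨min ρ₁ (ρ₂ / (4 * s)), lt_min hρ₁ (by positivity), ?_, ?_⟩
    · have := min_le_left ρ₁ (ρ₂ / (4 * s))
      have h0 : 0 < min ρ₁ (ρ₂ / (4 * s)) := lt_min hρ₁ (by positivity)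
      linarith
    · have := min_le_right ρ₁ (ρ₂ / (4 * s))
      calc 2 * s * min ρ₁ (ρ₂ / (4 * s)) ≤ 2 * s * (ρ₂ / (4 * s)) :=
            mul_le_mul_of_nonneg_left this (by positivity)
        _ = ρ₂ / 2 := by field_simp; ring
        _ < ρ₂ := by linarith
  -- the word
  have hlen : len p = len (s⁻¹ • q) := by
    rw [len_smul, abs_of_pos (inv_pos.mpr hspos), hsdef]
    field_simp
  obtain ⟨w, hw⟩ := Cl_all hlen ρ hρ
  have hae := ae_word hR w
  -- inclusion
  have hsub : volume (S ∩ Metric.closedBall p (ρ / 2)) ≤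
      volume (L w ⁻¹' ((fun u : V => s • u) ⁻¹' (S ∩ Metric.closedBall q (2 * s * ρ)))) := by
    refine measure_mono_ae ?_
    filter_upwards [hae] with u hu
    intro hu2
    obtain ⟨hu3, hu4⟩ : u ∈ S ∧ u ∈ Metric.closedBall p (ρ / 2) := hu2
    have g1 : L w u ∈ S := hu.mp hu3
    refine ⟨(hs s hspos _).mp g1, ?_⟩
    rw [mem_closedBall_iff_norm] at hu4 ⊢
    have g2 : s • L w u - q = s • (L w (u - p) + (L w p - s⁻¹ • q)) := by
      rw [map_sub, smul_add, smul_sub, smul_sub, smul_smul, mul_inv_cancel₀ hspos.ne', one_smul]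
      abel
    refine (norm_le_len _).trans ?_
    rw [g2, len_smul, abs_of_pos hspos]
    have g3 : len (L w (u - p) + (L w p - s⁻¹ • q)) ≤ 2 * ρ := by
      refine (len_add_le _ _).trans ?_
      rw [len_L]
      have g4 := len_le_norm (u - p)
      have g5 : Real.sqrt 3 ≤ 2 := by
        rw [Real.sqrt_le_left (by norm_num)]; norm_num
      have g6 : Real.sqrt 3 * ‖u - p‖ ≤ 2 * (ρ / 2) :=
        mul_le_mul g5 hu4 (norm_nonneg _) (by norm_num)
      linarith
    nlinarith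
  rw [(mp_L w).measure_preimage] at hsub
  swap
  · refine MeasurableSet.nullMeasurableSet ?_
    exact (hS.inter Metric.isClosed_closedBall.measurableSet).preimage (measurable_const_smul s)
  rw [Measure.addHaar_preimage_smul volume hspos.ne'] at hsub
  have hfr : Module.finrank ℝ V = 3 := by simp [V]
  rw [hfr] at hsub
  have hlow := hp (ρ / 2) (by linarith) hρ1
  -- upper bound for the measure near q
  have hup : volume (S ∩ Metric.closedBall q (2 * s * ρ)) ≤
      ENNReal.ofReal (ε * (2 * (2 * s * ρ)) ^ 3) := by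
    have h3 := hq (2 * s * ρ) (by positivity) hρ2
    have h4 : volume (S ∩ Metric.closedBall q (2 * s * ρ)) +
        volume (Sᶜ ∩ Metric.closedBall q (2 * s * ρ)) = volume (Metric.closedBall q (2 * s * ρ)) := by
      rw [inter_comm S, inter_comm Sᶜ, ← diff_eq]
      exact measure_inter_add_diff _ hS
    rw [vol_ball q (by positivity)] at h4
    have h5 : volume (S ∩ Metric.closedBall q (2 * s * ρ)) +
        ENNReal.ofReal ((1 - ε) * (2 * (2 * s * ρ)) ^ 3) ≤
        ENNReal.ofReal (ε * (2 * (2 * s * ρ)) ^ 3) +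
          ENNReal.ofReal ((1 - ε) * (2 * (2 * s * ρ)) ^ 3) := by
      rw [← ENNReal.ofReal_add (by rw [hε]; positivity)
        (mul_nonneg (by rw [hε]; norm_num) (by positivity))]
      have : ε * (2 * (2 * s * ρ)) ^ 3 + (1 - ε) * (2 * (2 * s * ρ)) ^ 3
          = (2 * (2 * s * ρ)) ^ 3 := by ring
      rw [this, ← h4]
      exact add_le_add le_rfl h3
    exact (ENNReal.add_le_add_iff_right ENNReal.ofReal_ne_top).mp h5
  have hfin := hlow.trans (hsub.trans (mul_le_mul_right hup _))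
  rw [← ENNReal.ofReal_mul (abs_nonneg _), ENNReal.ofReal_le_ofReal_iff (by
    refine mul_nonneg (abs_nonneg _) (mul_nonneg (by rw [hε]; norm_num) (by positivity)))] at hfin
  rw [abs_of_pos (by positivity)] at hfin
  have : (s ^ 3)⁻¹ * (ε * (2 * (2 * s * ρ)) ^ 3) = 64 * ε * ρ ^ 3 := by
    field_simp
    ring
  rw [this, hε] at hfin
  have h9 : 0 < ρ ^ 3 := by positivity
  have : (1 - 1 / 100 : ℝ) * (2 * (ρ / 2)) ^ 3 = 99 / 100 * ρ ^ 3 := by ring
  rw [this] at hfin
  linarith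

end Pool.Agent.Lib.MP_121189_an
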