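import Pool.Agent.Lib.MP_121189_an.H51Slice

set_option autoImplicit false

open MeasureTheory Set Filter Topology

namespace Pool.Agent.Lib.MP_121189_an

/-- The velocity slice at `v` is null or conull in the tetrahedron. -/
def Q (A : Set (V × V)) (v : V) : Prop :=
  (∀ᵐ x ∂(volume : Measure V).restrict T0, (x, v) ∈ A) ∨
  (∀ᵐ x ∂(volume : Measure V).restrict T0, (x, v) ∉ A)

theorem volume_T0_ne_zero : (volume : Measure V) T0 ≠ 0 :=
  (isOpen_InT.measure_pos volume ⟨0, fun j => by rw [dotProduct_zero]; norm_num⟩).ne'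

theorem ae_swap {p : V × V → Prop} (h : ∀ᵐ z : V × V, p z) : ∀ᵐ v : V, ∀ᵐ x : V, p (x, v) := by
  have h1 : ∀ᵐ z ∂(volume : Measure V).prod (volume : Measure V), p z.swap :=
    (Measure.measurePreserving_swap (μ := (volume : Measure V))
      (ν := (volume : Measure V))).quasiMeasurePreserving.ae h
  exact Measure.ae_ae_of_ae_prod h1

theorem ae_Q {A : Set (V × V)} (hm : MeasurableSet A)
    (hsh : ∀ H : V, ∀ᵐ p : V × V, InT p.1 → InT (p.1 + H) → len p.2 < 1 →
      (p ∈ A ↔ (p.1 + H, p.2) ∈ A)) :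
    ∀ᵐ v : V, len v < 1 → Q A v := by
  have hmeas : MeasurableSet {z : V × (V × V) | InT z.2.1 → InT (z.2.1 + z.1) → len z.2.2 < 1 →
      (z.2 ∈ A ↔ (z.2.1 + z.1, z.2.2) ∈ A)} := by
    have h1 : MeasurableSet {z : V × (V × V) | InT z.2.1} :=
      measurableSet_T0.preimage (measurable_fst.comp measurable_snd)
    have h2 : MeasurableSet {z : V × (V × V) | InT (z.2.1 + z.1)} :=
      measurableSet_T0.preimage ((measurable_fst.comp measurable_snd).add measurable_fst)
    have h3 : MeasurableSet {z : V × (V × V) | len z.2.2 < 1} :=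
      measurableSet_lt (continuous_len.measurable.comp (measurable_snd.comp measurable_snd))
        measurable_const
    have h4 : MeasurableSet {z : V × (V × V) | z.2 ∈ A} := hm.preimage measurable_snd
    have h5 : MeasurableSet {z : V × (V × V) | (z.2.1 + z.1, z.2.2) ∈ A} := by
      refine hm.preimage ?_
      exact ((measurable_fst.comp measurable_snd).add measurable_fst).prodMk
        (measurable_snd.comp measurable_snd)
    have : {z : V × (V × V) | InT z.2.1 → InT (z.2.1 + z.1) → len z.2.2 < 1 →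
      (z.2 ∈ A ↔ (z.2.1 + z.1, z.2.2) ∈ A)} = {z : V × (V × V) | InT z.2.1}ᶜ ∪
        ({z : V × (V × V) | InT (z.2.1 + z.1)}ᶜ ∪ ({z : V × (V × V) | len z.2.2 < 1}ᶜ ∪
        (({z : V × (V × V) | z.2 ∈ A} ∩ {z : V × (V × V) | (z.2.1 + z.1, z.2.2) ∈ A}) ∪
        ({z : V × (V × V) | z.2 ∈ A}ᶜ ∩ {z : V × (V × V) | (z.2.1 + z.1, z.2.2) ∈ A}ᶜ)))) := by
      ext z
      simp only [mem_ofPred_eq, mem_union, mem_compl_iff, mem_inter_iff]
      tauto
    rw [this]
    exact h1.compl.union (h2.compl.union (h3.compl.union ((h4.inter h5).union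
      (h4.compl.inter h5.compl))))
  have h1 : ∀ᵐ p : V × V, ∀ᵐ H : V, InT p.1 → InT (p.1 + H) → len p.2 < 1 →
      (p ∈ A ↔ (p.1 + H, p.2) ∈ A) :=
    (Measure.ae_ae_comm (μ := (volume : Measure V)) (ν := (volume : Measure (V × V)))
      (p := fun H p => InT p.1 → InT (p.1 + H) → len p.2 < 1 →
      (p ∈ A ↔ (p.1 + H, p.2) ∈ A)) hmeas).mp (Eventually.of_forall hsh)
  filter_upwards [ae_swap h1] with v hv hlen
  have h2 : ∀ᵐ x ∂(volume : Measure V).restrict T0, ∀ᵐ H : V, InT x → InT (x + H) → len v < 1 →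
      ((x, v) ∈ A ↔ (x + H, v) ∈ A) := ae_restrict_of_ae hv
  have h3 : (ae ((volume : Measure V).restrict T0)).NeBot := by
    rw [ae_neBot, Ne, Measure.restrict_eq_zero]
    exact volume_T0_ne_zero
  obtain ⟨x, hx, hxT⟩ := (h2.and (ae_restrict_mem measurableSet_T0)).exists
  have hxT' : InT x := hxT
  have h4 : ∀ᵐ y : V, InT x → InT (x + (y - x)) → len v < 1 →
      ((x, v) ∈ A ↔ (x + (y - x), v) ∈ A) :=
    (measurePreserving_sub_right (volume : Measure V) x).quasiMeasurePreserving.ae hx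
  have h5 : ∀ᵐ y ∂(volume : Measure V).restrict T0, ((x, v) ∈ A ↔ (y, v) ∈ A) := by
    rw [ae_restrict_iff' measurableSet_T0]
    filter_upwards [h4] with y hy hyT
    have hyT' : InT y := hyT
    rw [add_sub_cancel] at hy
    exact hy hxT' hyT' hlen
  by_cases hxA : (x, v) ∈ A
  · left
    filter_upwards [h5] with y hy using hy.mp hxA
  · right
    filter_upwards [h5] with y hy using fun h => hxA (hy.mpr h)

theorem Q_smul {A : Set (V × V)}
    (hs : ∀ x v : V, ∀ c : ℝ, 0 < c → ((x, v) ∈ A ↔ (x, c • v) ∈ A)) {c : ℝ} (hc : 0 < c) (v : V) :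
    Q A v ↔ Q A (c • v) := by
  have h : ∀ x, ((x, v) ∈ A) = ((x, c • v) ∈ A) := fun x => propext (hs x v c hc)
  simp only [Q, h]

theorem ae_Q_all {A : Set (V × V)}
    (hs : ∀ x v : V, ∀ c : ℝ, 0 < c → ((x, v) ∈ A ↔ (x, c • v) ∈ A))
    (h : ∀ᵐ v : V, len v < 1 → Q A v) : ∀ᵐ v : V, Q A v := by
  have h1 : ∀ n : ℕ, ∀ᵐ v : V, len (((n : ℝ) + 1)⁻¹ • v) < 1 → Q A (((n : ℝ) + 1)⁻¹ • v) := by
    intro n
    have hne : ((n : ℝ) + 1)⁻¹ ≠ 0 := by positivity
    have := Measure.quasiMeasurePreserving_smul (volume : Measure V) hne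
    exact this.ae h
  filter_upwards [ae_all_iff.mpr h1] with v hv
  obtain ⟨n, hn⟩ := exists_nat_gt (len v)
  have hpos : 0 < ((n : ℝ) + 1)⁻¹ := by positivity
  have h2 := hv n (by
    rw [len_smul, abs_of_pos hpos, inv_mul_lt_iff₀ (by positivity)]; linarith)
  exact (Q_smul hs hpos v).mpr h2

/-- The velocities whose slice is not null. -/
def Av (A : Set (V × V)) : Set V := {v | ¬ (∀ᵐ x ∂(volume : Measure V).restrict T0, (x, v) ∉ A)}

theorem measurableSet_Av {A : Set (V × V)} (hm : MeasurableSet A) : MeasurableSet (Av A) := by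
  have h1 : MeasurableSet {z : V × V | (z.2, z.1) ∈ A} := hm.preimage measurable_swap
  have h2 := measurable_measure_prodMk_left (ν := (volume : Measure V).restrict T0) h1
  have : Av A = {v : V | (volume : Measure V).restrict T0 (Prod.mk v ⁻¹' {z : V × V | (z.2, z.1) ∈ A}) = 0}ᶜ := by
    ext v
    simp only [Av, mem_ofPred_eq, mem_compl_iff, ae_iff, not_not]
    rfl
  rw [this]
  exact (h2 (measurableSet_singleton 0)).compl

theorem fol_one {k : Fin 4} {v : V} (hv : N k ⬝ᵥ v < 0) :
    ∃ s : ℝ, ∃ x : V, Fol [k] s x v := by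
  obtain ⟨p0, e1, e2⟩ : ∃ p0 : V, N k ⬝ᵥ p0 = -1 ∧ ∀ j, j ≠ k → N j ⬝ᵥ p0 = 1 / 3 := by
    refine ⟨(-(1 / 3 : ℝ)) • N k, ?_, ?_⟩
    · rw [dotProduct_smul, N_dot_self, smul_eq_mul]; norm_num
    · intro j hj
      rw [dotProduct_smul, N_dot_ne hj, smul_eq_mul]; norm_num
  obtain ⟨ε, hε, h1⟩ : ∃ ε : ℝ, 0 < ε ∧ ε * (4 * (Real.sqrt 3 * len v)) < 1 := by
    refine ⟨1 / (4 * (Real.sqrt 3 * len v) + 1), ?_, ?_⟩
    · have := mul_nonneg (Real.sqrt_nonneg 3) (len_nonneg v)
      positivity
    · have := mul_nonneg (Real.sqrt_nonneg 3) (len_nonneg v)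
      rw [one_div, inv_mul_lt_iff₀ (by positivity)]
      linarith
  have hb : ∀ j, |N j ⬝ᵥ v| * ε < 1 / 4 := by
    intro j
    have := mul_le_mul_of_nonneg_right (N_dot_le j v) hε.le
    linarith
  have hb' : ∀ j, |N j ⬝ᵥ R k v| * ε < 1 / 4 := by
    intro j
    have h2 := N_dot_le j (R k v)
    have h3 : len (R k v) = len v := len_L [k] v
    rw [h3] at h2
    have := mul_le_mul_of_nonneg_right h2 hε.le
    linarith
  refine ⟨2 * ε, p0 - ε • v, 0, ε, ⟨le_rfl, ?_, ?_⟩, hε, by linarith, ?_, ?_⟩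
  · intro j
    rw [dotProduct_sub, dotProduct_smul, smul_eq_mul]
    by_cases hj : j = k
    · subst hj; rw [e1]; nlinarith
    · rw [e2 j hj]
      have h2 := hb j
      have h3 := le_abs_self (N j ⬝ᵥ v)
      nlinarith
  · rw [zero_smul, add_zero]
    intro j
    rw [dotProduct_sub, dotProduct_smul, smul_eq_mul]
    by_cases hj : j = k
    · subst hj; rw [e1]; nlinarith
    · rw [e2 j hj]
      have h2 := hb j
      have h3 := le_abs_self (N j ⬝ᵥ v)
      nlinarith
  · rw [U_nil, sub_add_cancel]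
    exact ⟨e1, fun j hj => by rw [e2 j hj]; norm_num⟩
  · have e3 : p0 - ε • v + (2 * ε) • v = p0 + ε • v := by module
    rw [e3, U_cons, U_nil, ρ_add, ρ_fix e1]
    intro j
    rw [dotProduct_add, map_smul, dotProduct_smul, smul_eq_mul]
    by_cases hj : j = k
    · subst hj; rw [e1, N_dot_R_self]; nlinarith
    · rw [e2 j hj]
      have h2 := hb' j
      have h3 := neg_abs_le (N j ⬝ᵥ R k v)
      nlinarith

theorem Av_step {A : Set (V × V)} (hA : Inv A) {k : Fin 4} {v : V} (hv : N k ⬝ᵥ v < 0)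
    (h1 : Q A v) (h2 : Q A (R k v)) : v ∈ Av A ↔ R k v ∈ Av A := by
  obtain ⟨s, x0, hx0⟩ := fol_one hv
  set O : Set V := {x | Fol [k] s x v} with hO
  have hOo : IsOpen O := (isOpen_Fol [k] s).preimage (f := fun x : V => (x, v)) (by fun_prop)
  have hOpos : volume O ≠ 0 := (hOo.measure_pos volume ⟨x0, hx0⟩).ne'
  have hne : (ae ((volume : Measure V).restrict O)).NeBot := by
    rw [ae_neBot, Ne, Measure.restrict_eq_zero]
    exact hOpos
  have hOT : O ⊆ T0 := fun x hx => Fol.start hx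
  -- pull back of almost everywhere statements along the flow
  have hmp : MeasurePreserving (fun x : V => U [k] (x + s • v)) volume volume :=
    (mp_U [k]).comp (measurePreserving_add_right volume (s • v))
  have pull : ∀ P : V → Prop, (∀ᵐ y ∂(volume : Measure V).restrict T0, P y) →
      ∀ᵐ x ∂(volume : Measure V).restrict O, P (U [k] (x + s • v)) := by
    intro P hP
    rw [ae_restrict_iff' measurableSet_T0] at hP
    rw [ae_restrict_iff' hOo.measurableSet]
    filter_upwards [hmp.quasiMeasurePreserving.ae hP] with x hx hxO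
    exact hx (Fol.inT hxO)
  have push : ∀ P : V → Prop, (∀ᵐ y ∂(volume : Measure V).restrict T0, P y) →
      ∀ᵐ x ∂(volume : Measure V).restrict O, P x := fun P hP =>
    ae_restrict_of_ae_restrict_of_subset hOT hP
  have hmem := ae_restrict_mem (μ := (volume : Measure V)) hOo.measurableSet
  constructor
  · intro hvA hcon
    have h3 : ∀ᵐ x ∂(volume : Measure V).restrict T0, (x, v) ∈ A := by
      rcases h1 with h | h
      · exact h
      · exact absurd h hvA
    obtain ⟨x, a, b, c⟩ := ((push _ h3).and ((pull _ hcon).and hmem)).exists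
    have := Fol.inv hA (show Fol [k] s x v from c)
    exact b (this.mp a)
  · intro hvA hcon
    have h3 : ∀ᵐ x ∂(volume : Measure V).restrict T0, (x, R k v) ∈ A := by
      rcases h2 with h | h
      · exact h
      · exact absurd h hvA
    obtain ⟨x, a, b, c⟩ := ((push _ hcon).and ((pull _ h3).and hmem)).exists
    have := Fol.inv hA (show Fol [k] s x v from c)
    exact a (this.mpr b)

/-- Main theorem: an invariant set whose mean velocity variation is finite along a sequence of
scales is trivial. -/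
theorem final {A : Set (V × V)} (hA : Inv A) (hm : MeasurableSet A)
    (hs : ∀ x v : V, ∀ c : ℝ, 0 < c → ((x, v) ∈ A ↔ (x, c • v) ∈ A))
    {C : ENNReal} (hC : C ≠ ⊤)
    (hV : ∃ᶠ c in 𝓝[>] (0 : ℝ), M A c ≤ C * ENNReal.ofReal c) :
    volume (A ∩ {z : V × V | InT z.1}) = 0 ∨ volume ({z : V × V | InT z.1} \ A) = 0 := by
  have hQ : ∀ᵐ v : V, Q A v := ae_Q_all hs (ae_Q hm (ae_shift hA hm hC hV))
  have hR : ∀ k : Fin 4, ∀ᵐ v : V, (v ∈ Av A ↔ R k v ∈ Av A) := by
    intro k
    filter_upwards [hQ, (mp_R k).quasiMeasurePreserving.ae hQ] with v h1 h2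
    rcases lt_trichotomy (N k ⬝ᵥ v) 0 with h | h | h
    · exact Av_step hA h h1 h2
    · have : R k v = v := by rw [R_apply, h]; simp
      rw [this]
    · have h3 : N k ⬝ᵥ R k v < 0 := by rw [N_dot_R_self]; linarith
      have := Av_step hA h3 h2 (by rw [R_R]; exact h1)
      rw [R_R] at this
      exact this.symm
  have hsc : ∀ c : ℝ, 0 < c → ∀ v : V, (v ∈ Av A ↔ c • v ∈ Av A) := by
    intro c hc v
    have h : ∀ x, ((x, v) ∉ A) = ((x, c • v) ∉ A) := fun x => by
      rw [propext (hs x v c hc)]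
    simp only [Av, mem_ofPred_eq, h]
  have hmT : MeasurableSet {z : V × V | InT z.1} := measurableSet_T0.preimage measurable_fst
  -- back to phase space
  have back : ∀ S : Set (V × V), MeasurableSet S →
      (∀ᵐ v : V, ∀ᵐ x ∂(volume : Measure V).restrict T0, (x, v) ∉ S) →
      volume ({z : V × V | InT z.1} ∩ S) = 0 := by
    intro S hS h
    have h1 : ∀ᵐ v : V, ∀ᵐ x : V, (x, v) ∉ {z : V × V | InT z.1} ∩ S := by
      filter_upwards [h] with v hv
      rw [ae_restrict_iff' measurableSet_T0] at hv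
      filter_upwards [hv] with x hx h2
      exact hx h2.1 h2.2
    have h2 := (Measure.ae_ae_comm (μ := (volume : Measure V)) (ν := (volume : Measure V))
      (p := fun x v => (x, v) ∉ {z : V × V | InT z.1} ∩ S) (hmT.inter hS).compl).mpr h1
    rw [Measure.volume_eq_prod, Measure.measure_prod_null (hmT.inter hS)]
    filter_upwards [h2] with x hx
    exact measure_eq_zero_iff_ae_notMem.mpr hx
  rcases erg (measurableSet_Av hm) hsc hR with h | h
  · left
    rw [inter_comm]
    refine back A hm ?_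
    filter_upwards [measure_eq_zero_iff_ae_notMem.mp h] with v hv
    simpa [Av] using hv
  · right
    rw [sdiff_eq]
    refine back Aᶜ hm.compl ?_
    filter_upwards [hQ, measure_eq_zero_iff_ae_notMem.mp h] with v h1 hv
    have hv' : v ∈ Av A := by simpa using hv
    rcases h1 with h2 | h2
    · filter_upwards [h2] with x hx using by simpa using hx
    · exact absurd h2 hv'

end Pool.Agent.Lib.MP_121189_an
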