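import Pool.Agent.Lib.MP_121189_an.H51Count

set_option autoImplicit false

namespace Pool.Agent.Lib.MP_121189_an

/-- Invariance of a subset of phase space under free flight and specular reflection. -/
structure Inv (A : Set (V × V)) : Prop where
  flight : ∀ x v : V, ∀ t : ℝ, 0 ≤ t → (∀ s, 0 ≤ s → s ≤ t → InT (x + s • v)) →
    ((x, v) ∈ A ↔ (x + t • v, v) ∈ A)
  reflect : ∀ x v : V, ∀ k : Fin 4, ∀ t u : ℝ, 0 < t → 0 < u → InT x → OnF k (x + t • v) →
    InT (x + t • v + u • R k v) → ((x, v) ∈ A ↔ (x + t • v + u • R k v, R k v) ∈ A)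

theorem InT.segment {x v : V} {t s : ℝ} (h0 : InT x) (h1 : InT (x + t • v)) (hs : 0 ≤ s)
    (hst : s ≤ t) : InT (x + s • v) := by
  rcases hst.eq_or_lt with h | h
  · rw [h]; exact h1
  · intro j
    have a := h0 j
    have b := h1 j
    rw [dotProduct_add, dotProduct_smul, smul_eq_mul] at b ⊢
    exact seg_lt (s := 0) (by simpa using a) b.le hs h

theorem Fol.inv {A : Set (V × V)} (hA : Inv A) {w : List (Fin 4)} : ∀ {t : ℝ} {x v : V},
    Fol w t x v → ((x, v) ∈ A ↔ (U w (x + t • v), L w v) ∈ A) := by
  induction w with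
  | nil =>
    intro t x v h
    exact hA.flight x v t h.1 fun s h0 h1 => h.2.1.segment h.2.2 h0 h1
  | cons k w ih =>
    rintro t x v ⟨s, τ, h1, h2, h3, h4, h5⟩
    rw [ih h1]
    have e1 : U w (x + τ • v) = U w (x + s • v) + (τ - s) • L w v := by
      rw [U_time, U_time w x v s]; module
    have e2 : U (k :: w) (x + t • v)
        = U w (x + s • v) + (τ - s) • L w v + (t - τ) • R k (L w v) := by
      have e3 : U (k :: w) (x + τ • v) = U w (x + τ • v) := ρ_fix h4.1
      rw [← e1, ← e3, U_time, U_time (k :: w) x v τ, L_cons]; module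
    rw [e2] at h5 ⊢
    rw [e1] at h4
    exact hA.reflect _ _ k (τ - s) (t - τ) (by linarith) (by linarith) h1.inT h4 h5

/-- Some unfolded edge line of generation at most `n` comes within `r` of the segment
`[x, x + t v]`. -/
def Near (n : ℕ) (t r : ℝ) (x v : V) : Prop :=
  ∃ w : List (Fin 4), w.length ≤ n ∧ ∃ j k : Fin 4, j ≠ k ∧ ∃ s, 0 ≤ s ∧ s ≤ t ∧ ∃ e : V,
    N j ⬝ᵥ U w e = -1 ∧ N k ⬝ᵥ U w e = -1 ∧ len (x + s • v - e) < r

theorem len_zero : len 0 = 0 := by simp [len]

theorem not_near_edge {n : ℕ} {t r : ℝ} {x v : V} (hr : 0 < r) (h : ¬ Near n t r x v)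
    {w : List (Fin 4)} (hw : w.length ≤ n) {j k : Fin 4} (hjk : j ≠ k) {s : ℝ} (hs : 0 ≤ s)
    (hst : s ≤ t) (h1 : N j ⬝ᵥ U w (x + s • v) = -1) (h2 : N k ⬝ᵥ U w (x + s • v) = -1) :
    False :=
  h ⟨w, hw, j, k, hjk, s, hs, hst, x + s • v, h1, h2, by rw [sub_self, len_zero]; exact hr⟩

/-- After leaving a face the trajectory is in the interior for a short time. -/
theorem exists_after {k : Fin 4} {w : List (Fin 4)} {x v : V} {τ t : ℝ} (hτ : τ < t)
    (hF : OnF k (U w (x + τ • v))) (hneg : N k ⬝ᵥ L w v < 0) :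
    ∃ s, τ < s ∧ s < t ∧ InT (U (k :: w) (x + s • v)) := by
  have hc : ∀ j : Fin 4, ∀ᶠ s in nhdsWithin τ (Set.Ioi τ), -1 < N j ⬝ᵥ U (k :: w) (x + s • v) := by
    intro j
    by_cases hj : j = k
    · subst hj
      filter_upwards [self_mem_nhdsWithin] with s hs
      have e1 : N j ⬝ᵥ U (j :: w) (x + τ • v) = -1 := by
        rw [U_cons, ρ_fix hF.1]; exact hF.1
      rw [N_U_time] at e1 ⊢
      rw [L_cons, N_dot_R_self] at e1 ⊢
      have hs' : τ < s := hs
      nlinarith
    · have hcont : Continuous fun s : ℝ => N j ⬝ᵥ U (k :: w) (x + s • v) := by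
        have : (fun s : ℝ => N j ⬝ᵥ U (k :: w) (x + s • v))
            = fun s => N j ⬝ᵥ U (k :: w) x + s * (N j ⬝ᵥ L (k :: w) v) := by
          funext s; exact N_U_time _ _ _ _ _
        rw [this]; fun_prop
      have e1 : -1 < N j ⬝ᵥ U (k :: w) (x + τ • v) := by
        rw [U_cons, ρ_fix hF.1]; exact hF.2 j hj
      exact (hcont.continuousAt.eventually (lt_mem_nhds e1)).filter_mono nhdsWithin_le_nhds
  have hall : ∀ᶠ s in nhdsWithin τ (Set.Ioi τ), ∀ j, -1 < N j ⬝ᵥ U (k :: w) (x + s • v) :=
    Filter.eventually_all.mpr hc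
  have hlt : ∀ᶠ s in nhdsWithin τ (Set.Ioi τ), s < t :=
    (gt_mem_nhds hτ).filter_mono nhdsWithin_le_nhds
  have hgt : ∀ᶠ s in nhdsWithin τ (Set.Ioi τ), τ < s := self_mem_nhdsWithin
  obtain ⟨s, h1, h2, h3⟩ := (hall.and (hlt.and hgt)).exists
  exact ⟨s, h3, h2, h1⟩

/-- Every non-singular initial condition follows some list of bounces up to time `t`. -/
theorem exists_fol {x v : V} {t r : ℝ} (hx : InT x) (hv : v ≠ 0) (hv1 : len v ≤ 1) (ht : 0 < t)
    (hr : 0 < r) (hn : ¬ Near (nmax t) t r x v)
    (hface : ∀ w : List (Fin 4), w.length ≤ nmax t → ∀ j, N j ⬝ᵥ U w (x + t • v) ≠ -1) :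
    ∃ w : List (Fin 4), w.length < nmax t ∧ Fol w t x v := by
  by_contra hcon
  push Not at hcon
  have claim : ∀ m : ℕ, m ≤ nmax t → ∃ w : List (Fin 4), w.length = m ∧ ∃ s, s < t ∧ Fol w s x v := by
    intro m
    induction m with
    | zero =>
      intro _
      exact ⟨[], rfl, 0, ht, le_rfl, hx, by simpa using hx⟩
    | succ m ih =>
      intro hm
      obtain ⟨w, hwm, s, hst, hf⟩ := ih (by omega)
      have hwn : w.length ≤ nmax t := by omega
      have hnot : ¬ InT (U w (x + t • v)) := fun hin =>
        hcon w (by omega) (hf.extend hst.le hin)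
      -- faces violated at time t
      let bad : Finset (Fin 4) := Finset.univ.filter fun j => N j ⬝ᵥ U w (x + t • v) < -1
      have hbad : bad.Nonempty := by
        rw [InT] at hnot
        push Not at hnot
        obtain ⟨j, hj⟩ := hnot
        exact ⟨j, by simp only [bad, Finset.mem_filter, Finset.mem_univ, true_and];
                     exact lt_of_le_of_ne hj (hface w hwn j)⟩
      -- crossing times
      let T : Fin 4 → ℝ := fun j => (-1 - N j ⬝ᵥ U w x) / (N j ⬝ᵥ L w v)
      have hslope : ∀ j ∈ bad, N j ⬝ᵥ L w v < 0 := by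
        intro j hj
        simp only [bad, Finset.mem_filter, Finset.mem_univ, true_and] at hj
        have a := hf.inT j
        rw [N_U_time] at a hj
        by_contra hc
        push Not at hc
        nlinarith
      have hTeq : ∀ j ∈ bad, N j ⬝ᵥ U w (x + T j • v) = -1 := by
        intro j hj
        rw [N_U_time]
        have := (hslope j hj).ne
        simp only [T]
        field_simp
        ring
      have hTlt : ∀ j ∈ bad, s < T j ∧ T j < t := by
        intro j hj
        have h1 := hslope j hj
        have h2 := hTeq j hj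
        have h3 := hf.inT j
        have h4 : N j ⬝ᵥ U w (x + t • v) < -1 := by
          simp only [bad, Finset.mem_filter, Finset.mem_univ, true_and] at hj
          exact hj
        rw [N_U_time] at h2 h3 h4
        constructor
        · by_contra hc
          push Not at hc
          nlinarith
        · by_contra hc
          push Not at hc
          nlinarith
      obtain ⟨k, hk, hmin⟩ := bad.exists_min_image T hbad
      have hs0 := hf.nonneg
      have hOn : OnF k (U w (x + T k • v)) := by
        refine ⟨hTeq k hk, fun j hj => ?_⟩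
        by_cases hjb : j ∈ bad
        · have h1 := hmin j hjb
          have h2 := hTeq j hjb
          have h3 := hslope j hjb
          rcases h1.eq_or_lt with h | h
          · exfalso
            exact not_near_edge hr hn hwn hj (hs0.trans (hTlt k hk).1.le) (hTlt k hk).2.le
              (by rw [h]; exact h2) (hTeq k hk)
          · rw [N_U_time] at h2 ⊢
            nlinarith
        · have h1 : -1 < N j ⬝ᵥ U w (x + t • v) := by
            simp only [bad, Finset.mem_filter, Finset.mem_univ, true_and, not_lt] at hjb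
            exact lt_of_le_of_ne hjb (hface w hwn j).symm
          have h2 := hf.inT j
          rw [N_U_time] at h1 h2 ⊢
          exact seg_lt h2 h1.le (hTlt k hk).1.le (hTlt k hk).2
      obtain ⟨s', h1, h2, h3⟩ := exists_after (hTlt k hk).2 hOn (hslope k hk)
      exact ⟨k :: w, by simp [hwm], s', h2, s, T k, hf, (hTlt k hk).1, h1, hOn, h3⟩
  obtain ⟨w, hw, s, hst, hf⟩ := claim (nmax t) le_rfl
  have := hf.length_lt hv hv1 hst.le
  omega

/-- Euclidean length of a scalar multiple. -/
theorem len_smul (c : ℝ) (v : V) : len (c • v) = |c| * len v := by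
  rw [len, len, smul_dotProduct, dotProduct_smul, smul_eq_mul, smul_eq_mul, ← mul_assoc,
    Real.sqrt_mul (mul_self_nonneg c), Real.sqrt_mul_self_eq_abs]

theorem len_neg (v : V) : len (-v) = len v := by
  rw [len, len, neg_dotProduct, dotProduct_neg, neg_neg]

/-- The trajectory of `(x + h, v - h / t)` follows the same bounces as that of `(x, v)`,
provided no unfolded edge is within `r > |h|` of the segment `[x, x + t v]`. -/
theorem Fol.shadow {n : ℕ} {t r : ℝ} {x v h : V} (hx' : InT (x + h)) (ht : 0 < t)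
    (hh : len h < r) (hn : ¬ Near n t r x v) {w : List (Fin 4)} :
    ∀ {s : ℝ}, w.length ≤ n → Fol w s x v → s ≤ t →
      ∃ s', s' ≤ t ∧ Fol w s' (x + h) (v - t⁻¹ • h) := by
  have htn : t ≠ 0 := ht.ne'
  have hQ : x + h + t • (v - t⁻¹ • h) = x + t • v := by
    rw [smul_sub, smul_smul, mul_inv_cancel₀ htn]; module
  have hpos : ∀ s : ℝ, x + h + s • (v - t⁻¹ • h) = x + s • v + ((t - s) * t⁻¹) • h := by
    intro s
    have : (t - s) * t⁻¹ = 1 - s * t⁻¹ := by field_simp
    rw [this]; module
  induction w with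
  | nil =>
    intro s _ _ _
    exact ⟨0, ht.le, le_rfl, hx', by simpa using hx'⟩
  | cons k w ih =>
    intro s hwn hf hs
    have hneg := hf.slope_neg
    obtain ⟨s1, τ, h1, h2, h3, h4, h5⟩ := hf
    have hwn' : w.length ≤ n := by simp only [List.length_cons] at hwn; omega
    obtain ⟨s', hs't, hf'⟩ := ih hwn' h1 ((h2.trans h3).le.trans hs)
    set v' := v - t⁻¹ • h with hv'
    have hs1 := h1.nonneg
    have hs'0 := hf'.nonneg
    -- values at the common end point
    have hq : N k ⬝ᵥ U w (x + t • v) < -1 := by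
      have a := h4.1
      rw [N_U_time] at a ⊢
      nlinarith
    have hs'lt : s' < t := by
      rcases hs't.eq_or_lt with h | h
      · exfalso
        have := hf'.inT k
        rw [h, hQ] at this
        linarith
      · exact h
    have hin' := hf'.inT k
    have hneg' : N k ⬝ᵥ L w v' < 0 := by
      have a := hq
      rw [← hQ, N_U_time] at a
      rw [N_U_time] at hin'
      by_contra hc
      push Not at hc
      nlinarith
    set τ' := (-1 - N k ⬝ᵥ U w (x + h)) / (N k ⬝ᵥ L w v') with hτ'
    have hτ'eq : N k ⬝ᵥ U w (x + h + τ' • v') = -1 := by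
      rw [N_U_time, hτ']
      have := hneg'.ne
      field_simp
      ring
    have hs'τ : s' < τ' := by
      rw [N_U_time] at hτ'eq hin'
      by_contra hc
      push Not at hc
      nlinarith
    have hτ't : τ' < t := by
      have a := hq
      rw [← hQ, N_U_time] at a
      rw [N_U_time] at hτ'eq
      by_contra hc
      push Not at hc
      nlinarith
    by_cases hOn : ∀ j, j ≠ k → -1 < N j ⬝ᵥ U w (x + h + τ' • v')
    · have hOnF : OnF k (U w (x + h + τ' • v')) := ⟨hτ'eq, hOn⟩
      obtain ⟨s'', g1, g2, g3⟩ := exists_after hτ't hOnF hneg'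
      exact ⟨s'', g2.le, s', τ', hf', hs'τ, g1, hOnF, g3⟩
    · exfalso
      push Not at hOn
      obtain ⟨j, hjk, hj⟩ := hOn
      have hp := h4.2 j hjk
      -- interpolation parameter
      set a := N j ⬝ᵥ U w (x + τ • v) with ha
      set b := N j ⬝ᵥ U w (x + h + τ' • v') with hb
      have hab : 0 < a - b := by linarith
      set l := (a + 1) / (a - b) with hl
      have hl0 : 0 ≤ l := div_nonneg (by linarith) hab.le
      have hl1 : l ≤ 1 := by rw [hl, div_le_one hab]; linarith
      have htau0 : 0 ≤ τ := hs1.trans h2.le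
      have htau't : 0 ≤ τ' := hs'0.trans hs'τ.le
      have hτt : τ < t := h3.trans_le hs
      let e : V := (1 - l) • (x + τ • v) + l • (x + h + τ' • v')
      have hUe : ∀ i : Fin 4, N i ⬝ᵥ U w e
          = (1 - l) * (N i ⬝ᵥ U w (x + τ • v)) + l * (N i ⬝ᵥ U w (x + h + τ' • v')) := by
        intro i
        have hz : ∀ y : V, U w y = U w 0 + L w y := fun y => by
          rw [← U_add, zero_add]
        rw [hz e, hz (x + τ • v), hz (x + h + τ' • v')]
        simp only [e, map_add, map_smul, dotProduct_add, dotProduct_smul, smul_eq_mul]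
        ring
      refine hn ⟨w, hwn', j, k, hjk, (1 - l) * τ + l * τ', ?_, ?_, e, ?_, ?_, ?_⟩
      · have := mul_nonneg hl0 htau't
        have := mul_nonneg (show 0 ≤ 1 - l by linarith) htau0
        linarith
      · nlinarith
      · rw [hUe j, ← ha, ← hb, hl]
        field_simp
        ring
      · rw [hUe k, h4.1, hτ'eq]; ring
      · have he : x + ((1 - l) * τ + l * τ') • v - e = (-(l * ((t - τ') * t⁻¹))) • h := by
          simp only [e]
          rw [hpos τ']
          module
        rw [he, len_smul]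
        have h6 : |(-(l * ((t - τ') * t⁻¹)))| ≤ 1 := by
          rw [abs_neg, abs_of_nonneg]
          · have h7 : (t - τ') * t⁻¹ ≤ 1 := by
              rw [← div_eq_mul_inv, div_le_one ht]; linarith
            have h8 : 0 ≤ (t - τ') * t⁻¹ := mul_nonneg (by linarith) (inv_nonneg.mpr ht.le)
            nlinarith
          · exact mul_nonneg hl0 (mul_nonneg (by linarith) (inv_nonneg.mpr ht.le))
        calc |(-(l * ((t - τ') * t⁻¹)))| * len h ≤ 1 * len h :=
              mul_le_mul_of_nonneg_right h6 (len_nonneg h)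
          _ < r := by rw [one_mul]; exact hh

/-- Same bounces up to time exactly `t`, at which both trajectories are at the same point. -/
theorem Fol.shadow_end {n : ℕ} {t r : ℝ} {x v h : V} (hx' : InT (x + h)) (ht : 0 < t)
    (hh : len h < r) (hn : ¬ Near n t r x v) {w : List (Fin 4)} (hw : w.length ≤ n)
    (hf : Fol w t x v) : Fol w t (x + h) (v - t⁻¹ • h) := by
  obtain ⟨s', hs', hf'⟩ := Fol.shadow hx' ht hh hn hw hf le_rfl
  refine hf'.extend hs' ?_
  have hQ : x + h + t • (v - t⁻¹ • h) = x + t • v := by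
    rw [smul_sub, smul_smul, mul_inv_cancel₀ ht.ne']; module
  rw [hQ]
  exact hf.inT

end Pool.Agent.Lib.MP_121189_an
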