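import Pool.Agent.Lib.MP_121189_an.H51Final

set_option autoImplicit false

open MeasureTheory Set Filter Topology

namespace Pool.Agent.Lib.MP_121189_an

theorem volume_xor (p q : ℝ) :
    volume {a : ℝ | ¬ (a < p ↔ a < q)} = ENNReal.ofReal |q - p| := by
  rcases le_total p q with h | h
  · have : {a : ℝ | ¬ (a < p ↔ a < q)} = Ico p q := by
      ext a
      simp only [mem_ofPred_eq, mem_Ico]
      constructor
      · intro h1
        by_contra h2
        apply h1
        constructor
        · intro h3; exact h3.trans_le h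
        · intro h3
          by_contra h4
          exact h2 ⟨not_lt.mp h4, h3⟩
      · rintro ⟨h1, h2⟩ h3
        exact absurd (h3.mpr h2) (not_lt.mpr h1)
    rw [this, Real.volume_Ico, abs_of_nonneg (by linarith)]
  · have : {a : ℝ | ¬ (a < p ↔ a < q)} = Ico q p := by
      ext a
      simp only [mem_ofPred_eq, mem_Ico]
      constructor
      · intro h1
        by_contra h2
        apply h1
        constructor
        · intro h3
          by_contra h4
          exact h2 ⟨not_lt.mp h4, h3⟩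
        · intro h3; exact h3.trans_le h
      · rintro ⟨h1, h2⟩ h3
        exact absurd (h3.mp h2) (not_lt.mpr h1)
    rw [this, Real.volume_Ico, abs_of_nonpos (by linarith), neg_sub]

/-- Superlevel set. -/
def Lv (f : V × V → ℝ) (a : ℝ) : Set (V × V) := {z | a < f z}

/-- Mean variation of a function in the velocity. -/
noncomputable def MF (f : V × V → ℝ) (c : ℝ) : ENNReal :=
  ∫⁻ ξ in B1, ∫⁻ z in Dom, ENNReal.ofReal |f (z.1, z.2 + c • ξ) - f z|

theorem measurable_trip {f : V × V → ℝ} (hf : Measurable f) (c : ℝ) :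
    MeasurableSet {q : (ℝ × V) × (V × V) | ¬ (q.1.1 < f q.2 ↔ q.1.1 < f (q.2.1, q.2.2 + c • q.1.2))} := by
  have h1 : MeasurableSet {q : (ℝ × V) × (V × V) | q.1.1 < f q.2} :=
    measurableSet_lt (measurable_fst.comp measurable_fst) (hf.comp measurable_snd)
  have h2 : MeasurableSet {q : (ℝ × V) × (V × V) | q.1.1 < f (q.2.1, q.2.2 + c • q.1.2)} := by
    refine measurableSet_lt (measurable_fst.comp measurable_fst) (hf.comp ?_)
    exact (measurable_fst.comp measurable_snd).prodMk ((measurable_snd.comp measurable_snd).add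
      ((measurable_snd.comp measurable_fst).const_smul c))
  have : {q : (ℝ × V) × (V × V) | ¬ (q.1.1 < f q.2 ↔ q.1.1 < f (q.2.1, q.2.2 + c • q.1.2))}
      = (({q : (ℝ × V) × (V × V) | q.1.1 < f q.2} ∩
          {q : (ℝ × V) × (V × V) | q.1.1 < f (q.2.1, q.2.2 + c • q.1.2)}) ∪
         ({q : (ℝ × V) × (V × V) | q.1.1 < f q.2}ᶜ ∩
          {q : (ℝ × V) × (V × V) | q.1.1 < f (q.2.1, q.2.2 + c • q.1.2)}ᶜ))ᶜ := by
    ext q
    simp only [mem_ofPred_eq, mem_compl_iff, mem_union, mem_inter_iff]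
    tauto
  rw [this]
  exact ((h1.inter h2).union (h1.compl.inter h2.compl)).compl

theorem Sv_Lv (f : V × V → ℝ) (c : ℝ) (a : ℝ) (ξ : V) :
    volume (Sv (Lv f a) (c • ξ)) = ((volume : Measure (V × V)).restrict Dom)
      {z | ¬ (a < f z ↔ a < f (z.1, z.2 + c • ξ))} := by
  rw [Measure.restrict_apply' isOpen_Dom.measurableSet]
  congr 1
  ext z
  simp only [Sv, Lv, mem_ofPred_eq, mem_inter_iff]
  tauto

/-- Co-area formula for the mean variation. -/
theorem coarea {f : V × V → ℝ} (hf : Measurable f) (c : ℝ) :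
    ∫⁻ a : ℝ, M (Lv f a) c = MF f c := by
  have hT := measurable_trip hf c
  set ν : Measure (V × V) := (volume : Measure (V × V)).restrict Dom with hν
  have hM : ∀ a, M (Lv f a) c = ∫⁻ ξ in B1, ν {z | ¬ (a < f z ↔ a < f (z.1, z.2 + c • ξ))} := by
    intro a
    unfold M
    exact lintegral_congr fun ξ => Sv_Lv f c a ξ
  have hmeas : Measurable fun p : ℝ × V => ν {z | ¬ (p.1 < f z ↔ p.1 < f (z.1, z.2 + c • p.2))} :=
    measurable_measure_prodMk_left (ν := ν) hT
  simp only [hM]
  rw [lintegral_lintegral_swap hmeas.aemeasurable]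
  unfold MF
  refine lintegral_congr fun ξ => ?_
  -- inner swap
  have hT2 : MeasurableSet {q : ℝ × (V × V) | ¬ (q.1 < f q.2 ↔ q.1 < f (q.2.1, q.2.2 + c • ξ))} :=
    hT.preimage (f := fun q : ℝ × (V × V) => ((q.1, ξ), q.2))
      ((measurable_fst.prodMk measurable_const).prodMk measurable_snd)
  have h1 := Measure.prod_apply (μ := (volume : Measure ℝ)) (ν := ν) hT2
  have h2 := Measure.prod_apply_symm (μ := (volume : Measure ℝ)) (ν := ν) hT2
  have h3 : ∫⁻ a : ℝ, ν {z | ¬ (a < f z ↔ a < f (z.1, z.2 + c • ξ))}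
      = ∫⁻ z, volume {a : ℝ | ¬ (a < f z ↔ a < f (z.1, z.2 + c • ξ))} ∂ν := h1.symm.trans h2
  rw [h3]
  refine lintegral_congr fun z => ?_
  rw [volume_xor]

theorem ae_const_of_levels {μ : Measure (V × V)} (hμ : μ ≠ 0) {f : V × V → ℝ}
    (h : ∀ᵐ a : ℝ, (∀ᵐ z ∂μ, ¬ a < f z) ∨ (∀ᵐ z ∂μ, a < f z)) :
    ∃ κ : ℝ, ∀ᵐ z ∂μ, f z = κ := by
  have hne : (ae μ).NeBot := ae_neBot.mpr hμ
  have hd : Dense {a : ℝ | (∀ᵐ z ∂μ, ¬ a < f z) ∨ (∀ᵐ z ∂μ, a < f z)} :=
    Measure.dense_of_ae h
  set S : Set ℝ := {a | ∀ᵐ z ∂μ, a < f z} with hS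
  have down : ∀ a b : ℝ, a ≤ b → b ∈ S → a ∈ S := by
    intro a b hab hb
    have hb' : ∀ᵐ z ∂μ, b < f z := hb
    show ∀ᵐ z ∂μ, a < f z
    filter_upwards [hb'] with z hz using hab.trans_lt hz
  -- S is nonempty
  have hSne : S.Nonempty := by
    by_contra hcon
    rw [not_nonempty_iff_eq_empty] at hcon
    have : ∀ n : ℕ, ∀ᵐ z ∂μ, ¬ (-(n : ℝ)) < f z := by
      intro n
      obtain ⟨a, ha1, ha2⟩ := hd.exists_lt (-(n : ℝ))
      rcases ha1 with h1 | h1
      · filter_upwards [h1] with z hz h2 using hz (ha2.trans h2)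
      · exfalso
        have : a ∈ S := h1
        rw [hcon] at this
        exact this
    obtain ⟨z, hz⟩ := (ae_all_iff.mpr this).exists
    obtain ⟨n, hn⟩ := exists_nat_gt (-(f z))
    exact hz n (by linarith)
  have hSbd : BddAbove S := by
    by_contra hcon
    rw [not_bddAbove_iff] at hcon
    have : ∀ n : ℕ, ∀ᵐ z ∂μ, (n : ℝ) < f z := by
      intro n
      obtain ⟨b, hb1, hb2⟩ := hcon n
      exact down _ _ hb2.le hb1
    obtain ⟨z, hz⟩ := (ae_all_iff.mpr this).exists
    obtain ⟨n, hn⟩ := exists_nat_gt (f z)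
    have := hz n
    linarith
  refine ⟨sSup S, ?_⟩
  have hlow : ∀ n : ℕ, ∀ᵐ z ∂μ, sSup S - 1 / ((n : ℝ) + 1) < f z := by
    intro n
    obtain ⟨b, hb1, hb2⟩ := exists_lt_of_lt_csSup hSne
      (show sSup S - 1 / ((n : ℝ) + 1) < sSup S by
        have : 0 < 1 / ((n : ℝ) + 1) := by positivity
        linarith)
    exact down _ _ hb2.le hb1
  have hup : ∀ n : ℕ, ∀ᵐ z ∂μ, f z ≤ sSup S + 1 / ((n : ℝ) + 1) := by
    intro n
    have h0 : 0 < 1 / ((n : ℝ) + 1) := by positivity
    obtain ⟨a, ha1, ha2, ha3⟩ := hd.exists_between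
      (show sSup S < sSup S + 1 / ((n : ℝ) + 1) by linarith)
    rcases ha1 with h1 | h1
    · filter_upwards [h1] with z hz using (not_lt.mp hz).trans ha3.le
    · exfalso
      have : a ≤ sSup S := le_csSup hSbd h1
      linarith
  filter_upwards [ae_all_iff.mpr hlow, ae_all_iff.mpr hup] with z h1 h2
  have htend := tendsto_one_div_add_atTop_nhds_zero_nat (𝕜 := ℝ)
  apply le_antisymm
  · have h3 : Tendsto (fun n : ℕ => sSup S + 1 / ((n : ℝ) + 1)) atTop (𝓝 (sSup S + 0)) :=
      htend.const_add _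
    rw [add_zero] at h3
    exact ge_of_tendsto' h3 h2
  · have h3 : Tendsto (fun n : ℕ => sSup S - 1 / ((n : ℝ) + 1)) atTop (𝓝 (sSup S - 0)) :=
      htend.const_sub _
    rw [sub_zero] at h3
    exact le_of_tendsto' h3 fun n => (h1 n).le

/-- Invariance of a function under free flight and reflection. -/
structure InvF (f : V × V → ℝ) : Prop where
  flight : ∀ x v : V, ∀ t : ℝ, 0 ≤ t → (∀ s, 0 ≤ s → s ≤ t → InT (x + s • v)) →
    f (x, v) = f (x + t • v, v)
  reflect : ∀ x v : V, ∀ k : Fin 4, ∀ t u : ℝ, 0 < t → 0 < u → InT x → OnF k (x + t • v) →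
    InT (x + t • v + u • R k v) → f (x, v) = f (x + t • v + u • R k v, R k v)

theorem InvF.level {f : V × V → ℝ} (h : InvF f) (a : ℝ) : Inv (Lv f a) where
  flight x v t ht hs := by
    show a < f (x, v) ↔ a < f (x + t • v, v)
    rw [h.flight x v t ht hs]
  reflect x v k t u ht hu hx hF hy := by
    show a < f (x, v) ↔ a < f (x + t • v + u • R k v, R k v)
    rw [h.reflect x v k t u ht hu hx hF hy]

/-- Invariant functions with finite mean velocity variation along a sequence are constant. -/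
theorem final_fun {f : V × V → ℝ} (hf : Measurable f) (hI : InvF f)
    (hs : ∀ x v : V, ∀ c : ℝ, 0 < c → f (x, v) = f (x, c • v))
    {C : ENNReal} (hC : C ≠ ⊤)
    (hV : ∃ᶠ c in 𝓝[>] (0 : ℝ), MF f c ≤ C * ENNReal.ofReal c) :
    ∃ κ : ℝ, ∀ᵐ z ∂(volume : Measure (V × V)).restrict {z | InT z.1}, f z = κ := by
  have hmT : MeasurableSet {z : V × V | InT z.1} := measurableSet_T0.preimage measurable_fst
  have hV' : ∃ᶠ c in 𝓝[>] (0 : ℝ), 0 < c ∧ MF f c ≤ C * ENNReal.ofReal c := by
    refine (hV.and_eventually self_mem_nhdsWithin).mono ?_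
    rintro c ⟨h1, h2⟩
    exact ⟨h2, h1⟩
  obtain ⟨cs, hcs, hcs2⟩ := exists_seq_forall_of_frequently hV'
  have hmeasM : ∀ c, Measurable fun a => M (Lv f a) c := by
    intro c
    have hmeas : Measurable fun p : ℝ × V => ((volume : Measure (V × V)).restrict Dom)
        {z | ¬ (p.1 < f z ↔ p.1 < f (z.1, z.2 + c • p.2))} :=
      measurable_measure_prodMk_left (measurable_trip hf c)
    have h1 := hmeas.lintegral_prod_right' (ν := (volume : Measure V).restrict B1)
    have : (fun a => M (Lv f a) c) = fun a => ∫⁻ ξ in B1, ((volume : Measure (V × V)).restrict Dom)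
        {z | ¬ (a < f z ↔ a < f (z.1, z.2 + c • ξ))} := by
      funext a
      unfold M
      exact lintegral_congr fun ξ => Sv_Lv f c a ξ
    rw [this]
    exact h1
  have hmeasR : ∀ n, Measurable fun a => M (Lv f a) (cs n) / ENNReal.ofReal (cs n) := fun n =>
    (hmeasM (cs n)).div_const _
  have hFatou : ∫⁻ a : ℝ, liminf (fun n => M (Lv f a) (cs n) / ENNReal.ofReal (cs n)) atTop ≤ C := by
    refine (lintegral_liminf_le hmeasR).trans ?_
    refine liminf_le_of_frequently_le' (Eventually.of_forall fun n => ?_).frequently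
    have h1 : ∫⁻ a : ℝ, M (Lv f a) (cs n) / ENNReal.ofReal (cs n)
        = MF f (cs n) / ENNReal.ofReal (cs n) := by
      simp only [div_eq_mul_inv]
      rw [lintegral_mul_const _ (hmeasM (cs n)), coarea hf]
    rw [h1]
    exact ENNReal.div_le_of_le_mul (hcs2 n).2
  have hae : ∀ᵐ a : ℝ, liminf (fun n => M (Lv f a) (cs n) / ENNReal.ofReal (cs n)) atTop < ⊤ := by
    refine ae_lt_top (Measurable.liminf hmeasR) ?_
    exact ne_top_of_le_ne_top hC hFatou
  refine ae_const_of_levels ?_ ?_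
  · rw [Ne, Measure.restrict_eq_zero]
    have : {z : V × V | InT z.1} = T0 ×ˢ (univ : Set V) := by ext z; simp [T0]
    rw [this, Measure.volume_eq_prod, Measure.prod_prod]
    refine mul_ne_zero volume_T0_ne_zero ?_
    exact (isOpen_univ.measure_pos volume ⟨0, mem_univ _⟩).ne'
  · filter_upwards [hae] with a ha
    obtain ⟨b, hb1, hb2⟩ := exists_between ha
    have h1 : ∃ᶠ n in atTop, M (Lv f a) (cs n) / ENNReal.ofReal (cs n) < b :=
      frequently_lt_of_liminf_lt (by isBoundedDefault) hb1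
    have h2 : ∃ᶠ n in atTop, M (Lv f a) (cs n) ≤ b * ENNReal.ofReal (cs n) := by
      refine h1.mono fun n hn => ?_
      have h3 := hn.le
      rw [ENNReal.div_le_iff_le_mul] at h3
      · exact h3
      · left; rw [Ne, ENNReal.ofReal_eq_zero, not_le]; exact (hcs2 n).1
      · left; exact ENNReal.ofReal_ne_top
    have h3 : ∃ᶠ c in 𝓝[>] (0 : ℝ), M (Lv f a) c ≤ b * ENNReal.ofReal c := hcs.frequently h2
    have h4 := final (hI.level a) (measurableSet_lt measurable_const hf) (by
      intro x v c hc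
      show a < f (x, v) ↔ a < f (x, c • v)
      rw [hs x v c hc]) hb2.ne h3
    rcases h4 with h5 | h5
    · left
      rw [ae_restrict_iff' hmT]
      filter_upwards [measure_eq_zero_iff_ae_notMem.mp h5] with z hz h6 h7
      exact hz ⟨h7, h6⟩
    · right
      rw [ae_restrict_iff' hmT]
      filter_upwards [measure_eq_zero_iff_ae_notMem.mp h5] with z hz h6
      by_contra h7
      exact hz ⟨h6, h7⟩

end Pool.Agent.Lib.MP_121189_an
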