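import Pool.Agent.Lib.MP_121189_an.H51Flow

set_option autoImplicit false

open MeasureTheory Set

namespace Pool.Agent.Lib.MP_121189_an

/-! ### Continuity and measure preservation -/

theorem continuous_dot (a : V) : Continuous fun x : V => a ⬝ᵥ x := by
  simp only [dotProduct]
  fun_prop

theorem continuous_len : Continuous len := by
  unfold len
  simp only [dotProduct]
  fun_prop

theorem continuous_lin (f : V →ₗ[ℝ] V) : Continuous f := f.continuous_of_finiteDimensional

theorem continuous_ρ (k : Fin 4) : Continuous (ρ k) := by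
  unfold ρ
  exact (continuous_lin _).sub continuous_const

theorem continuous_U (w : List (Fin 4)) : Continuous (U w) := by
  induction w with
  | nil => exact continuous_id
  | cons k w ih => exact (continuous_ρ k).comp ih

theorem U_injective (w : List (Fin 4)) : Function.Injective (U w) := by
  induction w with
  | nil => exact fun _ _ h => h
  | cons k w ih =>
    intro a b h
    rw [U_cons, U_cons] at h
    have := congrArg (ρ k) h
    rw [ρ_ρ, ρ_ρ] at this
    exact ih this

theorem det_R (k : Fin 4) : LinearMap.det (R k) * LinearMap.det (R k) = 1 := by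
  rw [← LinearMap.det_comp]
  have : R k ∘ₗ R k = LinearMap.id := LinearMap.ext fun v => R_R k v
  rw [this, LinearMap.det_id]

theorem mp_R (k : Fin 4) : MeasurePreserving (R k) (volume : Measure V) volume := by
  have h := det_R k
  have hne : LinearMap.det (R k) ≠ 0 := by
    intro h0; rw [h0] at h; simp at h
  refine ⟨(continuous_lin _).measurable, ?_⟩
  rw [Measure.map_linearMap_addHaar_eq_smul_addHaar volume hne]
  have : |(LinearMap.det (R k))⁻¹| = 1 := by
    rcases mul_self_eq_one_iff.mp h with h | h <;> simp [h]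
  rw [this]
  simp

theorem mp_ρ (k : Fin 4) : MeasurePreserving (ρ k) (volume : Measure V) volume :=
  (measurePreserving_sub_right volume _).comp (mp_R k)

theorem mp_L (w : List (Fin 4)) : MeasurePreserving (L w) (volume : Measure V) volume := by
  induction w with
  | nil => exact MeasurePreserving.id _
  | cons k w ih => exact (mp_R k).comp ih

theorem mp_U (w : List (Fin 4)) : MeasurePreserving (U w) (volume : Measure V) volume := by
  induction w with
  | nil => exact MeasurePreserving.id _
  | cons k w ih => exact (mp_ρ k).comp ih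

theorem mp_shear (t : ℝ) :
    MeasurePreserving (fun p : V × V => (p.1 + t • p.2, p.2)) volume volume := by
  have h1 : MeasurePreserving (fun p : V × V => (id p.1, (fun v x : V => x + t • v) p.1 p.2))
      ((volume : Measure V).prod volume) ((volume : Measure V).prod volume) := by
    refine (MeasurePreserving.id (volume : Measure V)).skew_product (μc := volume) (μd := volume)
      (g := fun v x : V => x + t • v) ?_ ?_
    · have : Continuous (Function.uncurry fun v x : V => x + t • v) := by
        unfold Function.uncurry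
        fun_prop
      exact this.measurable
    · exact Filter.Eventually.of_forall fun v => (measurePreserving_add_right volume (t • v)).map_eq
  have h2 := (Measure.measurePreserving_swap (μ := (volume : Measure V)) (ν := (volume : Measure V)))
  exact h2.comp (h1.comp h2)

/-- The billiard flow at time `t`, on the piece with bounces `w`. -/
noncomputable def Φ (w : List (Fin 4)) (t : ℝ) (p : V × V) : V × V :=
  (U w (p.1 + t • p.2), L w p.2)

theorem continuous_Φ (w : List (Fin 4)) (t : ℝ) : Continuous (Φ w t) := by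
  unfold Φ
  exact ((continuous_U w).comp (by fun_prop)).prodMk ((continuous_lin _).comp continuous_snd)

theorem mp_Φ (w : List (Fin 4)) (t : ℝ) :
    MeasurePreserving (Φ w t) (volume : Measure (V × V)) volume :=
  ((mp_U w).prod (mp_L w)).comp (mp_shear t)

theorem Φ_injective (w : List (Fin 4)) (t : ℝ) : Function.Injective (Φ w t) := by
  rintro ⟨x, v⟩ ⟨x', v'⟩ h
  simp only [Φ, Prod.mk.injEq] at h
  have h2 := L_injective w h.2
  have h1 := U_injective w h.1
  subst h2
  simpa using h1

theorem emb_Φ (w : List (Fin 4)) (t : ℝ) : MeasurableEmbedding (Φ w t) :=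
  (continuous_Φ w t).measurableEmbedding (Φ_injective w t)

/-! ### Openness of the pieces -/

theorem isOpen_InT : IsOpen {x : V | InT x} := by
  have : {x : V | InT x} = ⋂ j, {x | -1 < N j ⬝ᵥ x} := by ext; simp [InT]
  rw [this]
  exact isOpen_iInter_of_finite fun j => isOpen_lt continuous_const (continuous_dot _)

theorem isOpen_Fol (w : List (Fin 4)) : ∀ t : ℝ, IsOpen {p : V × V | Fol w t p.1 p.2} := by
  induction w with
  | nil =>
    intro t
    by_cases ht : 0 ≤ t
    · have : {p : V × V | Fol [] t p.1 p.2}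
          = {p : V × V | InT p.1} ∩ {p : V × V | InT (p.1 + t • p.2)} := by
        ext p; simp [Fol, ht]
      rw [this]
      exact (isOpen_InT.preimage continuous_fst).inter
        (isOpen_InT.preimage (f := fun p : V × V => p.1 + t • p.2) (by fun_prop))
    · have : {p : V × V | Fol [] t p.1 p.2} = ∅ := by
        ext p; simp [Fol, ht]
      rw [this]; exact isOpen_empty
  | cons k w ih =>
    intro t
    rw [isOpen_iff_mem_nhds]
    rintro ⟨x, v⟩ hp
    have hneg : N k ⬝ᵥ L w v < 0 := Fol.slope_neg hp
    obtain ⟨s, τ, h1, h2, h3, h4, h5⟩ := hp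
    -- the bounce time as a function of the initial condition
    let T : V × V → ℝ := fun p => (-1 - N k ⬝ᵥ U w p.1) / (N k ⬝ᵥ L w p.2)
    have hTτ : T (x, v) = τ := by
      have := h4.1
      rw [N_U_time] at this
      simp only [T]
      rw [div_eq_iff hneg.ne]; linarith
    have hcU : Continuous fun p : V × V => N k ⬝ᵥ U w p.1 :=
      (continuous_dot _).comp ((continuous_U w).comp continuous_fst)
    have hcL : Continuous fun p : V × V => N k ⬝ᵥ L w p.2 :=
      (continuous_dot _).comp ((continuous_lin _).comp continuous_snd)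
    have hTc : ContinuousAt T (x, v) :=
      (continuousAt_const.sub hcU.continuousAt).div hcL.continuousAt hneg.ne
    have e1 : ∀ᶠ p : V × V in nhds (x, v), Fol w s p.1 p.2 := (ih s).mem_nhds h1
    have e2 : ∀ᶠ p : V × V in nhds (x, v), N k ⬝ᵥ L w p.2 < 0 :=
      hcL.continuousAt.eventually (gt_mem_nhds hneg)
    have e3 : ∀ᶠ p : V × V in nhds (x, v), s < T p :=
      hTc.eventually (lt_mem_nhds (by rw [hTτ]; exact h2))
    have e4 : ∀ᶠ p : V × V in nhds (x, v), T p < t :=
      hTc.eventually (gt_mem_nhds (by rw [hTτ]; exact h3))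
    have e5 : ∀ j, ∀ᶠ p : V × V in nhds (x, v), j ≠ k → -1 < N j ⬝ᵥ U w (p.1 + T p • p.2) := by
      intro j
      by_cases hj : j = k
      · exact Filter.Eventually.of_forall fun p h => absurd hj h
      · have hc : ContinuousAt (fun p : V × V => N j ⬝ᵥ U w (p.1 + T p • p.2)) (x, v) := by
          have h6 : ContinuousAt (fun p : V × V => p.1 + T p • p.2) (x, v) :=
            continuousAt_fst.add (hTc.smul continuousAt_snd)
          exact (((continuous_dot (N j)).comp (continuous_U w)).continuousAt).comp h6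
        have := hc.eventually (lt_mem_nhds (a := -1) (by simp only [hTτ]; exact h4.2 j hj))
        filter_upwards [this] with p hp _ using hp
    have e5' := Filter.eventually_all.mpr e5
    have e6 : ∀ᶠ p : V × V in nhds (x, v), InT (U (k :: w) (p.1 + t • p.2)) := by
      have hc : Continuous fun p : V × V => U (k :: w) (p.1 + t • p.2) :=
        (continuous_U _).comp (by fun_prop)
      exact (isOpen_InT.preimage hc).mem_nhds h5
    filter_upwards [e1, e2, e3, e4, e5', e6] with p p1 p2 p3 p4 p5 p6
    refine ⟨s, T p, p1, p3, p4, ⟨?_, p5⟩, p6⟩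
    rw [N_U_time]
    simp only [T]
    have := p2.ne
    field_simp
    ring

/-- Piece of phase space with bounces `w` up to time `t`, at speed less than one. -/
def P (w : List (Fin 4)) (t : ℝ) : Set (V × V) := {p | Fol w t p.1 p.2 ∧ len p.2 < 1}

theorem isOpen_P (w : List (Fin 4)) (t : ℝ) : IsOpen (P w t) :=
  (isOpen_Fol w t).inter (isOpen_lt (continuous_len.comp continuous_snd) continuous_const)

/-- Image piece. -/
def E (w : List (Fin 4)) (t : ℝ) : Set (V × V) := Φ w t '' P w t

theorem measurableSet_E (w : List (Fin 4)) (t : ℝ) : MeasurableSet (E w t) :=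
  (emb_Φ w t).measurableSet_image.mpr (isOpen_P w t).measurableSet

theorem E_disjoint {w w' : List (Fin 4)} (t : ℝ) (h : w ≠ w') : Disjoint (E w t) (E w' t) := by
  rw [Set.disjoint_left]
  rintro _ ⟨p, hp, rfl⟩ ⟨p', hp', h'⟩
  simp only [Φ, Prod.mk.injEq] at h'
  exact h (Fol.unique hp.1 hp'.1 h'.1.symm h'.2.symm)

theorem volume_image (w : List (Fin 4)) (t : ℝ) (X S : Set (V × V)) :
    volume (X ∩ Φ w t ⁻¹' S) = volume (Φ w t '' X ∩ S) := by
  have h := (mp_Φ w t).measure_preimage_emb (emb_Φ w t) (Φ w t '' X ∩ S)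
  rw [← h, preimage_inter, (Φ_injective w t).preimage_image]

/-! ### The variation sets -/

/-- Domain: interior positions, speed less than one. -/
def Dom : Set (V × V) := {p | InT p.1 ∧ len p.2 < 1}

theorem isOpen_Dom : IsOpen Dom :=
  (isOpen_InT.preimage continuous_fst).inter
    (isOpen_lt (continuous_len.comp continuous_snd) continuous_const)

/-- Points of the domain where a change of velocity by `u` changes membership in `A`. -/
def Sv (A : Set (V × V)) (u : V) : Set (V × V) := {p | p ∈ Dom ∧ ¬ (p ∈ A ↔ (p.1, p.2 + u) ∈ A)}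

/-- Points at depth `η` where a change of position by `h` changes membership in `A`. -/
def Sx (A : Set (V × V)) (η : ℝ) (h : V) : Set (V × V) :=
  {p | (∀ j, -1 + η < N j ⬝ᵥ p.1) ∧ len p.2 < 1 ∧ ¬ (p ∈ A ↔ (p.1 + h, p.2) ∈ A)}

theorem measurableSet_Sv_joint {A : Set (V × V)} (hA : MeasurableSet A) {X : Type*}
    [MeasurableSpace X] {f : X → V} (hf : Measurable f) :
    MeasurableSet {q : X × (V × V) | q.2 ∈ Sv A (f q.1)} := by
  have h1 : MeasurableSet {q : X × (V × V) | q.2 ∈ Dom} := isOpen_Dom.measurableSet.preimage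
    measurable_snd
  have h2 : MeasurableSet {q : X × (V × V) | q.2 ∈ A} := hA.preimage measurable_snd
  have h3 : MeasurableSet {q : X × (V × V) | (q.2.1, q.2.2 + f q.1) ∈ A} := by
    refine hA.preimage ?_
    exact (measurable_fst.comp measurable_snd).prodMk
      ((measurable_snd.comp measurable_snd).add (hf.comp measurable_fst))
  have : {q : X × (V × V) | q.2 ∈ Sv A (f q.1)} = {q : X × (V × V) | q.2 ∈ Dom} ∩
      (({q : X × (V × V) | q.2 ∈ A} ∩ {q : X × (V × V) | (q.2.1, q.2.2 + f q.1) ∈ A})
       ∪ ({q : X × (V × V) | q.2 ∈ A}ᶜ ∩ {q : X × (V × V) | (q.2.1, q.2.2 + f q.1) ∈ A}ᶜ))ᶜ := by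
    ext q
    simp only [Sv, mem_ofPred_eq, mem_inter_iff, mem_compl_iff, mem_union]
    tauto
  rw [this]
  exact h1.inter (((h2.inter h3).union (h2.compl.inter h3.compl)).compl)

theorem measurableSet_Sv {A : Set (V × V)} (hA : MeasurableSet A) (u : V) :
    MeasurableSet (Sv A u) := by
  have := (measurableSet_Sv_joint hA (X := Unit) (f := fun _ => u) measurable_const).preimage
    (measurable_prodMk_left (x := ()))
  exact this

/-- `ξ ↦ volume (E ∩ Sv A (f ξ))` is measurable. -/
theorem measurable_vol_Sv {A : Set (V × V)} (hA : MeasurableSet A) {X : Type*}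
    [MeasurableSpace X] {f : X → V} (hf : Measurable f) (E : Set (V × V)) (hE : MeasurableSet E) :
    Measurable fun ξ => volume (E ∩ Sv A (f ξ)) := by
  have h := measurable_measure_prodMk_left (ν := (volume : Measure (V × V)))
    ((hE.preimage (measurable_snd (α := X))).inter (measurableSet_Sv_joint hA hf))
  exact h

theorem InT_add_of_depth {x h : V} {η r : ℝ} (hη : Real.sqrt 3 * r ≤ η)
    (hx : ∀ j, -1 + η < N j ⬝ᵥ x) (hh : len h < r) : InT (x + h) := by
  intro j
  rw [dotProduct_add]
  have h1 := abs_dot_le (N j) h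
  have h2 : len (N j) = Real.sqrt 3 := by rw [len, N_dot_self]
  rw [h2] at h1
  have h3 : Real.sqrt 3 * len h ≤ Real.sqrt 3 * r :=
    mul_le_mul_of_nonneg_left hh.le (Real.sqrt_nonneg _)
  have h4 := (abs_le.mp h1).1
  have := hx j
  linarith

/-- The words considered up to time `t`. -/
noncomputable def Wd (t : ℝ) : Finset (List (Fin 4)) :=
  (List.finite_length_lt (Fin 4) (nmax t)).toFinset

theorem mem_Wd {t : ℝ} {w : List (Fin 4)} : w ∈ Wd t ↔ w.length < nmax t := by
  simp [Wd]

/-- The exceptional null set: at time `t` the trajectory is on an unfolded face plane. -/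
def Fc (t : ℝ) : Set (V × V) :=
  {p | ∃ w : List (Fin 4), w.length ≤ nmax t ∧ ∃ j, N j ⬝ᵥ U w (p.1 + t • p.2) = -1}

theorem N_ne_zero (j : Fin 4) : N j ≠ 0 := by
  intro h
  have := N_dot_self j
  rw [h] at this
  simp at this

theorem plane_null (j : Fin 4) (c : ℝ) : volume {x : V | N j ⬝ᵥ x = c} = 0 := by
  classical
  let s : AffineSubspace ℝ V :=
    { carrier := {x : V | N j ⬝ᵥ x = c}
      smul_vsub_vadd_mem' := by
        intro a p q r hp hq hr
        simp only [mem_ofPred_eq, vsub_eq_sub, vadd_eq_add] at *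
        rw [dotProduct_add, dotProduct_smul, dotProduct_sub, hp, hq, hr]
        simp }
  have hs : s ≠ ⊤ := by
    intro h
    have h1 : (0 : V) ∈ s := by rw [h]; trivial
    have h2 : (N j : V) ∈ s := by rw [h]; trivial
    have h1' : N j ⬝ᵥ (0 : V) = c := h1
    have h2' : N j ⬝ᵥ N j = c := h2
    rw [dotProduct_zero] at h1'
    rw [N_dot_self] at h2'
    linarith
  exact Measure.addHaar_affineSubspace volume s hs

theorem Fc_null (t : ℝ) : volume (Fc t) = 0 := by
  have hfin : {w : List (Fin 4) | w.length ≤ nmax t}.Finite := List.finite_length_le _ _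
  have : Fc t = ⋃ w ∈ {w : List (Fin 4) | w.length ≤ nmax t}, ⋃ j,
      {p : V × V | N j ⬝ᵥ U w (p.1 + t • p.2) = -1} := by
    ext p; simp [Fc]
  rw [this]
  refine (measure_biUnion_null_iff hfin.countable).mpr fun w _ => ?_
  refine measure_iUnion_null fun j => ?_
  have h1 : {p : V × V | N j ⬝ᵥ U w (p.1 + t • p.2) = -1}
      = Φ w t ⁻¹' ({x : V | N j ⬝ᵥ x = -1} ×ˢ univ) := by
    ext p; simp [Φ]
  rw [h1, (mp_Φ w t).measure_preimage_emb (emb_Φ w t), Measure.volume_eq_prod, Measure.prod_prod,
    plane_null, zero_mul]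

theorem zero_speed_null : volume {p : V × V | p.2 = 0} = 0 := by
  have : {p : V × V | p.2 = 0} = univ ×ˢ {(0 : V)} := by ext p; simp
  rw [this, Measure.volume_eq_prod, Measure.prod_prod, measure_singleton, mul_zero]

/-- Pointwise covering of the position-variation set. -/
theorem Sx_cover {A : Set (V × V)} (hA : Inv A) {η r t : ℝ} (hη : Real.sqrt 3 * r ≤ η)
    (hr : 0 < r) (ht : 0 < t) {h : V} (hh : len h < r) :
    Sx A η h ∩ {p | ¬ Near (nmax t) t r p.1 p.2} ⊆
      (Fc t ∪ {p | p.2 = 0}) ∪ ((fun p : V × V => (p.1 + h, p.2)) ⁻¹' Sv A (-(t⁻¹ • h)) ∪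
        ⋃ w ∈ Wd t, (P w t ∩ Φ w t ⁻¹' Sv A (-(t⁻¹ • L w h)))) := by
  rintro ⟨x, v⟩ ⟨⟨hx, hv, hne⟩, hnear⟩
  simp only [mem_ofPred_eq] at hx hv hne hnear
  have hη0 : 0 ≤ η := (mul_nonneg (Real.sqrt_nonneg _) hr.le).trans hη
  by_cases h1 : (x, v) ∈ Fc t
  · exact Or.inl (Or.inl h1)
  by_cases h2 : v = 0
  · exact Or.inl (Or.inr h2)
  right
  have hxT : InT x := fun j => by have := hx j; linarith
  have hxT' : InT (x + h) := InT_add_of_depth hη hx hh
  have hface : ∀ w : List (Fin 4), w.length ≤ nmax t → ∀ j, N j ⬝ᵥ U w (x + t • v) ≠ -1 :=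
    fun w hw j hj => h1 ⟨w, hw, j, hj⟩
  obtain ⟨w, hw, hf⟩ := exists_fol hxT h2 hv.le ht hr hnear hface
  have hf' := Fol.shadow_end hxT' ht hh hnear hw.le hf
  have i1 := hf.inv hA
  have i2 := hf'.inv hA
  have hQ : x + h + t • (v - t⁻¹ • h) = x + t • v := by
    rw [smul_sub, smul_smul, mul_inv_cancel₀ ht.ne']; module
  rw [hQ] at i2
  by_cases h3 : ((x + h, v) ∈ A ↔ (x + h, v - t⁻¹ • h) ∈ A)
  · right
    simp only [mem_iUnion, exists_prop]
    refine ⟨w, mem_Wd.mpr hw, ⟨hf, hv⟩, ?_⟩
    refine ⟨⟨hf.inT, ?_⟩, ?_⟩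
    · simp only [Φ]; rw [len_L]; exact hv
    · intro h4
      apply hne
      rw [i1]
      have h5 : (U w (x + t • v), L w v) ∈ A ↔ (U w (x + t • v), L w (v - t⁻¹ • h)) ∈ A := by
        have e : L w (v - t⁻¹ • h) = L w v + -(t⁻¹ • L w h) := by
          rw [map_sub, map_smul]; abel
        rw [e]
        exact h4
      rw [h5, ← i2]
      exact h3.symm
  · left
    refine ⟨⟨hxT', hv⟩, ?_⟩
    intro h4
    apply h3
    rw [sub_eq_add_neg]
    exact h4

end Pool.Agent.Lib.MP_121189_an
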