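import Pool.Agent.Lib.MP_121189_an.H51Meas

set_option autoImplicit false

open Set Filter Topology Complex

namespace Pool.Agent.Lib.MP_121189_an

/-! ### An irrational rotation -/

/-- The rotation number. -/
noncomputable def ω : ℂ := ⟨-7 / 9, -(4 * Real.sqrt 2 / 9)⟩

noncomputable def ϑ : ℝ := Real.arccos (-7 / 9)

theorem cos_ϑ : Real.cos ϑ = -7 / 9 := Real.cos_arccos (by norm_num) (by norm_num)

theorem sin_ϑ : Real.sin ϑ = 4 * Real.sqrt 2 / 9 := by
  rw [ϑ, Real.sin_arccos]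
  have h : (1 : ℝ) - (-7 / 9) ^ 2 = (4 * Real.sqrt 2 / 9) ^ 2 := by
    have h2 : Real.sqrt 2 ^ 2 = 2 := Real.sq_sqrt (by norm_num)
    have : (4 * Real.sqrt 2 / 9) ^ 2 = 16 * Real.sqrt 2 ^ 2 / 81 := by ring
    rw [this, h2]; norm_num
  rw [h, Real.sqrt_sq (by positivity)]

theorem ω_eq : ω = Complex.exp (-(ϑ * I)) := by
  rw [← neg_mul, Complex.exp_mul_I]
  apply Complex.ext
  · simp only [ω, add_re, mul_re, I_re, I_im]
    rw [← Complex.ofReal_neg, Complex.cos_ofReal_re, Complex.sin_ofReal_re, Complex.sin_ofReal_im,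
      Real.cos_neg, cos_ϑ]
    ring
  · simp only [ω, add_im, mul_im, I_re, I_im]
    rw [← Complex.ofReal_neg, Complex.cos_ofReal_im, Complex.sin_ofReal_re, Complex.sin_ofReal_im,
      Real.sin_neg, sin_ϑ]
    ring

theorem irrational_ϑ : Irrational (ϑ / (2 * Real.pi)) := by
  rintro ⟨q, hq⟩
  have h1 : ∃ r : ℚ, ϑ = r * Real.pi := by
    refine ⟨2 * q, ?_⟩
    push_cast
    rw [hq]
    have := Real.pi_ne_zero
    field_simp
  have h2 : ∃ q : ℚ, Real.cos ϑ = q := ⟨-7 / 9, by rw [cos_ϑ]; push_cast; ring⟩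
  have h3 := niven h1 h2
  rw [cos_ϑ] at h3
  simp only [mem_insert_iff, mem_singleton_iff] at h3
  rcases h3 with h | h | h | h | h <;> norm_num at h

/-- Integer powers of `ω` rotate any complex number close to any other of the same modulus. -/
theorem exists_pow_close {z z' : ℂ} (h : ‖z‖ = ‖z'‖) {δ : ℝ} (hδ : 0 < δ) :
    ∃ m : ℤ, ‖ω ^ m * z - z'‖ < δ := by
  by_cases hz : z = 0
  · subst hz
    have : z' = 0 := by rw [← norm_eq_zero, ← h, norm_zero]
    exact ⟨0, by simp [this, hδ]⟩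
  have hzp : 0 < ‖z‖ := norm_pos_iff.mpr hz
  -- target angle
  set ψ : ℝ := z'.arg - z.arg with hψ
  have hcont : Continuous fun s : ℝ => Complex.exp (s * I) := by fun_prop
  have hc : {s : ℝ | ‖Complex.exp (s * I) - Complex.exp (ψ * I)‖ < δ / ‖z‖} ∈ 𝓝 ψ := by
    have h2 : Tendsto (fun s : ℝ => ‖Complex.exp (s * I) - Complex.exp (ψ * I)‖) (𝓝 ψ) (𝓝 0) := by
      have := (hcont.sub (continuous_const (y := Complex.exp (ψ * I)))).norm.tendsto ψ
      simpa using this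
    exact h2.eventually (gt_mem_nhds (by positivity))
  have hdense : Dense ((AddSubgroup.closure {ϑ, 2 * Real.pi} : AddSubgroup ℝ) : Set ℝ) :=
    dense_addSubgroupClosure_pair_iff.mpr irrational_ϑ
  obtain ⟨s, hs2, hs1⟩ := hdense.inter_nhds_nonempty hc
  rw [SetLike.mem_coe, AddSubgroup.mem_closure_pair] at hs2
  obtain ⟨a, b, hab⟩ := hs2
  refine ⟨-a, ?_⟩
  have e1 : ω ^ (-a) = Complex.exp (s * I) := by
    rw [ω_eq, ← Complex.exp_int_mul, ← hab]
    have : ((a • ϑ + b • (2 * Real.pi) : ℝ) : ℂ) * I = ((-a : ℤ) : ℂ) * (-(ϑ * I)) + b * (2 * Real.pi * I) := by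
      push_cast [zsmul_eq_mul]
      ring
    rw [this, Complex.exp_add, Complex.exp_int_mul_two_pi_mul_I, mul_one]
  have e2 : z' = Complex.exp (ψ * I) * z := by
    have h1 := Complex.norm_mul_exp_arg_mul_I z
    have h2 := Complex.norm_mul_exp_arg_mul_I z'
    rw [← h1, ← h2, ← h, hψ]
    have : ((z'.arg - z.arg : ℝ) : ℂ) * I = z'.arg * I - z.arg * I := by push_cast; ring
    rw [this, Complex.exp_sub]
    have := Complex.exp_ne_zero (z.arg * I)
    field_simp
  rw [e1, e2, ← sub_mul, norm_mul]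
  have h3 : ‖Complex.exp (s * I) - Complex.exp (ψ * I)‖ < δ / ‖z‖ := hs1
  calc _ < δ / ‖z‖ * ‖z‖ := mul_lt_mul_of_pos_right h3 hzp
    _ = δ := by field_simp

theorem norm_c (z : ℂ) : ‖z‖ = Real.sqrt (z.re ^ 2 + z.im ^ 2) := by
  rw [Complex.norm_def, Complex.normSq_apply, sq, sq]

/-! ### Rotations about an edge -/

/-- First basis vector of the plane spanned by `N j` and `N k`. -/
noncomputable def eb (j k : Fin 4) : V := (1 / 2 : ℝ) • (N j + N k)
/-- Second basis vector of the plane spanned by `N j` and `N k`. -/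
noncomputable def fb (j k : Fin 4) : V := (Real.sqrt 2 / 4) • (N j - N k)

theorem sqrt2_sq : Real.sqrt 2 * Real.sqrt 2 = 2 := Real.mul_self_sqrt (by norm_num)

theorem eb_eb {j k : Fin 4} (h : j ≠ k) : eb j k ⬝ᵥ eb j k = 1 := by
  simp only [eb, smul_dotProduct, dotProduct_smul, add_dotProduct, dotProduct_add, smul_eq_mul,
    N_dot_self, N_dot_ne h, N_dot_ne h.symm]
  norm_num

theorem fb_fb {j k : Fin 4} (h : j ≠ k) : fb j k ⬝ᵥ fb j k = 1 := by
  simp only [fb, smul_dotProduct, dotProduct_smul, sub_dotProduct, dotProduct_sub, smul_eq_mul,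
    N_dot_self, N_dot_ne h, N_dot_ne h.symm]
  nlinarith [sqrt2_sq]

theorem eb_fb {j k : Fin 4} (h : j ≠ k) : eb j k ⬝ᵥ fb j k = 0 := by
  simp only [eb, fb, smul_dotProduct, dotProduct_smul, add_dotProduct, dotProduct_sub, smul_eq_mul,
    N_dot_self, N_dot_ne h, N_dot_ne h.symm]
  ring

theorem N_fst (j k : Fin 4) : N j = eb j k + Real.sqrt 2 • fb j k := by
  simp only [eb, fb, smul_smul]
  have : Real.sqrt 2 * (Real.sqrt 2 / 4) = 1 / 2 := by
    rw [← mul_div_assoc, sqrt2_sq]; norm_num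
  rw [this]; module

theorem N_snd (j k : Fin 4) : N k = eb j k - Real.sqrt 2 • fb j k := by
  simp only [eb, fb, smul_smul]
  have : Real.sqrt 2 * (Real.sqrt 2 / 4) = 1 / 2 := by
    rw [← mul_div_assoc, sqrt2_sq]; norm_num
  rw [this]; module

/-- Complex coordinate in the plane. -/
noncomputable def zc (j k : Fin 4) (v : V) : ℂ := ⟨eb j k ⬝ᵥ v, fb j k ⬝ᵥ v⟩

/-- Change the complex coordinate of `v` to `ζ`. -/
noncomputable def Tc (j k : Fin 4) (v : V) (ζ : ℂ) : V :=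
  v + (ζ.re - eb j k ⬝ᵥ v) • eb j k + (ζ.im - fb j k ⬝ᵥ v) • fb j k

theorem zc_Tc {j k : Fin 4} (h : j ≠ k) (v : V) (ζ : ℂ) : zc j k (Tc j k v ζ) = ζ := by
  have h1 := eb_eb h
  have h2 := fb_fb h
  have h3 := eb_fb h
  have h4 : fb j k ⬝ᵥ eb j k = 0 := by rw [dotProduct_comm]; exact h3
  apply Complex.ext
  · simp only [zc, Tc, dotProduct_add, dotProduct_smul, smul_eq_mul, h1, h3]; ring
  · simp only [zc, Tc, dotProduct_add, dotProduct_smul, smul_eq_mul, h2, h4]; ring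

theorem Tc_Tc {j k : Fin 4} (h : j ≠ k) (v : V) (ζ ζ' : ℂ) :
    Tc j k (Tc j k v ζ) ζ' = Tc j k v ζ' := by
  have hz := zc_Tc h v ζ
  have h1 : eb j k ⬝ᵥ Tc j k v ζ = ζ.re := congrArg Complex.re hz
  have h2 : fb j k ⬝ᵥ Tc j k v ζ = ζ.im := congrArg Complex.im hz
  conv_lhs => rw [Tc, h1, h2]
  simp only [Tc]
  module

theorem Tc_self (j k : Fin 4) (v : V) : Tc j k v (zc j k v) = v := by
  simp [Tc, zc]

theorem len_Tc_sub {j k : Fin 4} (h : j ≠ k) (v : V) (ζ ζ' : ℂ) :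
    len (Tc j k v ζ - Tc j k v ζ') = ‖ζ - ζ'‖ := by
  have h1 := eb_eb h
  have h2 := fb_fb h
  have h3 := eb_fb h
  have h4 : fb j k ⬝ᵥ eb j k = 0 := by rw [dotProduct_comm]; exact h3
  have e : Tc j k v ζ - Tc j k v ζ' = (ζ - ζ').re • eb j k + (ζ - ζ').im • fb j k := by
    simp only [Tc, Complex.sub_re, Complex.sub_im]; module
  rw [e, len, norm_c]
  congr 1
  simp only [dotProduct_add, add_dotProduct, smul_dotProduct, dotProduct_smul, smul_eq_mul,
    h1, h2, h3, h4]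
  ring

theorem rot_pos {j k : Fin 4} (h : j ≠ k) (v : V) :
    R j (R k v) = Tc j k v (ω * zc j k v) := by
  have h1 := eb_eb h
  have h2 := fb_fb h
  have h3 := eb_fb h
  have h4 : fb j k ⬝ᵥ eb j k = 0 := by rw [dotProduct_comm]; exact h3
  have s2 := sqrt2_sq
  simp only [R_apply, Tc, zc, ω, Complex.mul_re, Complex.mul_im]
  rw [N_snd j k, N_fst j k]
  set X := eb j k ⬝ᵥ v with hX
  set Y := fb j k ⬝ᵥ v with hY
  simp only [dotProduct_sub, dotProduct_add, add_dotProduct, sub_dotProduct, smul_dotProduct,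
    dotProduct_smul, smul_eq_mul, h1, h2, h3, h4, ← hX, ← hY]
  set s := Real.sqrt 2 with hs
  have e1 : ∀ a b c d : ℝ, a = c → b = d → a • eb j k + b • fb j k = c • eb j k + d • fb j k := by
    rintro a b c d rfl rfl; rfl
  have key := e1 (-(2 / 3 * (X - s * Y)) - 2 / 3 * (X + s * Y - 2 / 3 * (X - s * Y) * (1 - s * s)))
    (2 / 3 * (X - s * Y) * s - 2 / 3 * (X + s * Y - 2 / 3 * (X - s * Y) * (1 - s * s)) * s)
    (-7 / 9 * X - -(4 * s / 9) * Y - X) (-7 / 9 * Y + -(4 * s / 9) * X - Y)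
    (by rw [s2]; ring) (by rw [s2]; ring_nf; rw [show s ^ 2 = 2 by rw [sq]; exact s2]; ring)
  have lhs : ∀ (c1 c2 : ℝ), v - c1 • (eb j k - s • fb j k) - c2 • (eb j k + s • fb j k)
      = v + ((-c1 - c2) • eb j k + (c1 * s - c2 * s) • fb j k) := by
    intro c1 c2; module
  rw [lhs]
  rw [add_assoc, ← key]
  congr 2
  · congr 1
    ring
  · congr 1
    ring

theorem ω_ne : ω ≠ 0 := by
  rw [ω_eq]; exact Complex.exp_ne_zero _

theorem rot_neg {j k : Fin 4} (h : j ≠ k) (v : V) :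
    R k (R j v) = Tc j k v (ω⁻¹ * zc j k v) := by
  -- the inverse of the previous rotation
  have h1 := rot_pos h (Tc j k v (ω⁻¹ * zc j k v))
  rw [zc_Tc h, Tc_Tc h, ← mul_assoc, mul_inv_cancel₀ ω_ne, one_mul, Tc_self] at h1
  have h2 := congrArg (fun u => R k (R j u)) h1
  simp only [R_R] at h2
  exact h2.symm

theorem rot_word {j k : Fin 4} (h : j ≠ k) (v : V) (m : ℤ) :
    ∃ w : List (Fin 4), L w v = Tc j k v (ω ^ m * zc j k v) := by
  induction m using Int.induction_on with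
  | zero => exact ⟨[], by simp [Tc_self]⟩
  | succ n ih =>
    obtain ⟨w, hw⟩ := ih
    refine ⟨j :: k :: w, ?_⟩
    rw [L_cons, L_cons, hw, rot_pos h, zc_Tc h, Tc_Tc h, ← mul_assoc, ← zpow_one_add₀ ω_ne,
      add_comm]
  | pred n ih =>
    obtain ⟨w, hw⟩ := ih
    refine ⟨k :: j :: w, ?_⟩
    rw [L_cons, L_cons, hw, rot_neg h, zc_Tc h, Tc_Tc h, ← mul_assoc, ← zpow_neg_one,
      ← zpow_add₀ ω_ne]
    congr 3
    ring

/-- `q` is in the closure of the orbit of `p` under the reflection group. -/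
def Cl (p q : V) : Prop := ∀ δ : ℝ, 0 < δ → ∃ w : List (Fin 4), len (L w p - q) < δ

theorem len_add_le (a b : V) : len (a + b) ≤ len a + len b := by
  apply Real.sqrt_le_iff.mpr
  refine ⟨add_nonneg (len_nonneg _) (len_nonneg _), ?_⟩
  have h1 := (abs_le.mp (abs_dot_le a b)).2
  have : (a + b) ⬝ᵥ (a + b) = a ⬝ᵥ a + 2 * (a ⬝ᵥ b) + b ⬝ᵥ b := by
    rw [add_dotProduct, dotProduct_add, dotProduct_add, dotProduct_comm b a]; ring
  rw [this, ← len_sq, ← len_sq]
  nlinarith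

theorem L_append (w w' : List (Fin 4)) (v : V) : L (w ++ w') v = L w (L w' v) := by
  induction w with
  | nil => rfl
  | cons k w ih => rw [List.cons_append, L_cons, ih, L_cons]

theorem Cl.trans {p q r : V} (h : Cl p q) (h' : Cl q r) : Cl p r := by
  intro δ hδ
  obtain ⟨w', hw'⟩ := h' (δ / 2) (by linarith)
  obtain ⟨w, hw⟩ := h (δ / 2) (by linarith)
  refine ⟨w' ++ w, ?_⟩
  have e : L (w' ++ w) p - r = L w' (L w p - q) + (L w' q - r) := by
    rw [L_append, map_sub]; abel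
  rw [e]
  refine (len_add_le _ _).trans_lt ?_
  rw [len_L]; linarith

theorem Cl_Tc {j k : Fin 4} (h : j ≠ k) (v : V) {ζ : ℂ} (hζ : ‖zc j k v‖ = ‖ζ‖) :
    Cl v (Tc j k v ζ) := by
  intro δ hδ
  obtain ⟨m, hm⟩ := exists_pow_close hζ hδ
  obtain ⟨w, hw⟩ := rot_word h v m
  exact ⟨w, by rw [hw, len_Tc_sub h]; exact hm⟩

/-- Orbits of the reflection group are dense in spheres. -/
theorem Cl_all {p q : V} (h : len p = len q) : Cl p q := by
  have h01 : (0 : Fin 4) ≠ 1 := by decide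
  have h23 : (2 : Fin 4) ≠ 3 := by decide
  set s := Real.sqrt 2 with hs
  have s2 : s * s = 2 := sqrt2_sq
  have e01 : eb 0 1 = ![1, 0, 0] := by
    ext i; fin_cases i <;> simp [eb, N] <;> norm_num
  have f01 : fb 0 1 = ![0, s / 2, s / 2] := by
    ext i; fin_cases i <;> simp [fb, N] <;> ring
  have e23 : eb 2 3 = ![-1, 0, 0] := by
    ext i; fin_cases i <;> simp [eb, N] <;> norm_num
  have f23 : fb 2 3 = ![0, s / 2, -(s / 2)] := by
    ext i; fin_cases i <;> simp [fb, N] <;> ring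
  have z01 : ∀ v : V, zc 0 1 v = ⟨v 0, s / 2 * v 1 + s / 2 * v 2⟩ := by
    intro v; simp only [zc, e01, f01, dot_eq]; simp
  have z23 : ∀ v : V, zc 2 3 v = ⟨-v 0, s / 2 * v 1 - s / 2 * v 2⟩ := by
    intro v; simp only [zc, e23, f23, dot_eq]; simp; ring
  -- radial coordinates
  let ra : V → ℝ := fun v => Real.sqrt (v 0 ^ 2 + (s / 2 * v 1 + s / 2 * v 2) ^ 2)
  have hra : ∀ v, ra v ^ 2 = v 0 ^ 2 + (s / 2 * v 1 + s / 2 * v 2) ^ 2 :=
    fun v => Real.sq_sqrt (by positivity)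
  have hra0 : ∀ v, 0 ≤ ra v := fun v => Real.sqrt_nonneg _
  let p1 : V := Tc 0 1 p ⟨ra p, 0⟩
  have step1 : Cl p p1 := by
    refine Cl_Tc h01 p ?_
    rw [z01, norm_c, norm_c]
    congr 1
    simp only [hra]; ring
  let p2 : V := Tc 2 3 p1 ⟨-ra q, s / 2 * q 1 - s / 2 * q 2⟩
  have hp1 : p1 = ![ra p, s / 2 * (s / 2 * p 1 - s / 2 * p 2), -(s / 2 * (s / 2 * p 1 - s / 2 * p 2))] := by
    have hT : ∀ i, p1 i = p i + (ra p - p 0) * (![1, 0, 0] : V) i
        + (0 - (s / 2 * p 1 + s / 2 * p 2)) * (![0, s / 2, s / 2] : V) i := by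
      intro i
      simp only [p1, Tc, e01, f01, dot_eq, Pi.add_apply, Pi.smul_apply, smul_eq_mul]
      simp
    ext i
    rw [hT]
    fin_cases i
    · simp
    · simp
      have : p 1 + (-(s / 2 * p 2) + -(s / 2 * p 1)) * (s / 2)
          = p 1 - (s * s / 4) * (p 1 + p 2) := by ring
      rw [this, s2]
      have : s / 2 * (s / 2 * p 1 - s / 2 * p 2) = (s * s / 4) * (p 1 - p 2) := by ring
      rw [this, s2]; ring
    · simp
      have : p 2 + (-(s / 2 * p 2) + -(s / 2 * p 1)) * (s / 2)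
          = p 2 - (s * s / 4) * (p 1 + p 2) := by ring
      rw [this, s2]
      have : s / 2 * (s / 2 * p 1 - s / 2 * p 2) = (s * s / 4) * (p 1 - p 2) := by ring
      rw [this, s2]; ring
  have step2 : Cl p1 p2 := by
    refine Cl_Tc h23 p1 ?_
    rw [z23, norm_c, norm_c]
    congr 1
    have hpq : p ⬝ᵥ p = q ⬝ᵥ q := by rw [← len_sq, ← len_sq, h]
    rw [dot_eq, dot_eq] at hpq
    have g1 := hra p
    have g2 := hra q
    rw [hp1]
    simp only [Matrix.cons_val_zero, Matrix.cons_val_one, Matrix.cons_val]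
    have : s / 2 * (s / 2 * (s / 2 * p 1 - s / 2 * p 2)) - s / 2 * -(s / 2 * (s / 2 * p 1 - s / 2 * p 2))
        = (s * s / 2) * (s / 2 * p 1 - s / 2 * p 2) := by ring
    rw [this, s2]
    have e1 : ∀ v : V, (s / 2 * v 1 + s / 2 * v 2) ^ 2 + (s / 2 * v 1 - s / 2 * v 2) ^ 2
        = (s * s / 2) * (v 1 * v 1 + v 2 * v 2) := by intro v; ring
    have e2 := e1 p
    have e3 := e1 q
    rw [s2] at e2 e3
    nlinarith
  let p3 : V := Tc 0 1 p2 ⟨q 0, s / 2 * q 1 + s / 2 * q 2⟩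
  have hp2 : p2 = ![ra q, s / 2 * (s / 2 * q 1 - s / 2 * q 2), -(s / 2 * (s / 2 * q 1 - s / 2 * q 2))] := by
    simp only [p2, Tc, e23, f23, hp1, dot_eq]
    ext i
    fin_cases i
    · simp
    · simp
      have : s / 2 * (s / 2 * (s / 2 * p 1 - s / 2 * p 2)) + s / 2 * (s / 2 * (s / 2 * p 1 - s / 2 * p 2))
        = (s * s / 2) * (s / 2 * p 1 - s / 2 * p 2) := by ring
      rw [this, s2]
      ring
    · simp
      have : s / 2 * (s / 2 * (s / 2 * p 1 - s / 2 * p 2)) + s / 2 * (s / 2 * (s / 2 * p 1 - s / 2 * p 2))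
        = (s * s / 2) * (s / 2 * p 1 - s / 2 * p 2) := by ring
      rw [this, s2]
      ring
  have step3 : Cl p2 p3 := by
    refine Cl_Tc h01 p2 ?_
    rw [z01, norm_c, norm_c, hp2]
    congr 1
    simp only [Matrix.cons_val_zero, Matrix.cons_val_one, Matrix.cons_val, hra]; ring
  have hp3 : p3 = q := by
    simp only [p3, Tc, e01, f01, hp2, dot_eq]
    ext i
    fin_cases i
    · simp
    · simp
      have : s / 2 * (s / 2 * q 1 - s / 2 * q 2) + (s / 2 * q 1 + s / 2 * q 2) * (s / 2)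
          = (s * s / 2) * q 1 := by ring
      rw [this, s2]; ring
    · simp
      have : -(s / 2 * (s / 2 * q 1 - s / 2 * q 2)) + (s / 2 * q 1 + s / 2 * q 2) * (s / 2)
          = (s * s / 2) * q 2 := by ring
      rw [this, s2]; ring
  rw [hp3] at step3
  exact (step1.trans step2).trans step3

end Pool.Agent.Lib.MP_121189_an
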