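import Pool.Agent.Lib.MP_121189_an.H51Meas

set_option autoImplicit false

open MeasureTheory Set

namespace Pool.Agent.Lib.MP_121189_an

/-- Cross product. -/
def cr (a b : V) : V := ![a 1 * b 2 - a 2 * b 1, a 2 * b 0 - a 0 * b 2, a 0 * b 1 - a 1 * b 0]

theorem cr_dot_left (a b : V) : cr a b ⬝ᵥ a = 0 := by
  simp only [dot_eq, cr]; simp; ring

theorem cr_dot_right (a b : V) : cr a b ⬝ᵥ b = 0 := by
  simp only [dot_eq, cr]; simp; ring

/-- Lagrange identity. -/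
theorem cr_dot_cr (a b c d : V) :
    cr a b ⬝ᵥ cr c d = (a ⬝ᵥ c) * (b ⬝ᵥ d) - (a ⬝ᵥ d) * (b ⬝ᵥ c) := by
  simp only [dot_eq, cr]; simp; ring

theorem cr_cr (a b c : V) : cr a (cr b c) = (a ⬝ᵥ c) • b - (a ⬝ᵥ b) • c := by
  ext i
  simp only [dot_eq, cr]
  fin_cases i <;> simp <;> ring

/-- Volume of a parallelepiped given by three slabs. -/
theorem slab3 (a b c : V) (D : ℝ) (hD : Matrix.det (Matrix.of ![a, b, c]) = D) (hD0 : D ≠ 0)
    (c1 c2 c3 K1 K2 K3 : ℝ) :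
    volume {v : V | |a ⬝ᵥ v - c1| ≤ K1 ∧ |b ⬝ᵥ v - c2| ≤ K2 ∧ |c ⬝ᵥ v - c3| ≤ K3}
      ≤ ENNReal.ofReal |D⁻¹| * (ENNReal.ofReal (2 * K1) * ENNReal.ofReal (2 * K2)
        * ENNReal.ofReal (2 * K3)) := by
  set f : V →ₗ[ℝ] V := Matrix.toLin' (Matrix.of ![a, b, c]) with hf
  have hdet : LinearMap.det f = D := by rw [hf, LinearMap.det_toLin', hD]
  have hsub : {v : V | |a ⬝ᵥ v - c1| ≤ K1 ∧ |b ⬝ᵥ v - c2| ≤ K2 ∧ |c ⬝ᵥ v - c3| ≤ K3}
      ⊆ f ⁻¹' Icc ![c1 - K1, c2 - K2, c3 - K3] ![c1 + K1, c2 + K2, c3 + K3] := by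
    intro v hv
    obtain ⟨h1, h2, h3⟩ := hv
    rw [abs_le] at h1 h2 h3
    have e0 : f v 0 = a ⬝ᵥ v := by simp [hf, Matrix.toLin'_apply, Matrix.mulVec]
    have e1 : f v 1 = b ⬝ᵥ v := by simp [hf, Matrix.toLin'_apply, Matrix.mulVec]
    have e2 : f v 2 = c ⬝ᵥ v := by simp [hf, Matrix.toLin'_apply, Matrix.mulVec]
    constructor
    · intro i
      fin_cases i
      · simp only [Fin.zero_eta]; rw [e0]; simp; linarith
      · simp only [Fin.mk_one]; rw [e1]; simp; linarith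
      · simp only [Fin.reduceFinMk]; rw [e2]; simp; linarith
    · intro i
      fin_cases i
      · simp only [Fin.zero_eta]; rw [e0]; simp; linarith
      · simp only [Fin.mk_one]; rw [e1]; simp; linarith
      · simp only [Fin.reduceFinMk]; rw [e2]; simp; linarith
  refine (measure_mono hsub).trans ?_
  rw [Measure.addHaar_preimage_linearMap volume (by rw [hdet]; exact hD0), hdet,
    Real.volume_Icc_pi, Fin.prod_univ_three]
  simp only [Matrix.cons_val_zero, Matrix.cons_val_one, Matrix.cons_val]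
  refine le_of_eq ?_
  congr 2
  · congr 1
    · congr 1; ring
    · congr 1; ring
  · congr 1; ring

theorem det_cr (a b : V) : Matrix.det (Matrix.of ![a, b, cr a b]) = cr a b ⬝ᵥ cr a b := by
  rw [Matrix.det_fin_three]
  simp only [dot_eq, cr]; simp; ring

theorem len_le_one_dot (a v : V) (hv : len v < 1) : |a ⬝ᵥ v| ≤ len a :=
  (abs_dot_le a v).trans (by nlinarith [len_nonneg a])

/-- Two transversal slabs. -/
theorem slab2 (a b : V) (h : cr a b ≠ 0) {K : ℝ} (hK : 0 ≤ K) :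
    volume {v : V | len v < 1 ∧ |a ⬝ᵥ v| ≤ K ∧ |b ⬝ᵥ v| ≤ K}
      ≤ ENNReal.ofReal (8 * K ^ 2 / len (cr a b)) := by
  have hp := len_pos h
  have hd : cr a b ⬝ᵥ cr a b = len (cr a b) ^ 2 := (len_sq _).symm
  have h1 := slab3 a b (cr a b) _ (det_cr a b) (by rw [hd]; positivity) 0 0 0 K K (len (cr a b))
  have hsub : {v : V | len v < 1 ∧ |a ⬝ᵥ v| ≤ K ∧ |b ⬝ᵥ v| ≤ K} ⊆
      {v : V | |a ⬝ᵥ v - 0| ≤ K ∧ |b ⬝ᵥ v - 0| ≤ K ∧ |cr a b ⬝ᵥ v - 0| ≤ len (cr a b)} := by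
    rintro v ⟨h1, h2, h3⟩
    simp only [sub_zero]
    exact ⟨h2, h3, len_le_one_dot _ _ h1⟩
  refine (measure_mono hsub).trans (h1.trans (le_of_eq ?_))
  rw [hd, abs_of_nonneg (by positivity), ← ENNReal.ofReal_mul (by positivity),
    ← ENNReal.ofReal_mul (by positivity), ← ENNReal.ofReal_mul (by positivity)]
  congr 1
  field_simp
  ring

/-- A vector orthogonal to a given one. -/
theorem exists_orth (b : V) (hb : b ≠ 0) : ∃ d : V, d ≠ 0 ∧ b ⬝ᵥ d = 0 := by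
  by_cases h : cr b (N 0) = 0
  · refine ⟨cr b (N 1), fun h' => hb ?_, by rw [dotProduct_comm, cr_dot_left]⟩
    have e0 := congrFun h 0
    have e1 := congrFun h 1
    have e2 := congrFun h 2
    have f0 := congrFun h' 0
    have f1 := congrFun h' 1
    have f2 := congrFun h' 2
    simp [cr, N] at e0 e1 e2 f0 f1 f2
    ext i
    fin_cases i <;> simp <;> linarith
  · exact ⟨cr b (N 0), h, by rw [dotProduct_comm, cr_dot_left]⟩

/-- One slab. -/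
theorem slab1 (b : V) (h : b ≠ 0) {K : ℝ} (hK : 0 ≤ K) :
    volume {v : V | len v < 1 ∧ |b ⬝ᵥ v| ≤ K} ≤ ENNReal.ofReal (8 * K / len b) := by
  obtain ⟨d, hd0, hbd⟩ := exists_orth b h
  have hp := len_pos h
  have hq := len_pos hd0
  have hd : cr b d ⬝ᵥ cr b d = len b ^ 2 * len d ^ 2 := by
    rw [cr_dot_cr, hbd, len_sq, len_sq]; ring
  have hl : len (cr b d) = len b * len d := by
    have : len (cr b d) ^ 2 = (len b * len d) ^ 2 := by rw [len_sq, hd]; ring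
    exact (sq_eq_sq₀ (len_nonneg _) (by positivity)).mp this
  have h1 := slab3 b d (cr b d) _ (det_cr b d) (by rw [hd]; positivity) 0 0 0 K (len d)
    (len b * len d)
  have hsub : {v : V | len v < 1 ∧ |b ⬝ᵥ v| ≤ K} ⊆
      {v : V | |b ⬝ᵥ v - 0| ≤ K ∧ |d ⬝ᵥ v - 0| ≤ len d ∧ |cr b d ⬝ᵥ v - 0| ≤ len b * len d} := by
    rintro v ⟨h1, h2⟩
    simp only [sub_zero]
    refine ⟨h2, len_le_one_dot _ _ h1, ?_⟩
    rw [← hl]
    exact len_le_one_dot _ _ h1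
  refine (measure_mono hsub).trans (h1.trans (le_of_eq ?_))
  rw [hd, abs_of_nonneg (by positivity), ← ENNReal.ofReal_mul (by positivity),
    ← ENNReal.ofReal_mul (by positivity), ← ENNReal.ofReal_mul (by positivity)]
  congr 1
  field_simp
  ring

/-! ### Edge lines -/

/-- An affine line given by two functionals with the Gram matrix of two face normals. -/
structure Line where
  n : V
  n' : V
  c : ℝ
  c' : ℝ
  hn : n ⬝ᵥ n = 3
  hn' : n' ⬝ᵥ n' = 3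
  hnn : n ⬝ᵥ n' = -1

namespace Line

variable (ℓ : Line)

def al (x : V) : ℝ := ℓ.n ⬝ᵥ x - ℓ.c
def al' (x : V) : ℝ := ℓ.n' ⬝ᵥ x - ℓ.c'
def set : Set V := {x | ℓ.al x = 0 ∧ ℓ.al' x = 0}
def b (x : V) : V := ℓ.al x • ℓ.n' - ℓ.al' x • ℓ.n

theorem b_sq (x : V) : ℓ.b x ⬝ᵥ ℓ.b x = 3 * ℓ.al x ^ 2 + 3 * ℓ.al' x ^ 2 + 2 * (ℓ.al x * ℓ.al' x) := by
  have h : ℓ.n' ⬝ᵥ ℓ.n = -1 := by rw [dotProduct_comm]; exact ℓ.hnn
  simp only [b, sub_dotProduct, dotProduct_sub, smul_dotProduct, dotProduct_smul, smul_eq_mul,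
    ℓ.hn, ℓ.hn', ℓ.hnn, h]
  ring

theorem al_le (x : V) : |ℓ.al x| ≤ len (ℓ.b x) ∧ |ℓ.al' x| ≤ len (ℓ.b x) := by
  have h := ℓ.b_sq x
  constructor <;> apply abs_le_of_sq_le_sq _ (len_nonneg _) <;> rw [len_sq, h] <;>
    nlinarith [sq_nonneg (ℓ.al x + ℓ.al' x), sq_nonneg (ℓ.al x), sq_nonneg (ℓ.al' x)]

theorem b_eq_zero {x : V} : ℓ.b x = 0 ↔ x ∈ ℓ.set := by
  constructor
  · intro h
    have h1 := ℓ.al_le x
    rw [h, len_zero] at h1
    exact ⟨abs_eq_zero.mp (le_antisymm h1.1 (abs_nonneg _)),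
      abs_eq_zero.mp (le_antisymm h1.2 (abs_nonneg _))⟩
  · rintro ⟨h1, h2⟩
    simp [b, h1, h2]

theorem continuous_al : Continuous ℓ.al := (continuous_dot _).sub continuous_const
theorem continuous_al' : Continuous ℓ.al' := (continuous_dot _).sub continuous_const
theorem continuous_b : Continuous ℓ.b :=
  (ℓ.continuous_al.smul continuous_const).sub (ℓ.continuous_al'.smul continuous_const)

theorem al_sub (x y : V) : ℓ.al x - ℓ.al y = ℓ.n ⬝ᵥ (x - y) := by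
  simp only [al, dotProduct_sub]; ring

theorem al'_sub (x y : V) : ℓ.al' x - ℓ.al' y = ℓ.n' ⬝ᵥ (x - y) := by
  simp only [al', dotProduct_sub]; ring

theorem al_add (x y : V) : ℓ.al (x + y) = ℓ.al x + ℓ.n ⬝ᵥ y := by
  simp only [al, dotProduct_add]; ring

theorem al'_add (x y : V) : ℓ.al' (x + y) = ℓ.al' x + ℓ.n' ⬝ᵥ y := by
  simp only [al', dotProduct_add]; ring

/-- The line lies in the plane through `x` with normal `b x`. -/
theorem b_orth (x : V) {e : V} (he : e ∈ ℓ.set) : ℓ.b x ⬝ᵥ (e - x) = 0 := by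
  have h1 := ℓ.al_sub e x
  have h2 := ℓ.al'_sub e x
  rw [he.1] at h1
  rw [he.2] at h2
  simp only [b, sub_dotProduct, smul_dotProduct, smul_eq_mul, ← h1, ← h2]
  ring

theorem len_n : len ℓ.n = Real.sqrt 3 := by rw [len, ℓ.hn]
theorem len_n' : len ℓ.n' = Real.sqrt 3 := by rw [len, ℓ.hn']

theorem near_al {y e : V} {r : ℝ} (he : e ∈ ℓ.set) (h : len (y - e) < r) :
    |ℓ.al y| ≤ Real.sqrt 3 * r ∧ |ℓ.al' y| ≤ Real.sqrt 3 * r := by
  have h1 := ℓ.al_sub y e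
  have h2 := ℓ.al'_sub y e
  rw [he.1, sub_zero] at h1
  rw [he.2, sub_zero] at h2
  rw [h1, h2]
  have h3 := Real.sqrt_nonneg 3
  constructor
  · refine (abs_dot_le _ _).trans ?_
    rw [ℓ.len_n]; exact mul_le_mul_of_nonneg_left h.le h3
  · refine (abs_dot_le _ _).trans ?_
    rw [ℓ.len_n']; exact mul_le_mul_of_nonneg_left h.le h3

/-- Passing within `r` of the line forces `b x ⬝ v` to be small. -/
theorem near_slab {x v e : V} {s r : ℝ} (hv : len v < 1) (he : e ∈ ℓ.set)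
    (h : len (x + s • v - e) < r) : |ℓ.b x ⬝ᵥ v| ≤ 6 * r := by
  obtain ⟨h1, h2⟩ := ℓ.near_al he h
  have e1 : ℓ.b x ⬝ᵥ v = ℓ.al (x + s • v) * (ℓ.n' ⬝ᵥ v) - ℓ.al' (x + s • v) * (ℓ.n ⬝ᵥ v) := by
    rw [ℓ.al_add, ℓ.al'_add, dotProduct_smul, dotProduct_smul]
    simp only [b, sub_dotProduct, smul_dotProduct, smul_eq_mul]
    ring
  have h3 := len_le_one_dot ℓ.n v hv
  have h4 := len_le_one_dot ℓ.n' v hv
  rw [ℓ.len_n] at h3
  rw [ℓ.len_n'] at h4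
  have hs : Real.sqrt 3 * Real.sqrt 3 = 3 := Real.mul_self_sqrt (by norm_num)
  have hr : 0 ≤ r := (len_nonneg _).trans h.le
  have hs0 := Real.sqrt_nonneg 3
  rw [e1]
  calc |ℓ.al (x + s • v) * (ℓ.n' ⬝ᵥ v) - ℓ.al' (x + s • v) * (ℓ.n ⬝ᵥ v)|
      ≤ |ℓ.al (x + s • v) * (ℓ.n' ⬝ᵥ v)| + |ℓ.al' (x + s • v) * (ℓ.n ⬝ᵥ v)| := abs_sub _ _
    _ ≤ (Real.sqrt 3 * r) * Real.sqrt 3 + (Real.sqrt 3 * r) * Real.sqrt 3 := by
        rw [abs_mul, abs_mul]
        exact add_le_add (mul_le_mul h1 h4 (abs_nonneg _) (by positivity))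
          (mul_le_mul h2 h3 (abs_nonneg _) (by positivity))
    _ = 6 * r := by
        have : (Real.sqrt 3 * r) * Real.sqrt 3 = (Real.sqrt 3 * Real.sqrt 3) * r := by ring
        rw [this, hs]; ring

theorem det_line : Matrix.det (Matrix.of ![ℓ.n, ℓ.n', cr ℓ.n ℓ.n']) = 8 := by
  rw [det_cr, cr_dot_cr, ℓ.hn, ℓ.hn', dotProduct_comm ℓ.n' ℓ.n, ℓ.hnn]; norm_num

/-- Tube around the line inside the tetrahedron. -/
theorem tube {K : ℝ} (hK : 0 ≤ K) :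
    volume {x : V | InT x ∧ |ℓ.al x| ≤ K ∧ |ℓ.al' x| ≤ K} ≤ ENNReal.ofReal (5 * K ^ 2) := by
  have h1 := slab3 ℓ.n ℓ.n' (cr ℓ.n ℓ.n') 8 ℓ.det_line (by norm_num) ℓ.c ℓ.c' 0 K K 5
  have hsub : {x : V | InT x ∧ |ℓ.al x| ≤ K ∧ |ℓ.al' x| ≤ K} ⊆
      {v : V | |ℓ.n ⬝ᵥ v - ℓ.c| ≤ K ∧ |ℓ.n' ⬝ᵥ v - ℓ.c'| ≤ K ∧ |cr ℓ.n ℓ.n' ⬝ᵥ v - 0| ≤ 5} := by
    rintro x ⟨h1, h2, h3⟩
    refine ⟨h2, h3, ?_⟩
    rw [sub_zero]
    apply abs_le_of_sq_le_sq _ (by norm_num)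
    refine (dot_sq_le _ _).trans ?_
    rw [cr_dot_cr, ℓ.hn, ℓ.hn', dotProduct_comm ℓ.n' ℓ.n, ℓ.hnn]
    have := h1.len_le
    nlinarith
  refine (measure_mono hsub).trans (h1.trans (le_of_eq ?_))
  rw [← ENNReal.ofReal_mul (by positivity), ← ENNReal.ofReal_mul (by positivity),
    ← ENNReal.ofReal_mul (by positivity)]
  congr 1
  rw [abs_of_pos (by norm_num)]
  ring

end Line

end Pool.Agent.Lib.MP_121189_an
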