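import Pool.Agent.Lib.MP_121189_an.H51Erg
import Pool.Agent.Lib.MP_121189_an.H51Double

set_option autoImplicit false

open MeasureTheory Set Filter Topology

namespace Pool.Agent.Lib.MP_121189_an

/-- Consequence of the variation hypothesis and of the main inequality. -/
theorem X_small {A : Set (V × V)} (hA : Inv A) (hm : MeasurableSet A) {C : ENNReal} (hC : C ≠ ⊤)
    (hV : ∃ᶠ c in 𝓝[>] (0 : ℝ), M A c ≤ C * ENNReal.ofReal c) {η ε δ : ℝ} (hη : 0 < η)
    (hε : 0 < ε) (hδ : 0 < δ) :
    ∃ r, 0 < r ∧ r < δ ∧ X A η r ≤ ENNReal.ofReal (ε * r) := by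
  set C' := C.toReal with hC'
  have hC0 : 0 ≤ C' := ENNReal.toReal_nonneg
  have hCeq : C = ENNReal.ofReal C' := (ENNReal.ofReal_toReal hC).symm
  set t : ℝ := 8 * C' / ε + 1 with ht
  have ht0 : 0 < t := by positivity
  have hB0 := volume_B1_pos.ne'
  have hB1 := volume_B1_ne_top
  have hκ : (0 : ENNReal) < ENNReal.ofReal (ε / 2) / volume B1 :=
    ENNReal.div_pos (by rw [Ne, ENNReal.ofReal_eq_zero, not_le]; linarith) hB1
  have h1 : ∀ᶠ r in 𝓝[>] (0 : ℝ), volume (DB t r) / ENNReal.ofReal r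
      < ENNReal.ofReal (ε / 2) / volume B1 := (DB_tendsto t).eventually (gt_mem_nhds hκ)
  have h2 : ∀ᶠ r in 𝓝[>] (0 : ℝ), 0 < r := self_mem_nhdsWithin
  have h3 : ∀ᶠ r in 𝓝[>] (0 : ℝ), r < δ := (gt_mem_nhds hδ).filter_mono nhdsWithin_le_nhds
  have h4 : ∀ᶠ r in 𝓝[>] (0 : ℝ), r < η / 2 :=
    (gt_mem_nhds (by positivity)).filter_mono nhdsWithin_le_nhds
  have h5 := h1.and (h2.and (h3.and h4))
  have htend : Tendsto (fun c : ℝ => t * c) (𝓝[>] 0) (𝓝[>] 0) := by
    refine tendsto_nhdsWithin_iff.mpr ⟨?_, ?_⟩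
    · have : Tendsto (fun c : ℝ => t * c) (𝓝 0) (𝓝 (t * 0)) := (continuous_const_mul t).tendsto 0
      rw [mul_zero] at this
      exact this.mono_left nhdsWithin_le_nhds
    · filter_upwards [self_mem_nhdsWithin] with c hc
      exact mul_pos ht0 hc
  obtain ⟨c, hc1, hc2, hc3, hc4, hc5⟩ := (hV.and_eventually (htend.eventually h5)).exists
  refine ⟨t * c, hc3, hc4, ?_⟩
  have hcpos : 0 < c := by
    by_contra hcon
    push Not at hcon
    have := mul_nonpos_of_nonneg_of_nonpos ht0.le hcon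
    linarith
  have g1 := main_ineq hA hm (η := η) (r := t * c) (t := t) (by
    have : Real.sqrt 3 ≤ 2 := by rw [Real.sqrt_le_left (by norm_num)]; norm_num
    nlinarith) hc3 ht0
  refine g1.trans ?_
  rw [inv_mul_cancel_left₀ ht0.ne']
  have g2 : 4 * M A c ≤ ENNReal.ofReal (ε / 2 * (t * c)) := by
    calc 4 * M A c ≤ 4 * (C * ENNReal.ofReal c) := mul_le_mul_right hc1 _
      _ = ENNReal.ofReal (4 * (C' * c)) := by
          rw [hCeq, ENNReal.ofReal_mul (by norm_num), ENNReal.ofReal_mul hC0]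
          norm_num
      _ ≤ ENNReal.ofReal (ε / 2 * (t * c)) := by
          apply ENNReal.ofReal_le_ofReal
          have : ε / 2 * (t * c) = 4 * (C' * c) + ε / 2 * c := by
            rw [ht]; field_simp; ring
          rw [this]
          have : 0 ≤ ε / 2 * c := by positivity
          linarith
  have g3 : volume (DB t (t * c)) * volume B1 ≤ ENNReal.ofReal (ε / 2 * (t * c)) := by
    have g4 : volume (DB t (t * c)) ≤ ENNReal.ofReal (ε / 2) / volume B1 * ENNReal.ofReal (t * c) := by
      have := hc2.le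
      rw [ENNReal.div_le_iff_le_mul] at this
      · exact this
      · left; rw [Ne, ENNReal.ofReal_eq_zero, not_le]; exact hc3
      · left; exact ENNReal.ofReal_ne_top
    calc volume (DB t (t * c)) * volume B1
        ≤ ENNReal.ofReal (ε / 2) / volume B1 * ENNReal.ofReal (t * c) * volume B1 :=
          mul_le_mul_left g4 _
      _ = ENNReal.ofReal (ε / 2) * ENNReal.ofReal (t * c) := by
          rw [mul_right_comm, ENNReal.div_mul_cancel hB0 hB1]
      _ = ENNReal.ofReal (ε / 2 * (t * c)) := (ENNReal.ofReal_mul (by positivity)).symm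
  refine (add_le_add g2 g3).trans ?_
  rw [← ENNReal.ofReal_add (by positivity) (by positivity)]
  apply ENNReal.ofReal_le_ofReal
  linarith

/-- Ball of radius one half. -/
def Bh : Set V := {ξ | len ξ < 1 / 2}

theorem isOpen_Bh : IsOpen Bh := isOpen_lt continuous_len continuous_const

theorem volume_Bh_pos : 0 < volume Bh :=
  isOpen_Bh.measure_pos volume ⟨0, by simp [Bh, len_zero]⟩

theorem N_dot_le (j : Fin 4) (h : V) : |N j ⬝ᵥ h| ≤ Real.sqrt 3 * len h := by
  have h1 := abs_dot_le (N j) h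
  have h2 : len (N j) = Real.sqrt 3 := by rw [len, N_dot_self]
  rwa [h2] at h1

theorem mp_shift (h : V) :
    MeasurePreserving (fun p : V × V => (p.1 + h, p.2)) volume volume :=
  (measurePreserving_add_right volume h).prod (MeasurePreserving.id _)

theorem measurableSet_Sx {A : Set (V × V)} (hm : MeasurableSet A) (η : ℝ) (h : V) :
    MeasurableSet (Sx A η h) := by
  have h1 : MeasurableSet {q : V × V | (∀ j, -1 + η < N j ⬝ᵥ q.1)} := by
    have : {q : V × V | (∀ j, -1 + η < N j ⬝ᵥ q.1)}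
        = ⋂ j, {q : V × V | -1 + η < N j ⬝ᵥ q.1} := by ext; simp
    rw [this]
    refine MeasurableSet.iInter fun j => measurableSet_lt measurable_const ?_
    exact (continuous_dot (N j)).measurable.comp measurable_fst
  have h1' : MeasurableSet {q : V × V | len q.2 < 1} :=
    measurableSet_lt (continuous_len.measurable.comp measurable_snd) measurable_const
  have h3 : MeasurableSet {q : V × V | (q.1 + h, q.2) ∈ A} := (mp_shift h).measurable hm
  have : Sx A η h = {q : V × V | (∀ j, -1 + η < N j ⬝ᵥ q.1)} ∩ ({q : V × V | len q.2 < 1} ∩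
      ((A ∩ {q : V × V | (q.1 + h, q.2) ∈ A}) ∪ (Aᶜ ∩ {q : V × V | (q.1 + h, q.2) ∈ A}ᶜ))ᶜ) := by
    ext q
    simp only [Sx, mem_ofPred_eq, mem_inter_iff, mem_compl_iff, mem_union]
    tauto
  rw [this]
  exact h1.inter (h1'.inter ((hm.inter h3).union (hm.compl.inter h3.compl)).compl)

theorem Sx_add {A : Set (V × V)} (hm : MeasurableSet A) {η η₁ η₂ : ℝ} {a b : V}
    (h1 : η₁ ≤ η) (h2 : η₂ + Real.sqrt 3 * len a ≤ η) :
    volume (Sx A η (a + b)) ≤ volume (Sx A η₁ a) + volume (Sx A η₂ b) := by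
  rw [← (mp_shift a).measure_preimage (measurableSet_Sx hm η₂ b).nullMeasurableSet]
  refine (measure_mono ?_).trans (measure_union_le _ _)
  rintro ⟨x, v⟩ ⟨hx, hv, hne⟩
  simp only at hx hv hne
  by_cases h : ((x, v) ∈ A ↔ (x + a, v) ∈ A)
  · right
    refine ⟨fun j => ?_, hv, ?_⟩
    · have := (abs_le.mp (N_dot_le j a)).1
      have := hx j
      simp only [dotProduct_add]
      linarith
    · simp only
      rw [← h, add_assoc]
      exact hne
  · left
    exact ⟨fun j => by have := hx j; simp only; linarith, hv, h⟩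

/-- From the mean to every small displacement. -/
theorem Sx_le_mean {A : Set (V × V)} (hm : MeasurableSet A) {η η' r : ℝ} (hr : 0 < r)
    (hη : η + Real.sqrt 3 * (r / 2) ≤ η') {h : V} (hh : len h ≤ r / 2) :
    volume Bh * volume (Sx A η' h) ≤ 2 * X A η r := by
  have hs3 : 0 ≤ Real.sqrt 3 := Real.sqrt_nonneg _
  have hpt : ∀ ξ ∈ Bh, volume (Sx A η' h) ≤
      volume (Sx A η (r • ξ)) + volume (Sx A η (r • (r⁻¹ • h - ξ))) := by
    intro ξ hξ
    have hξ' : len ξ < 1 / 2 := hξ
    have e : h = r • ξ + r • (r⁻¹ • h - ξ) := by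
      rw [smul_sub, smul_smul, mul_inv_cancel₀ hr.ne', one_smul]; abel
    conv_lhs => rw [e]
    have hl : len (r • ξ) ≤ r / 2 := by
      rw [len_smul, abs_of_pos hr]; nlinarith
    refine Sx_add hm ?_ ?_
    · nlinarith [mul_nonneg hs3 (half_pos hr).le]
    · have := mul_le_mul_of_nonneg_left hl hs3
      linarith
  have hBm : MeasurableSet Bh := isOpen_Bh.measurableSet
  calc volume Bh * volume (Sx A η' h) = ∫⁻ ξ in Bh, volume (Sx A η' h) := by
        rw [setLIntegral_const, mul_comm]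
    _ ≤ ∫⁻ ξ in Bh, (volume (Sx A η (r • ξ)) + volume (Sx A η (r • (r⁻¹ • h - ξ)))) :=
        setLIntegral_mono' hBm hpt
    _ = (∫⁻ ξ in Bh, volume (Sx A η (r • ξ))) +
        ∫⁻ ξ in Bh, volume (Sx A η (r • (r⁻¹ • h - ξ))) := by
        refine lintegral_add_left ?_ _
        have := measurable_vol_Sx hm η (f := fun ξ : V => r • ξ) (by fun_prop) univ
          MeasurableSet.univ
        simpa using this
    _ ≤ X A η r + X A η r := by
        refine add_le_add ?_ ?_
        · refine lintegral_mono_set ?_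
          intro ξ hξ
          have hξ' : len ξ < 1 / 2 := hξ
          show len ξ < 1
          linarith
        · have hmp : MeasurePreserving (fun ξ : V => r⁻¹ • h - ξ) volume volume :=
            Measure.measurePreserving_sub_left volume _
          have hg : Measurable fun ξ : V => volume (Sx A η (r • ξ)) := by
            have := measurable_vol_Sx hm η (f := fun ξ : V => r • ξ) (by fun_prop) univ
              MeasurableSet.univ
            simpa using this
          have h1 := hmp.setLIntegral_comp_preimage measurableSet_B1 hg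
          unfold X
          rw [← h1]
          refine lintegral_mono_set ?_
          intro ξ hξ
          have hξ' : len ξ < 1 / 2 := hξ
          show len (r⁻¹ • h - ξ) < 1
          rw [sub_eq_add_neg]
          refine (len_add_le _ _).trans_lt ?_
          rw [len_neg, len_smul, abs_of_pos (inv_pos.mpr hr)]
          have : r⁻¹ * len h ≤ 1 / 2 := by
            rw [inv_mul_le_iff₀ hr]; linarith
          linarith
    _ = 2 * X A η r := (two_mul _).symm

theorem Sx_mul {A : Set (V × V)} (hm : MeasurableSet A) {η : ℝ} (h : V) (n : ℕ) :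
    ∀ η', η + Real.sqrt 3 * (n * len h) ≤ η' →
      volume (Sx A η' ((n : ℝ) • h)) ≤ n * volume (Sx A η h) := by
  induction n with
  | zero =>
    intro η' _
    have : Sx A η' (((0 : ℕ) : ℝ) • h) = ∅ := by
      ext p; simp [Sx]
    rw [this]; simp
  | succ n ih =>
    intro η' hη'
    have hs3 : 0 ≤ Real.sqrt 3 := Real.sqrt_nonneg _
    have hl := len_nonneg h
    have hn : (0 : ℝ) ≤ n := Nat.cast_nonneg n
    have e : ((n + 1 : ℕ) : ℝ) • h = (n : ℝ) • h + h := by
      push_cast; rw [add_smul, one_smul]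
    rw [e]
    push_cast at hη' ⊢
    rw [add_mul, one_mul]
    refine (Sx_add hm (η₁ := η') (η₂ := η) le_rfl ?_).trans (add_le_add (ih η' ?_) le_rfl)
    · rw [len_smul, abs_of_nonneg hn]
      nlinarith [mul_nonneg hs3 hl]
    · nlinarith [mul_nonneg hs3 hl]

/-- Small displacements do not change membership. -/
theorem Sx_null {A : Set (V × V)} (hA : Inv A) (hm : MeasurableSet A) {C : ENNReal} (hC : C ≠ ⊤)
    (hV : ∃ᶠ c in 𝓝[>] (0 : ℝ), M A c ≤ C * ENNReal.ofReal c) {η : ℝ} (hη : 0 < η) {H : V}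
    (hH : Real.sqrt 3 * len H ≤ η / 3) : volume (Sx A η H) = 0 := by
  by_contra hne
  have hBfin : volume Bh ≠ ⊤ := by
    refine ne_top_of_le_ne_top volume_B1_ne_top (measure_mono ?_)
    intro ξ hξ
    have hξ' : len ξ < 1 / 2 := hξ
    show len ξ < 1
    linarith
  have hB := volume_Bh_pos.ne'
  have hlH := len_nonneg H
  -- the quantity to contradict
  obtain ⟨a, ha, haa⟩ : ∃ a : ℝ, 0 < a ∧ ENNReal.ofReal a ≤ volume Bh * volume (Sx A η H) := by
    have hpos : 0 < volume Bh * volume (Sx A η H) := ENNReal.mul_pos hB hne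
    obtain ⟨b, hb1, hb2⟩ := ENNReal.lt_iff_exists_nnreal_btwn.mp hpos
    refine ⟨b, ?_, ?_⟩
    · exact_mod_cast hb1
    · rw [ENNReal.ofReal_coe_nnreal]; exact hb2.le
  set ε : ℝ := a / (8 * (len H + 1)) with hε
  have hεpos : 0 < ε := by positivity
  obtain ⟨r, hr, hr1, hr2⟩ := X_small hA hm hC hV (η := η / 3) (by positivity) hεpos
    (δ := min 1 (η / 3)) (lt_min one_pos (by positivity))
  have hra : r < 1 := hr1.trans_le (min_le_left _ _)
  have hrb : r < η / 3 := hr1.trans_le (min_le_right _ _)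
  set n : ℕ := ⌈2 * len H / r⌉₊ + 1 with hn
  have hn0 : (0 : ℝ) < n := by rw [hn]; positivity
  have hn1 : 2 * len H / r ≤ n := by
    rw [hn]; push_cast
    linarith [Nat.le_ceil (2 * len H / r)]
  have hn2 : (n : ℝ) ≤ 2 * len H / r + 2 := by
    rw [hn]; push_cast
    linarith [Nat.ceil_lt_add_one (show 0 ≤ 2 * len H / r by positivity)]
  set h : V := (n : ℝ)⁻¹ • H with hh
  have hlen : len h = len H / n := by
    rw [hh, len_smul, abs_of_pos (inv_pos.mpr hn0)]; field_simp
  have hlen2 : len h ≤ r / 2 := by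
    rw [hlen, div_le_iff₀ hn0]
    rw [div_le_iff₀ hr] at hn1
    linarith
  have hnh : (n : ℝ) • h = H := by rw [hh, smul_smul, mul_inv_cancel₀ hn0.ne', one_smul]
  have g1 : volume (Sx A η H) ≤ n * volume (Sx A (2 * η / 3) h) := by
    have := Sx_mul hm (η := 2 * η / 3) h n η (by
      rw [hlen]
      have : (n : ℝ) * (len H / n) = len H := by field_simp
      rw [this]; linarith)
    rwa [hnh] at this
  have g2 : volume Bh * volume (Sx A (2 * η / 3) h) ≤ 2 * X A (η / 3) r := by
    refine Sx_le_mean hm hr ?_ hlen2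
    have : Real.sqrt 3 ≤ 2 := by rw [Real.sqrt_le_left (by norm_num)]; norm_num
    nlinarith
  have g3 : ENNReal.ofReal a ≤ ENNReal.ofReal (n * (2 * (ε * r))) := by
    calc ENNReal.ofReal a ≤ volume Bh * volume (Sx A η H) := haa
      _ ≤ volume Bh * (n * volume (Sx A (2 * η / 3) h)) := mul_le_mul_right g1 _
      _ = n * (volume Bh * volume (Sx A (2 * η / 3) h)) := by ring
      _ ≤ n * (2 * X A (η / 3) r) := mul_le_mul_right g2 _
      _ ≤ n * (2 * ENNReal.ofReal (ε * r)) := mul_le_mul_right (mul_le_mul_right hr2 _) _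
      _ = ENNReal.ofReal (n * (2 * (ε * r))) := by
          rw [ENNReal.ofReal_mul hn0.le, ENNReal.ofReal_natCast, ENNReal.ofReal_mul (p := 2) (by norm_num)]
          norm_num
  rw [ENNReal.ofReal_le_ofReal_iff (by positivity)] at g3
  have g4 : (n : ℝ) * (2 * (ε * r)) ≤ (2 * len H / r + 2) * (2 * (ε * r)) :=
    mul_le_mul_of_nonneg_right hn2 (by positivity)
  have g5 : (2 * len H / r + 2) * (2 * (ε * r)) = 4 * ε * (len H + r) := by
    field_simp; ring
  have g6 : 4 * ε * (len H + r) ≤ 4 * ε * (len H + 1) := by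
    have : 0 < 4 * ε := by positivity
    nlinarith
  have g7 : 4 * ε * (len H + 1) = a / 2 := by
    rw [hε]; field_simp; ring
  linarith

/-- All displacements: interior points of the tetrahedron are exchangeable. -/
theorem ae_shift {A : Set (V × V)} (hA : Inv A) (hm : MeasurableSet A) {C : ENNReal} (hC : C ≠ ⊤)
    (hV : ∃ᶠ c in 𝓝[>] (0 : ℝ), M A c ≤ C * ENNReal.ofReal c) (H : V) :
    ∀ᵐ p : V × V, InT p.1 → InT (p.1 + H) → len p.2 < 1 → (p ∈ A ↔ (p.1 + H, p.2) ∈ A) := by
  -- one depth at a time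
  have step : ∀ m : ℕ, ∀ᵐ p : V × V, (∀ j, -1 + 1 / ((m : ℝ) + 1) < N j ⬝ᵥ p.1) →
      (∀ j, -1 + 1 / ((m : ℝ) + 1) < N j ⬝ᵥ (p.1 + H)) → len p.2 < 1 →
      (p ∈ A ↔ (p.1 + H, p.2) ∈ A) := by
    intro m
    set η : ℝ := 1 / ((m : ℝ) + 1) with hη
    have hηpos : 0 < η := by positivity
    have hlH := len_nonneg H
    set n : ℕ := ⌈6 * len H / η⌉₊ + 1 with hn
    have hn0 : (0 : ℝ) < n := by rw [hn]; positivity
    have hn1 : 6 * len H / η ≤ n := by
      rw [hn]; push_cast
      linarith [Nat.le_ceil (6 * len H / η)]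
    set h : V := (n : ℝ)⁻¹ • H with hh
    have hnh : (n : ℝ) • h = H := by rw [hh, smul_smul, mul_inv_cancel₀ hn0.ne', one_smul]
    have hnull : volume (Sx A η h) = 0 := by
      refine Sx_null hA hm hC hV hηpos ?_
      have h1 : Real.sqrt 3 ≤ 2 := by rw [Real.sqrt_le_left (by norm_num)]; norm_num
      have h2 : len h = len H / n := by
        rw [hh, len_smul, abs_of_pos (inv_pos.mpr hn0)]; field_simp
      rw [div_le_iff₀ hηpos] at hn1
      have h3 : len h ≤ η / 6 := by
        rw [h2, div_le_iff₀ hn0]; linarith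
      have h4 := len_nonneg h
      nlinarith
    have hall : ∀ i : ℕ, ∀ᵐ p : V × V, (p.1 + (i : ℝ) • h, p.2) ∉ Sx A η h := by
      intro i
      have h1 : ∀ᵐ p : V × V, p ∉ Sx A η h := measure_eq_zero_iff_ae_notMem.mp hnull
      exact (mp_shift ((i : ℝ) • h)).quasiMeasurePreserving.ae h1
    filter_upwards [ae_all_iff.mpr hall] with p hp h0 hH hv
    have claim : ∀ i : ℕ, i ≤ n → (p ∈ A ↔ (p.1 + (i : ℝ) • h, p.2) ∈ A) := by
      intro i
      induction i with
      | zero => intro _; simp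
      | succ i ih =>
        intro hi
        rw [ih (by omega)]
        have h1 := hp i
        simp only [Sx, mem_ofPred_eq, not_and, not_not] at h1
        have h2 := h1 (fun j => ?_) hv
        · rw [h2, add_assoc]
          have : ((i + 1 : ℕ) : ℝ) • h = (i : ℝ) • h + h := by
            push_cast; rw [add_smul, one_smul]
          rw [this]
        · have a := h0 j
          have b := hH j
          rw [← hnh] at b
          rw [dotProduct_add, dotProduct_smul, smul_eq_mul] at b ⊢
          have hin : (i : ℝ) < n := by exact_mod_cast hi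
          have hi0 : (0 : ℝ) ≤ i := Nat.cast_nonneg i
          -- convexity
          have hcomb : (n : ℝ) * (N j ⬝ᵥ p.1 + i * N j ⬝ᵥ h) =
              (n - i) * (N j ⬝ᵥ p.1) + i * (N j ⬝ᵥ p.1 + n * N j ⬝ᵥ h) := by ring
          have h5 : (n : ℝ) * (-1 + η) < (n : ℝ) * (N j ⬝ᵥ p.1 + i * N j ⬝ᵥ h) := by
            rw [hcomb]
            have h6 : (n - i) * (-1 + η) < (n - i : ℝ) * (N j ⬝ᵥ p.1) :=
              mul_lt_mul_of_pos_left a (by linarith)
            have h7 : (i : ℝ) * (-1 + η) ≤ i * (N j ⬝ᵥ p.1 + n * N j ⬝ᵥ h) :=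
              mul_le_mul_of_nonneg_left b.le hi0
            linarith
          exact lt_of_mul_lt_mul_left h5 hn0.le
    have := claim n le_rfl
    rwa [hnh] at this
  filter_upwards [ae_all_iff.mpr step] with p hp h0 hH hv
  -- a common depth
  obtain ⟨m, hm1, hm2⟩ : ∃ m : ℕ, (∀ j, -1 + 1 / ((m : ℝ) + 1) < N j ⬝ᵥ p.1) ∧
      (∀ j, -1 + 1 / ((m : ℝ) + 1) < N j ⬝ᵥ (p.1 + H)) := by
    have htend : Tendsto (fun m : ℕ => -1 + 1 / ((m : ℝ) + 1)) atTop (𝓝 (-1)) := by
      have := (tendsto_one_div_add_atTop_nhds_zero_nat (𝕜 := ℝ)).const_add (-1)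
      simpa using this
    have e1 : ∀ᶠ m : ℕ in atTop, ∀ j, -1 + 1 / ((m : ℝ) + 1) < N j ⬝ᵥ p.1 :=
      eventually_all.mpr fun j => htend.eventually (gt_mem_nhds (h0 j))
    have e2 : ∀ᶠ m : ℕ in atTop, ∀ j, -1 + 1 / ((m : ℝ) + 1) < N j ⬝ᵥ (p.1 + H) :=
      eventually_all.mpr fun j => htend.eventually (gt_mem_nhds (hH j))
    exact (e1.and e2).exists
  exact hp m hm1 hm2 hv

end Pool.Agent.Lib.MP_121189_an
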